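import Pool.Agent.Lib_helper68.JOH.Defs
import Pool.Agent.Lib_helper68.JOF.MIX
import Pool.Agent.Lib_helper32.JO.Stmt
import Pool.Agent.Lib_helper68.GL2.B7

/-! Project JO, part H, block BFM: bounded continuous families -/

set_option autoImplicit false

namespace Pool.Agent.JO

open Complex MeasureTheory Filter Topology ModularGroup
open UpperHalfPlane hiding I
open scoped MatrixGroups Modular ComplexConjugate ENNReal

theorem bf_Tm_pr {N m : ℕ} (hm : 0 < m) (hmN : m.Coprime N) {F : QN N → SL(2, ℝ) → ℂ} (hF : BF F) :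
    BF (Tm m F) := by
  obtain ⟨hfam, hcts, B, hB⟩ := hF
  refine ⟨hk_fam_Tm hm hmN hfam, fun s => ?_, ‖(m : ℂ)⁻¹‖ * ((HM (m ^ 2)).card * B), fun s g => ?_⟩
  · unfold Tm
    refine continuous_const.mul (continuous_finsetSum _ fun t _ => ?_)
    exact (hcts _).comp (continuous_const.mul continuous_id)
  · unfold Tm
    rw [norm_mul]
    refine mul_le_mul_of_nonneg_left ?_ (norm_nonneg _)
    refine (norm_sum_le _ _).trans ((Finset.sum_le_sum fun t _ => hB _ _).trans ?_)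
    rw [Finset.sum_const, nsmul_eq_mul]

theorem bf_Psi_pr {N k : ℕ} {Φ : QN N → SL(2, ℝ) → ℂ} (hΦ : KF k Φ) (w : ℍ) : BF (Psi Φ w) := by
  refine ⟨fun γ s g => ?_, fun s => ?_, 1, fun s g => ?_⟩
  · unfold Psi
    rw [hΦ.fam, mul_assoc, hΦ.fam]
  · unfold Psi
    refine (hΦ.cts s).mul (Complex.continuous_conj.comp ((hΦ.cts s).comp ?_))
    exact continuous_id.mul continuous_const
  · unfold Psi
    rw [norm_mul, RCLike.norm_conj]
    calc ‖Φ s g‖ * ‖Φ s (g * gg w 0)‖ ≤ 1 * 1 :=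
        mul_le_mul (hΦ.bdd _ _) (hΦ.bdd _ _) (norm_nonneg _) zero_le_one
      _ = 1 := one_mul 1

theorem bf_sum_pr {N : ℕ} {ι : Type} (S : Finset ι) {F : ι → QN N → SL(2, ℝ) → ℂ}
    (hF : ∀ i ∈ S, BF (F i)) : BF (fun s g => ∑ i ∈ S, F i s g) := by
  classical
  have hb : ∀ i, ∃ B : ℝ, i ∈ S → ∀ s g, ‖F i s g‖ ≤ B := fun i => by
    by_cases hi : i ∈ S
    · obtain ⟨B, hB⟩ := (hF i hi).bdd
      exact ⟨B, fun _ => hB⟩
    · exact ⟨0, fun h => absurd h hi⟩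
  choose B hB using hb
  refine ⟨fun γ s g => ?_, fun s => ?_, ∑ i ∈ S, B i, fun s g => ?_⟩
  · exact Finset.sum_congr rfl fun i hi => (hF i hi).fam γ s g
  · exact continuous_finsetSum _ fun i hi => (hF i hi).cts s
  · exact (norm_sum_le _ _).trans (Finset.sum_le_sum fun i hi => hB i hi s g)

theorem muG_lt_top_pr : muG Set.univ < ⊤ := by
  have h1 : IsFiniteMeasure ((volume : Measure ℍ).restrict (𝒟ᵒ : Set ℍ)) :=
    ⟨by rw [Measure.restrict_apply_univ]; exact Pool.Agent.GL2.b7_vol_fdo⟩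
  have h2 : IsFiniteMeasure muG := by
    unfold muG
    infer_instance
  exact measure_lt_top _ _

theorem bfm_meas {N : ℕ} {F : QN N → SL(2, ℝ) → ℂ} (hF : ∀ s, Continuous (F s)) (s : QN N) :
    Continuous (fun p : ℍ × ℝ => F s (gg p.1 p.2)) :=
  (hF s).comp hk_continuous_gg

theorem bf_int_pr {N : ℕ} {F G : QN N → SL(2, ℝ) → ℂ} (hF : BF F) (hG : BF G) (s : QN N) :
    Integrable (fun p : ℍ × ℝ => F s (gg p.1 p.2) * conj (G s (gg p.1 p.2))) muG := by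
  have hfin : IsFiniteMeasure muG := ⟨muG_lt_top_pr⟩
  obtain ⟨B, hB⟩ := hF.bdd
  obtain ⟨B', hB'⟩ := hG.bdd
  refine Integrable.of_bound (C := B * B') ?_ ?_
  · have h1 : Continuous (fun p : ℍ × ℝ => F s (gg p.1 p.2) * conj (G s (gg p.1 p.2))) :=
      (bfm_meas hF.cts s).mul (Complex.continuous_conj.comp (bfm_meas hG.cts s))
    exact h1.aestronglyMeasurable
  · refine Eventually.of_forall fun p => ?_
    rw [norm_mul, RCLike.norm_conj]
    exact mul_le_mul (hB _ _) (hB' _ _) (norm_nonneg _) ((norm_nonneg _).trans (hB s 1))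

theorem nG_eq_pr {N : ℕ} [NeZero N] {F : QN N → SL(2, ℝ) → ℂ} (hF : BF F) :
    nG F = ENNReal.ofReal (ip F F).re ∧ 0 ≤ (ip F F).re := by
  have h1 : ∀ s (p : ℍ × ℝ), F s (gg p.1 p.2) * conj (F s (gg p.1 p.2)) =
      ((‖F s (gg p.1 p.2)‖ ^ 2 : ℝ) : ℂ) := fun s p => by
    rw [Complex.mul_conj, Complex.normSq_eq_norm_sq]
  have h2 : ∀ s, Integrable (fun p : ℍ × ℝ => ‖F s (gg p.1 p.2)‖ ^ 2) muG := fun s => by
    have h := (bf_int_pr hF hF s).norm
    refine h.congr (Eventually.of_forall fun p => ?_)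
    show ‖F s (gg p.1 p.2) * conj (F s (gg p.1 p.2))‖ = ‖F s (gg p.1 p.2)‖ ^ 2
    rw [norm_mul, RCLike.norm_conj, sq]
  have h3 : (ip F F).re = ∑ s : QN N, ∫ p : ℍ × ℝ, ‖F s (gg p.1 p.2)‖ ^ 2 ∂muG := by
    unfold ip
    rw [Complex.re_sum]
    refine Finset.sum_congr rfl fun s _ => ?_
    rw [integral_congr_ae (Eventually.of_forall (h1 s))]
    have h4 : ∫ p : ℍ × ℝ, ((‖F s (gg p.1 p.2)‖ ^ 2 : ℝ) : ℂ) ∂muG =
        ((∫ p : ℍ × ℝ, ‖F s (gg p.1 p.2)‖ ^ 2 ∂muG : ℝ) : ℂ) := integral_ofReal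
    rw [h4, Complex.ofReal_re]
  have h4 : ∀ s, 0 ≤ ∫ p : ℍ × ℝ, ‖F s (gg p.1 p.2)‖ ^ 2 ∂muG := fun s =>
    integral_nonneg fun p => by positivity
  refine ⟨?_, ?_⟩
  · rw [h3, ENNReal.ofReal_sum_of_nonneg fun s _ => h4 s]
    unfold nG
    refine Finset.sum_congr rfl fun s _ => ?_
    rw [ofReal_integral_eq_lintegral_ofReal (h2 s) (Eventually.of_forall fun p => by positivity)]
  · rw [h3]
    exact Finset.sum_nonneg fun s _ => h4 s

theorem bf_Tm : type_of% @bf_Tm_pr := @bf_Tm_pr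
theorem bf_Psi : type_of% @bf_Psi_pr := @bf_Psi_pr
theorem bf_sum : type_of% @bf_sum_pr := @bf_sum_pr
theorem bf_int : type_of% @bf_int_pr := @bf_int_pr
theorem nG_eq : type_of% @nG_eq_pr := @nG_eq_pr
theorem muG_lt_top : type_of% @muG_lt_top_pr := @muG_lt_top_pr

end Pool.Agent.JO
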