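import Pool.Agent.Lib_helper68.JOH.Defs
import Pool.Agent.Lib_helper68.JOF.MIX
import Pool.Agent.Lib_helper32.JO.Stmt

/-! JO part H, block DEC (helper90): the content of a representative. -/

set_option autoImplicit false

namespace Pool.Agent.JO

open Complex MeasureTheory Filter Topology ModularGroup
open UpperHalfPlane hiding I
open scoped MatrixGroups Modular ComplexConjugate

theorem dec_mem {m : ℕ} (hm : 0 < m) (t : ℕ × ℕ × ℕ) :
    t ∈ HM (m ^ 2) ↔ t.1 * t.2.2 = m ^ 2 ∧ t.2.1 < t.2.2 :=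
  hk_mem_HM (pow_pos hm 2) t

theorem dec_cont_dvd (t : ℕ × ℕ × ℕ) : hcont t ∣ t.1 ∧ hcont t ∣ t.2.1 ∧ hcont t ∣ t.2.2 :=
  ⟨Nat.gcd_dvd_left _ _, (Nat.gcd_dvd_right _ _).trans (Nat.gcd_dvd_left _ _),
    (Nat.gcd_dvd_right _ _).trans (Nat.gcd_dvd_right _ _)⟩

theorem cont_dvd_pr {m : ℕ} (hm : 0 < m) {t : ℕ × ℕ × ℕ} (ht : t ∈ HM (m ^ 2)) :
    hcont t ∣ m := by
  have h1 := ((dec_mem hm t).1 ht).1
  obtain ⟨ha, -, hd⟩ := dec_cont_dvd t
  have h2 : hcont t ^ 2 ∣ m ^ 2 := by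
    rw [← h1, sq]
    exact mul_dvd_mul ha hd
  exact (Nat.pow_dvd_pow_iff two_ne_zero).1 h2

/-- the multiple of a representative -/
def dec_mul (e : ℕ) (t : ℕ × ℕ × ℕ) : ℕ × ℕ × ℕ := (e * t.1, e * t.2.1, e * t.2.2)

theorem dec_hcont (e : ℕ) (t : ℕ × ℕ × ℕ) : hcont (dec_mul e t) = e * hcont t := by
  unfold hcont dec_mul
  simp only
  rw [Nat.gcd_mul_left, Nat.gcd_mul_left]

theorem dec_mul_mem {e m : ℕ} (he : 0 < e) (hm : 0 < m) (t : ℕ × ℕ × ℕ) :
    dec_mul e t ∈ HM ((e * m) ^ 2) ↔ t ∈ HM (m ^ 2) := by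
  rw [dec_mem (Nat.mul_pos he hm), dec_mem hm]
  unfold dec_mul
  simp only
  refine and_congr ?_ (Nat.mul_lt_mul_left he)
  rw [show e * t.1 * (e * t.2.2) = e ^ 2 * (t.1 * t.2.2) by ring, mul_pow]
  exact Nat.mul_right_inj (pow_pos he 2).ne'

theorem dec_hkd (e : ℕ) (t : ℕ × ℕ × ℕ) : hkd (dec_mul e t) = (e : ℤ) • hkd t := by
  unfold hkd dec_mul
  simp only
  ext i j
  fin_cases i <;> fin_cases j <;> simp

theorem dec_hR {e m : ℕ} (he : 0 < e) (hm : 0 < m) {t : ℕ × ℕ × ℕ} (ht : t ∈ HM (m ^ 2)) :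
    hR (e * m) (dec_mul e t) = hR m t := by
  have he' : (e : ℝ) ≠ 0 := Nat.cast_ne_zero.2 he.ne'
  have hm' : (m : ℝ) ≠ 0 := Nat.cast_ne_zero.2 hm.ne'
  apply Subtype.ext
  have h1 := hk_hR_coe (Nat.mul_pos he hm) ((dec_mul_mem he hm t).2 ht)
  have h2 := hk_hR_coe hm ht
  refine h1.trans (Eq.trans ?_ h2.symm)
  rw [dec_hkd]
  ext i j
  rw [Matrix.smul_apply, Matrix.smul_apply, Matrix.map_apply, Matrix.map_apply,
    Matrix.smul_apply]
  simp only [smul_eq_mul, Nat.cast_mul, eq_intCast, Int.cast_mul, Int.cast_natCast]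
  field_simp

theorem dec_hQ {N e m : ℕ} (he : 0 < e) (hm : 0 < m) (hc : (e * m).Coprime N)
    {t : ℕ × ℕ × ℕ} (ht : t ∈ HM (m ^ 2)) :
    hQ N (e * m) (dec_mul e t) = hQ N m t := by
  have hce : e.Coprime N := Nat.Coprime.coprime_mul_right hc
  have hcm : m.Coprime N := Nat.Coprime.coprime_mul_left hc
  have h3 := hk_unit hc
  have h4 := hk_unit hce
  have h5 := hk_unit hcm
  push_cast at h3
  have hinv : ((e : ZMod N) * (m : ZMod N))⁻¹ * (e : ZMod N) = (m : ZMod N)⁻¹ := by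
    calc ((e : ZMod N) * (m : ZMod N))⁻¹ * (e : ZMod N)
        = ((e : ZMod N) * (m : ZMod N))⁻¹ * (e : ZMod N) * ((m : ZMod N) * (m : ZMod N)⁻¹) := by
          rw [h5, mul_one]
      _ = ((e : ZMod N) * (m : ZMod N) * ((e : ZMod N) * (m : ZMod N))⁻¹) * (m : ZMod N)⁻¹ := by
          ring
      _ = (m : ZMod N)⁻¹ := by rw [h3, one_mul]
  apply Subtype.ext
  have h1 := hk_hQ_coe (Nat.mul_pos he hm) hc ((dec_mul_mem he hm t).2 ht)
  have h2 := hk_hQ_coe hm hcm ht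
  refine h1.trans (Eq.trans ?_ h2.symm)
  rw [dec_hkd]
  ext i j
  rw [Matrix.smul_apply, Matrix.smul_apply, Matrix.map_apply, Matrix.map_apply,
    Matrix.smul_apply]
  simp only [smul_eq_mul, Nat.cast_mul, eq_intCast, Int.cast_mul, Int.cast_natCast]
  rw [← mul_assoc, hinv]

theorem dec_div {e : ℕ} {t : ℕ × ℕ × ℕ} (h : hcont t = e) :
    dec_mul e (t.1 / e, t.2.1 / e, t.2.2 / e) = t := by
  obtain ⟨h1, h2, h3⟩ := dec_cont_dvd t
  rw [h] at h1 h2 h3
  unfold dec_mul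
  simp only
  rw [Nat.mul_div_cancel' h1, Nat.mul_div_cancel' h2, Nat.mul_div_cancel' h3]

theorem dec_sum_pr {N m e : ℕ} (hm : 0 < m) (hmN : m.Coprime N) (he : e ∣ m)
    (F : QN N → SL(2, ℝ) → ℂ) (s : QN N) (g : SL(2, ℝ)) :
    ∑ t ∈ (HM (m ^ 2)).filter (fun t => hcont t = e), F (hQ N m t * s) (hR m t * g) =
      ∑ t ∈ (HM ((m / e) ^ 2)).filter (fun t => hcont t = 1),
        F (hQ N (m / e) t * s) (hR (m / e) t * g) := by
  obtain ⟨m', rfl⟩ := he
  have he : 0 < e := Nat.pos_of_mul_pos_right hm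
  have hm' : 0 < m' := Nat.pos_of_mul_pos_left hm
  rw [Nat.mul_div_cancel_left _ he]
  symm
  refine Finset.sum_nbij' (i := dec_mul e) (j := fun t => (t.1 / e, t.2.1 / e, t.2.2 / e))
    ?_ ?_ ?_ ?_ ?_
  · intro t ht
    rw [Finset.mem_filter] at ht ⊢
    refine ⟨(dec_mul_mem he hm' t).2 ht.1, ?_⟩
    rw [dec_hcont, ht.2, mul_one]
  · intro t ht
    rw [Finset.mem_filter] at ht ⊢
    have h1 := dec_div ht.2
    constructor
    · rw [← dec_mul_mem he hm', h1]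
      exact ht.1
    · have h2 := dec_hcont e (t.1 / e, t.2.1 / e, t.2.2 / e)
      rw [h1, ht.2] at h2
      exact (Nat.eq_of_mul_eq_mul_left he (by rw [mul_one]; exact h2)).symm
  · intro t _
    unfold dec_mul
    simp only
    rw [Nat.mul_div_cancel_left _ he, Nat.mul_div_cancel_left _ he, Nat.mul_div_cancel_left _ he]
  · intro t ht
    rw [Finset.mem_filter] at ht
    exact dec_div ht.2
  · intro t ht
    rw [Finset.mem_filter] at ht
    rw [dec_hR he hm' ht.1, dec_hQ he hm' hmN ht.1]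

theorem cont_card_pr {m e : ℕ} (hm : 0 < m) (he : e ∣ m) :
    (m / e) ^ 2 ≤ ((HM (m ^ 2)).filter (fun t => hcont t = e)).card := by
  obtain ⟨m', rfl⟩ := he
  have he : 0 < e := Nat.pos_of_mul_pos_right hm
  have hm' : 0 < m' := Nat.pos_of_mul_pos_left hm
  rw [Nat.mul_div_cancel_left _ he]
  rw [← Finset.card_range (m' ^ 2)]
  refine Finset.card_le_card_of_injOn (fun b => dec_mul e (1, b, m' ^ 2)) ?_ ?_
  · intro b hb
    rw [Finset.mem_coe, Finset.mem_range] at hb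
    rw [Finset.mem_coe, Finset.mem_filter]
    constructor
    · rw [dec_mul_mem he hm', dec_mem hm']
      exact ⟨one_mul _, hb⟩
    · rw [dec_hcont]
      unfold hcont
      simp
  · intro b _ b' _ h
    have h1 : e * b = e * b' := congrArg (fun t : ℕ × ℕ × ℕ => t.2.1) h
    exact Nat.eq_of_mul_eq_mul_left he h1

theorem cont_dvd : type_of% @cont_dvd_pr := @cont_dvd_pr
theorem dec_sum : type_of% @dec_sum_pr := @dec_sum_pr
theorem cont_card : type_of% @cont_card_pr := @cont_card_pr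

end Pool.Agent.JO
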