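import Pool.Agent.Lib_helper68.JOH.Defs
import Pool.Agent.Lib_helper68.JOF.MIX
import Pool.Agent.Lib_helper32.JO.Stmt

set_option autoImplicit false

namespace Pool.Agent.JO

open Complex MeasureTheory Filter Topology ModularGroup
open UpperHalfPlane hiding I
open scoped MatrixGroups Modular ComplexConjugate ENNReal

theorem tra_dvd {d : ℕ} {t : ℕ × ℕ × ℕ} :
    d ∣ hcont t ↔ ∀ i j : Fin 2, (d : ℤ) ∣ hkd t i j := by
  unfold hcont hkd
  rw [Nat.dvd_gcd_iff, Nat.dvd_gcd_iff]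
  constructor
  · rintro ⟨h1, h2, h3⟩ i j
    fin_cases i <;> fin_cases j <;> simp <;> exact_mod_cast (by assumption)
  · intro h
    have h1 := h 0 0
    have h2 := h 0 1
    have h3 := h 1 1
    simp at h1 h2 h3
    exact ⟨by exact_mod_cast h1, by exact_mod_cast h2, by exact_mod_cast h3⟩

theorem tra_mul {d : ℤ} {A B C : Matrix (Fin 2) (Fin 2) ℤ} (h : ∀ i j, d ∣ B i j) :
    ∀ i j, d ∣ (A * B * C) i j := by
  intro i j
  rw [Matrix.mul_apply]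
  refine Finset.dvd_sum fun l _ => Dvd.dvd.mul_right ?_ _
  rw [Matrix.mul_apply]
  exact Finset.dvd_sum fun l' _ => Dvd.dvd.mul_left (h _ _) _

theorem tra_cont {t t' : ℕ × ℕ × ℕ} {γ σ : SL(2, ℤ)}
    (h : hkd t * (γ : Matrix (Fin 2) (Fin 2) ℤ) = (σ : Matrix (Fin 2) (Fin 2) ℤ) * hkd t') :
    hcont t' = hcont t := by
  have h1 : hkd t = (σ : Matrix (Fin 2) (Fin 2) ℤ) * hkd t' *
      ((γ⁻¹ : SL(2, ℤ)) : Matrix (Fin 2) (Fin 2) ℤ) := by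
    rw [← h, Matrix.mul_assoc, ← Matrix.SpecialLinearGroup.coe_mul, mul_inv_cancel,
      Matrix.SpecialLinearGroup.coe_one, Matrix.mul_one]
  have h2 : hkd t' = ((σ⁻¹ : SL(2, ℤ)) : Matrix (Fin 2) (Fin 2) ℤ) * hkd t *
      (γ : Matrix (Fin 2) (Fin 2) ℤ) := by
    rw [Matrix.mul_assoc, h, ← Matrix.mul_assoc, ← Matrix.SpecialLinearGroup.coe_mul,
      inv_mul_cancel, Matrix.SpecialLinearGroup.coe_one, Matrix.one_mul]
  apply Nat.dvd_antisymm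
  · rw [tra_dvd, h1]
    exact tra_mul (tra_dvd.1 dvd_rfl)
  · rw [tra_dvd, h2]
    exact tra_mul (tra_dvd.1 dvd_rfl)

theorem tra_x {a b d : ℕ} (hd : 0 < d) (h : Nat.gcd a (Nat.gcd b d) = 1) :
    ∃ x : ℕ, Nat.Coprime (a * x + b) d := by
  refine ⟨∏ p ∈ d.primeFactors.filter (fun p => ¬ p ∣ b), p, ?_⟩
  rw [Nat.coprime_iff_gcd_eq_one]
  by_contra hne
  obtain ⟨p, hp, hpd⟩ := Nat.exists_prime_and_dvd hne
  rw [Nat.dvd_gcd_iff] at hpd
  obtain ⟨h1, h2⟩ := hpd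
  by_cases hb : p ∣ b
  · have h3 : p ∣ a * ∏ p ∈ d.primeFactors.filter (fun p => ¬ p ∣ b), p :=
      (Nat.dvd_add_left hb).1 h1
    rcases hp.dvd_mul.1 h3 with h4 | h4
    · have h5 : p ∣ Nat.gcd a (Nat.gcd b d) := Nat.dvd_gcd h4 (Nat.dvd_gcd hb h2)
      rw [h] at h5
      exact hp.one_lt.ne' (Nat.dvd_one.1 h5)
    · rw [Prime.dvd_finsetProd_iff hp.prime] at h4
      obtain ⟨q, hq, hpq⟩ := h4
      rw [Finset.mem_filter] at hq
      have h6 : p = q := (Nat.prime_dvd_prime_iff_eq hp (Nat.prime_of_mem_primeFactors hq.1)).1 hpq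
      exact hq.2 (h6 ▸ hb)
  · have h3 : p ∣ ∏ p ∈ d.primeFactors.filter (fun p => ¬ p ∣ b), p := by
      apply Finset.dvd_prod_of_mem
      rw [Finset.mem_filter]
      exact ⟨Nat.mem_primeFactors.2 ⟨hp, h2, hd.ne'⟩, hb⟩
    exact hb ((Nat.dvd_add_right (Dvd.dvd.mul_left h3 a)).1 h1)

theorem tra_snf {n : ℕ} (hn : 0 < n) {t : ℕ × ℕ × ℕ} (ht : t ∈ HM n) :
    0 < hcont t ∧ ∃ (U V : SL(2, ℤ)) (k : ℕ), (hcont t) ^ 2 * k = n ∧
      (U : Matrix (Fin 2) (Fin 2) ℤ) * hkd t * (V : Matrix (Fin 2) (Fin 2) ℤ) =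
        !![(hcont t : ℤ), 0; 0, (hcont t : ℤ) * k] := by
  obtain ⟨h1, h2⟩ := (hk_mem_HM hn t).1 ht
  have ha : 0 < t.1 := Nat.pos_of_ne_zero fun h => by rw [h, zero_mul] at h1; omega
  have he : 0 < hcont t := Nat.gcd_pos_of_pos_left _ ha
  refine ⟨he, ?_⟩
  have e1 : hcont t ∣ t.1 := Nat.gcd_dvd_left _ _
  have e2 : hcont t ∣ t.2.1 := (Nat.gcd_dvd_right _ _).trans (Nat.gcd_dvd_left _ _)
  have e3 : hcont t ∣ t.2.2 := (Nat.gcd_dvd_right _ _).trans (Nat.gcd_dvd_right _ _)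
  obtain ⟨a, ha'⟩ := e1
  obtain ⟨b, hb'⟩ := e2
  obtain ⟨d, hd'⟩ := e3
  have hg : Nat.gcd a (Nat.gcd b d) = 1 := by
    have h3 : hcont t = hcont t * Nat.gcd a (Nat.gcd b d) := by
      conv_lhs => rw [hcont, ha', hb', hd', Nat.gcd_mul_left, Nat.gcd_mul_left]
    exact (Nat.eq_of_mul_eq_mul_left he (by rw [mul_one]; exact h3)).symm
  have hd : 0 < d := Nat.pos_of_ne_zero fun h => by rw [hd', h, mul_zero, mul_zero] at h1; omega
  obtain ⟨x, hx⟩ := tra_x hd hg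
  have hx2 : IsCoprime (((a * x + b : ℕ)) : ℤ) (d : ℤ) := Nat.isCoprime_iff_coprime.2 hx
  obtain ⟨u, v, huv⟩ := hx2
  push_cast at huv
  refine ⟨⟨!![u, v; -(d : ℤ), (a : ℤ) * x + b], ?_⟩,
    ⟨!![(x : ℤ), x * (u * a) - 1; 1, u * a], ?_⟩, a * d, ?_, ?_⟩
  · rw [Matrix.det_fin_two_of]
    linear_combination huv
  · rw [Matrix.det_fin_two_of]
    ring
  · have h4 : t.1 * t.2.2 = (hcont t * a) * (hcont t * d) := by rw [← ha', ← hd']
    rw [← h1, h4]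
    ring
  · have h5 : hkd t = !![(hcont t : ℤ) * a, (hcont t : ℤ) * b; 0, (hcont t : ℤ) * d] := by
      rw [hkd]
      have e4 : (t.1 : ℤ) = (hcont t : ℤ) * a := by exact_mod_cast ha'
      have e5 : (t.2.1 : ℤ) = (hcont t : ℤ) * b := by exact_mod_cast hb'
      have e6 : (t.2.2 : ℤ) = (hcont t : ℤ) * d := by exact_mod_cast hd'
      rw [e4, e5, e6]
    rw [h5]
    show !![u, v; -(d : ℤ), (a : ℤ) * x + b] * !![(hcont t : ℤ) * a, (hcont t : ℤ) * b; 0,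
      (hcont t : ℤ) * d] * !![(x : ℤ), x * (u * a) - 1; 1, u * a] = _
    generalize (hcont t : ℤ) = e
    push_cast
    ext i j
    fin_cases i <;> fin_cases j
    · simp [Matrix.mul_apply, Fin.sum_univ_two]
      linear_combination e * huv
    · simp [Matrix.mul_apply, Fin.sum_univ_two]
      linear_combination e * u * a * huv
    · simp [Matrix.mul_apply, Fin.sum_univ_two]
      ring
    · simp [Matrix.mul_apply, Fin.sum_univ_two]
      ring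

theorem tra_first {m : ℕ} [NeZero m] {t t' : ↥(HM (m ^ 2))} (h : hcont t'.1 = hcont t.1) :
    ∃ γ : SL(2, ℤ), γ • t = t' := by
  obtain ⟨he, U, V, k, hk, h1⟩ := tra_snf (hh_sq_pos m) t.2
  obtain ⟨-, U', V', k', hk', h1'⟩ := tra_snf (hh_sq_pos m) t'.2
  rw [h] at hk' h1'
  have hkk : k' = k := by
    have h2 : hcont t.1 ^ 2 * k' = hcont t.1 ^ 2 * k := by rw [hk, hk']
    exact Nat.eq_of_mul_eq_mul_left (pow_pos he 2) h2
  rw [hkk] at h1'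
  refine ⟨V' * V⁻¹, ?_⟩
  rw [hsmul_def]
  apply hact_eq (σ := U⁻¹ * U')
  have h3 : (U : Matrix (Fin 2) (Fin 2) ℤ) * hkd t.1 * (V : Matrix (Fin 2) (Fin 2) ℤ) =
      (U' : Matrix (Fin 2) (Fin 2) ℤ) * hkd t'.1 * (V' : Matrix (Fin 2) (Fin 2) ℤ) := by
    rw [h1, h1']
  have h4 : hkd t.1 = ((U⁻¹ : SL(2, ℤ)) : Matrix (Fin 2) (Fin 2) ℤ) *
      ((U' : Matrix (Fin 2) (Fin 2) ℤ) * hkd t'.1 * (V' : Matrix (Fin 2) (Fin 2) ℤ)) *
      ((V⁻¹ : SL(2, ℤ)) : Matrix (Fin 2) (Fin 2) ℤ) := by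
    rw [← h3, ← Matrix.mul_assoc, ← Matrix.mul_assoc, ← Matrix.SpecialLinearGroup.coe_mul,
      inv_mul_cancel, Matrix.SpecialLinearGroup.coe_one, Matrix.one_mul, Matrix.mul_assoc,
      ← Matrix.SpecialLinearGroup.coe_mul, mul_inv_cancel, Matrix.SpecialLinearGroup.coe_one,
      Matrix.mul_one]
  have h5 : (V' * V⁻¹ : SL(2, ℤ))⁻¹ = V * V'⁻¹ := by group
  rw [h4, h5, Matrix.SpecialLinearGroup.coe_mul, Matrix.SpecialLinearGroup.coe_mul]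
  have h6 : ((V⁻¹ : SL(2, ℤ)) : Matrix (Fin 2) (Fin 2) ℤ) * (V : Matrix (Fin 2) (Fin 2) ℤ) = 1 := by
    rw [← Matrix.SpecialLinearGroup.coe_mul, inv_mul_cancel, Matrix.SpecialLinearGroup.coe_one]
  have h7 : (V' : Matrix (Fin 2) (Fin 2) ℤ) * ((V'⁻¹ : SL(2, ℤ)) : Matrix (Fin 2) (Fin 2) ℤ) = 1 := by
    rw [← Matrix.SpecialLinearGroup.coe_mul, mul_inv_cancel, Matrix.SpecialLinearGroup.coe_one]
  calc ((U⁻¹ : SL(2, ℤ)) : Matrix (Fin 2) (Fin 2) ℤ) *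
      ((U' : Matrix (Fin 2) (Fin 2) ℤ) * hkd t'.1 * (V' : Matrix (Fin 2) (Fin 2) ℤ)) *
      ((V⁻¹ : SL(2, ℤ)) : Matrix (Fin 2) (Fin 2) ℤ) * ((V : Matrix (Fin 2) (Fin 2) ℤ) *
        ((V'⁻¹ : SL(2, ℤ)) : Matrix (Fin 2) (Fin 2) ℤ)) =
      ((U⁻¹ : SL(2, ℤ)) : Matrix (Fin 2) (Fin 2) ℤ) * (U' : Matrix (Fin 2) (Fin 2) ℤ) * hkd t'.1 *
        ((V' : Matrix (Fin 2) (Fin 2) ℤ) * ((((V⁻¹ : SL(2, ℤ)) : Matrix (Fin 2) (Fin 2) ℤ) *
          (V : Matrix (Fin 2) (Fin 2) ℤ)) * ((V'⁻¹ : SL(2, ℤ)) : Matrix (Fin 2) (Fin 2) ℤ))) := by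
        simp only [Matrix.mul_assoc]
    _ = _ := by rw [h6, Matrix.one_mul, h7, Matrix.mul_one]

/-- elements which are `1` modulo `m²` fix the representatives -/
theorem tra_fix {m : ℕ} [NeZero m] (t : ↥(HM (m ^ 2))) (γ : SL(2, ℤ))
    (h : ∀ i j, ((m ^ 2 : ℕ) : ℤ) ∣ ((γ⁻¹ : SL(2, ℤ)) : Matrix (Fin 2) (Fin 2) ℤ) i j -
      (1 : Matrix (Fin 2) (Fin 2) ℤ) i j) : γ • t = t := by
  choose E hE using h
  set B : Matrix (Fin 2) (Fin 2) ℤ := Matrix.of fun i j => E i j with hB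
  have h1 : ((γ⁻¹ : SL(2, ℤ)) : Matrix (Fin 2) (Fin 2) ℤ) = 1 + ((m ^ 2 : ℕ) : ℤ) • B := by
    ext i j
    rw [Matrix.add_apply, Matrix.smul_apply, hB, Matrix.of_apply, smul_eq_mul, ← hE]
    ring
  have h2 : (hkd t.1).adjugate * hkd t.1 = ((m ^ 2 : ℕ) : ℤ) • (1 : Matrix (Fin 2) (Fin 2) ℤ) := by
    rw [Matrix.adjugate_mul, hh_det (hh_sq_pos m) t.2]
  set S : Matrix (Fin 2) (Fin 2) ℤ := 1 + hkd t.1 * B * (hkd t.1).adjugate with hS
  have h3 : hkd t.1 * ((γ⁻¹ : SL(2, ℤ)) : Matrix (Fin 2) (Fin 2) ℤ) = S * hkd t.1 := by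
    rw [h1, hS, Matrix.add_mul, Matrix.mul_add, Matrix.mul_one, Matrix.one_mul, Matrix.mul_assoc,
      h2, Matrix.mul_smul, Matrix.mul_smul, Matrix.mul_one]
  have h4 : S.det = 1 := by
    have h5 := congrArg Matrix.det h3
    rw [Matrix.det_mul, Matrix.det_mul, Matrix.SpecialLinearGroup.det_coe, mul_one] at h5
    have h6 : (hkd t.1).det ≠ 0 := by
      rw [hh_det (hh_sq_pos m) t.2]
      exact_mod_cast (hh_sq_pos m).ne'
    exact mul_right_cancel₀ h6 (by rw [one_mul]; exact h5.symm)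
  rw [hsmul_def]
  exact hact_eq (σ := ⟨S, h4⟩) h3

/-- simultaneous approximation -/
theorem tra_crt {N M : ℕ} [NeZero N] [NeZero M] (h : N.Coprime M) (s : SL(2, ZMod N)) :
    ∃ γ : SL(2, ℤ), red N γ = s ∧ ∀ i j, (M : ℤ) ∣ γ i j - (1 : Matrix (Fin 2) (Fin 2) ℤ) i j := by
  set c := ZMod.chineseRemainder h with hc
  have hNM : 0 < N * M := Nat.pos_of_ne_zero (mul_ne_zero (NeZero.ne N) (NeZero.ne M))
  set A : Matrix (Fin 2) (Fin 2) (ZMod N × ZMod M) :=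
    Matrix.of fun i j => (s i j, (1 : Matrix (Fin 2) (Fin 2) (ZMod M)) i j) with hA
  have hdet : A.det = 1 := by
    rw [Matrix.det_fin_two]
    have h1 := s.det_coe
    rw [Matrix.det_fin_two] at h1
    refine Prod.ext ?_ ?_
    · exact h1
    · simp [hA]
  set g : SL(2, ZMod (N * M)) :=
    Matrix.SpecialLinearGroup.map (c.symm : ZMod N × ZMod M →+* ZMod (N * M)) ⟨A, hdet⟩ with hg
  obtain ⟨γ, hγ⟩ := JOM.red_surj (N * M) hNM g
  have h2 : ∀ i j, (γ i j : ZMod N × ZMod M) = A i j := by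
    intro i j
    have h3 : ((γ i j : ℤ) : ZMod (N * M)) = c.symm (A i j) := by
      have h4 := congrArg (fun x : SL(2, ZMod (N * M)) => x i j) hγ
      exact h4
    have h5 := congrArg c h3
    rw [map_intCast, RingEquiv.apply_symm_apply] at h5
    exact h5
  refine ⟨γ, ?_, fun i j => ?_⟩
  · ext i j
    have h3 := congrArg Prod.fst (h2 i j)
    rw [Prod.fst_intCast] at h3
    exact h3
  · have h3 := congrArg Prod.snd (h2 i j)
    rw [Prod.snd_intCast] at h3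
    rw [← ZMod.intCast_zmod_eq_zero_iff_dvd]
    push_cast
    rw [h3]
    simp only [hA, Matrix.of_apply, Matrix.one_apply]
    split_ifs <;> simp

theorem qq_trans_pr {N m : ℕ} [NeZero N] [NeZero m] (hmN : m.Coprime N) (j j' : QQ N m) :
    j' ∈ MulAction.orbit SL(2, ℤ) j ↔ hcont j'.1.1 = hcont j.1.1 := by
  rw [MulAction.mem_orbit_iff]
  constructor
  · rintro ⟨γ, rfl⟩
    rw [qsmul_fst, hsmul_def]
    obtain ⟨σ, hσ⟩ := hact_spec m γ j.1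
    exact tra_cont hσ
  · intro h
    obtain ⟨γ₁, h1⟩ := tra_first h
    have : NeZero (m ^ 2) := ⟨(hh_sq_pos m).ne'⟩
    have hc : N.Coprime (m ^ 2) := (Nat.Coprime.pow_left 2 hmN).symm
    obtain ⟨δ, h2, h3⟩ := tra_crt hc ((red N γ₁ * j.2) * j'.2⁻¹)
    refine ⟨δ⁻¹ * γ₁, ?_⟩
    rw [mul_smul]
    refine Prod.ext ?_ ?_
    · rw [qsmul_fst, qsmul_fst, h1]
      exact tra_fix j'.1 δ⁻¹ (by rw [inv_inv]; exact h3)
    · rw [qsmul_snd, qsmul_snd, hk_red_inv, h2]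
      group

end Pool.Agent.JO

namespace Pool.Agent.JO
theorem qq_trans : type_of% @qq_trans_pr := @qq_trans_pr

end Pool.Agent.JO
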