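import Pool.Agent.Lib_helper68.JOH.Defs
import Pool.Agent.Lib_helper68.JOF.MIX
import Pool.Agent.Lib_helper32.JO.Stmt
import Pool.Agent.Lib_helper68.JOHF.TRA
import Pool.Agent.Lib_helper68.JOHF.DEC
import Pool.Agent.Lib_helper68.JOHF.BFM
import Pool.Agent.Lib_helper68.GL2.B7

/-!
# Project JO, part H, block AVG: the main term of the mixing theorem

Uses `b7_vol_fdo` of the landed file `Pool.Agent.Lib_helper68.GL2.B7` (finite volume).
-/

set_option autoImplicit false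

namespace Pool.Agent.JO

open Complex MeasureTheory Filter Topology ModularGroup
open UpperHalfPlane hiding I
open scoped MatrixGroups Modular ComplexConjugate ENNReal

open scoped Classical in
theorem avg_sum {N m e : ℕ} [NeZero N] [NeZero m] {A : Type} [AddCommMonoid A]
    (f : ℕ × ℕ × ℕ → QN N → A) :
    ∑ i ∈ Finset.univ.filter (fun i : QQ N m => hcont i.1.1 = e), f i.1.1 i.2 =
      ∑ s : QN N, ∑ t ∈ (HM (m ^ 2)).filter (fun t => hcont t = e), f t s := by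
  rw [Finset.sum_filter]
  have h1 : ∑ i : QQ N m, (if hcont i.1.1 = e then f i.1.1 i.2 else 0) =
      ∑ x : ↥(HM (m ^ 2)) × QN N, (if hcont x.1.1 = e then f x.1.1 x.2 else 0) := rfl
  rw [h1, Fintype.sum_prod_type, Finset.sum_comm]
  refine Finset.sum_congr rfl fun s _ => ?_
  rw [Finset.sum_filter]
  exact Finset.sum_coe_sort (HM (m ^ 2)) (fun t => if hcont t = e then f t s else 0)

theorem avg_cts {N k m : ℕ} {Φ : QN N → SL(2, ℝ) → ℂ} (hΦ : KF k Φ) (t : ℕ × ℕ × ℕ) (s : QN N) :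
    Continuous fun z : ℍ => Φ (hQ N m t * s) (hR m t * gg z 0) * conj (Φ s (gg z 0)) := by
  have h1 : Continuous fun z : ℍ => gg z 0 :=
    hk_continuous_gg.comp (by fun_prop : Continuous fun z : ℍ => (z, (0 : ℝ)))
  refine ((hΦ.cts _).comp (continuous_const.mul h1)).mul ?_
  exact Complex.continuous_conj.comp ((hΦ.cts s).comp h1)

theorem avg_bd {N k m : ℕ} {Φ : QN N → SL(2, ℝ) → ℂ} (hΦ : KF k Φ) (t : ℕ × ℕ × ℕ) (s : QN N)
    (z : ℍ) : ‖Φ (hQ N m t * s) (hR m t * gg z 0) * conj (Φ s (gg z 0))‖ ≤ 1 := by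
  rw [norm_mul, Complex.norm_conj]
  exact mul_le_one₀ (hΦ.bdd _ _) (norm_nonneg _) (hΦ.bdd _ _)

theorem avg_int {N k m : ℕ} {Φ : QN N → SL(2, ℝ) → ℂ} (hΦ : KF k Φ) (t : ℕ × ℕ × ℕ) (s : QN N) :
    IntegrableOn (fun z : ℍ => Φ (hQ N m t * s) (hR m t * gg z 0) * conj (Φ s (gg z 0)))
      (𝒟ᵒ : Set ℍ) := by
  refine Measure.integrableOn_of_bounded (M := 1) GL2.b7_vol_fdo.ne
    (avg_cts hΦ t s).aestronglyMeasurable ?_
  exact Filter.Eventually.of_forall fun z => avg_bd hΦ t s z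

theorem avg_swap {N k m e : ℕ} [NeZero N] [NeZero m] {Φ : QN N → SL(2, ℝ) → ℂ} {ν : ℂ}
    (hΦ : KF k Φ) (hmN : m.Coprime N) (he : e ∣ m) (hν : PEig (m / e) Φ ν) (s : QN N) :
    ∑ t ∈ (HM (m ^ 2)).filter (fun t => hcont t = e),
      ∫ z in 𝒟ᵒ, Φ (hQ N m t * s) (hR m t * gg z 0) * conj (Φ s (gg z 0)) =
      ∫ z in 𝒟ᵒ, ((m / e : ℕ) : ℂ) * ν * (Φ s (gg z 0) * conj (Φ s (gg z 0))) := by
  rw [← integral_finsetSum _ (fun t _ => avg_int hΦ t s)]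
  refine integral_congr_ae (Filter.Eventually.of_forall fun z => ?_)
  have h1 := dec_sum (Nat.pos_of_ne_zero (NeZero.ne m)) hmN he Φ s (gg z 0)
  have h2 := hν s (gg z 0)
  show ∑ t ∈ (HM (m ^ 2)).filter (fun t => hcont t = e),
    Φ (hQ N m t * s) (hR m t * gg z 0) * conj (Φ s (gg z 0)) = _
  rw [← Finset.sum_mul, h1, h2]
  ring

theorem avg_V {N k m e : ℕ} [NeZero N] [NeZero m] {Φ : QN N → SL(2, ℝ) → ℂ} {ν : ℂ}
    (hΦ : KF k Φ) (hmN : m.Coprime N) (he : e ∣ m) (hν : PEig (m / e) Φ ν) :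
    ‖∑ i ∈ Finset.univ.filter (fun i : QQ N m => hcont i.1.1 = e), ∫ z in 𝒟ᵒ, AF m Φ i z‖ ≤
      Fintype.card (QN N) * (((m / e : ℕ) : ℝ) * ‖ν‖ * (volume : Measure ℍ).real 𝒟ᵒ) := by
  have h1 := avg_sum (N := N) (m := m) (e := e)
    (fun t s => ∫ z in 𝒟ᵒ, Φ (hQ N m t * s) (hR m t * gg z 0) * conj (Φ s (gg z 0)))
  have h2 : ∑ i ∈ Finset.univ.filter (fun i : QQ N m => hcont i.1.1 = e), ∫ z in 𝒟ᵒ, AF m Φ i z =
      ∑ s : QN N, ∫ z in 𝒟ᵒ, ((m / e : ℕ) : ℂ) * ν * (Φ s (gg z 0) * conj (Φ s (gg z 0))) := by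
    refine Eq.trans (Eq.trans ?_ h1) (Finset.sum_congr rfl fun s _ => avg_swap hΦ hmN he hν s)
    rfl
  rw [h2]
  refine (norm_sum_le _ _).trans ?_
  have h3 : ∀ s ∈ (Finset.univ : Finset (QN N)),
      ‖∫ z in 𝒟ᵒ, ((m / e : ℕ) : ℂ) * ν * (Φ s (gg z 0) * conj (Φ s (gg z 0)))‖ ≤
        ((m / e : ℕ) : ℝ) * ‖ν‖ * (volume : Measure ℍ).real 𝒟ᵒ := by
    intro s _
    refine norm_setIntegral_le_of_norm_le_const (GL2.b7_vol_fdo) fun z _ => ?_
    rw [norm_mul, norm_mul, norm_mul, Complex.norm_natCast, Complex.norm_conj]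
    refine mul_le_of_le_one_right (by positivity) ?_
    exact mul_le_one₀ (hΦ.bdd _ _) (norm_nonneg _) (hΦ.bdd _ _)
  refine (Finset.sum_le_card_nsmul _ _ _ h3).trans ?_
  rw [nsmul_eq_mul, Finset.card_univ]

theorem avg_n {N m e : ℕ} [NeZero N] [NeZero m] (he : e ∣ m) :
    (Fintype.card (QN N) : ℝ) * ((m / e : ℕ) : ℝ) ^ 2 ≤
      ((Finset.univ.filter (fun i : QQ N m => hcont i.1.1 = e)).card : ℝ) := by
  have h1 := avg_sum (N := N) (m := m) (e := e) (A := ℕ) (fun _ _ => 1)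
  have h2 := cont_card (Nat.pos_of_ne_zero (NeZero.ne m)) he
  rw [Finset.sum_const, smul_eq_mul, mul_one] at h1
  have h3 : (Finset.univ.filter (fun i : QQ N m => hcont i.1.1 = e)).card =
      Fintype.card (QN N) * ((HM (m ^ 2)).filter (fun t => hcont t = e)).card := by
    rw [h1]
    simp [Finset.card_univ]
  rw [h3]
  push_cast
  refine mul_le_mul_of_nonneg_left ?_ (by positivity)
  exact_mod_cast h2

theorem avg_term {N k m e : ℕ} [NeZero N] [NeZero m] {Φ : QN N → SL(2, ℝ) → ℂ} {ν : ℂ}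
    (hΦ : KF k Φ) (hmN : m.Coprime N) (he : e ∣ m) (hν : PEig (m / e) Φ ν) :
    ‖(∑ i ∈ Finset.univ.filter (fun i : QQ N m => hcont i.1.1 = e), ∫ z in 𝒟ᵒ, AF m Φ i z) *
      conj ((∑ i ∈ Finset.univ.filter (fun i : QQ N m => hcont i.1.1 = e),
        ∫ z in 𝒟ᵒ, AF m Φ i z) /
          ((Finset.univ.filter (fun i : QQ N m => hcont i.1.1 = e)).card : ℂ))‖ ≤
      (Fintype.card (QN N) * (volume : Measure ℍ).real 𝒟ᵒ ^ 2) * ‖ν‖ ^ 2 := by
  have h1 := avg_V hΦ hmN he hν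
  have h2 := avg_n (N := N) (m := m) he
  set V := ∑ i ∈ Finset.univ.filter (fun i : QQ N m => hcont i.1.1 = e), ∫ z in 𝒟ᵒ, AF m Φ i z
    with hV
  set n := (Finset.univ.filter (fun i : QQ N m => hcont i.1.1 = e)).card with hn
  have hm : 0 < m := Nat.pos_of_ne_zero (NeZero.ne m)
  have hme : 0 < m / e := Nat.div_pos (Nat.le_of_dvd hm he) (Nat.pos_of_dvd_of_pos he hm)
  have hc : 0 < (Fintype.card (QN N) : ℝ) := by
    exact_mod_cast Fintype.card_pos_iff.2 ⟨(1 : QN N)⟩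
  have hq : (0 : ℝ) < ((m / e : ℕ) : ℝ) := by exact_mod_cast hme
  have hn0 : (0 : ℝ) < n := lt_of_lt_of_le (by positivity) h2
  rw [norm_mul, Complex.norm_conj, norm_div, Complex.norm_natCast, ← mul_div_assoc,
    div_le_iff₀ hn0]
  have hv0 : 0 ≤ (volume : Measure ℍ).real 𝒟ᵒ := measureReal_nonneg
  calc ‖V‖ * ‖V‖ ≤ (Fintype.card (QN N) * (((m / e : ℕ) : ℝ) * ‖ν‖ *
        (volume : Measure ℍ).real 𝒟ᵒ)) * (Fintype.card (QN N) * (((m / e : ℕ) : ℝ) * ‖ν‖ *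
        (volume : Measure ℍ).real 𝒟ᵒ)) :=
        mul_le_mul h1 h1 (norm_nonneg _) (le_trans (norm_nonneg _) h1)
    _ = (Fintype.card (QN N) * (volume : Measure ℍ).real 𝒟ᵒ ^ 2) * ‖ν‖ ^ 2 *
        ((Fintype.card (QN N) : ℝ) * ((m / e : ℕ) : ℝ) ^ 2) := by ring
    _ ≤ _ := mul_le_mul_of_nonneg_left h2 (by positivity)

open scoped Classical in
theorem avg_oavg {N k m : ℕ} [NeZero N] [NeZero m] {Φ : QN N → SL(2, ℝ) → ℂ}
    (hmN : m.Coprime N) (j : QQ N m) :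
    JOM.oavg (AF m Φ) j = (∑ i ∈ Finset.univ.filter (fun i : QQ N m => hcont i.1.1 = hcont j.1.1),
        ∫ z in 𝒟ᵒ, AF m Φ i z) /
          ((Finset.univ.filter (fun i : QQ N m => hcont i.1.1 = hcont j.1.1)).card : ℂ) := by
  have h : (Finset.univ.filter (fun i : QQ N m => i ∈ MulAction.orbit SL(2, ℤ) j)) =
      Finset.univ.filter (fun i : QQ N m => hcont i.1.1 = hcont j.1.1) := by
    ext i
    simp only [Finset.mem_filter, Finset.mem_univ, true_and]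
    exact qq_trans hmN j i
  rw [JOM.oavg]
  congr 1
  · exact Finset.sum_congr (by convert h) fun _ _ => rfl
  · congr 2

theorem avg_bound_pr {N : ℕ} [NeZero N] : ∃ C : ℝ, 0 < C ∧ ∀ (k m : ℕ) [NeZero m]
    (Φ : QN N → SL(2, ℝ) → ℂ) (ν : ℕ → ℂ), KF k Φ → m.Coprime N →
    (∀ d ∈ m.divisors, PEig d Φ (ν d)) →
    ‖∑ j : QQ N m, (∫ z in 𝒟ᵒ, AF m Φ j z) * conj (JOM.oavg (AF m Φ) j)‖ ≤
      C * ∑ d ∈ m.divisors, ‖ν d‖ ^ 2 := by
  classical
  refine ⟨Fintype.card (QN N) * (volume : Measure ℍ).real 𝒟ᵒ ^ 2 + 1, by positivity, ?_⟩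
  intro k m _ Φ ν hΦ hmN hν
  have hm : 0 < m := Nat.pos_of_ne_zero (NeZero.ne m)
  have h1 : ∀ j ∈ (Finset.univ : Finset (QQ N m)), hcont j.1.1 ∈ m.divisors := fun j _ =>
    Nat.mem_divisors.2 ⟨cont_dvd hm j.1.2, hm.ne'⟩
  rw [← Finset.sum_fiberwise_of_maps_to h1]
  have h2 : ∀ e ∈ m.divisors, ‖∑ j ∈ Finset.univ.filter (fun j : QQ N m => hcont j.1.1 = e),
      (∫ z in 𝒟ᵒ, AF m Φ j z) * conj (JOM.oavg (AF m Φ) j)‖ ≤
        (Fintype.card (QN N) * (volume : Measure ℍ).real 𝒟ᵒ ^ 2) * ‖ν (m / e)‖ ^ 2 := by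
    intro e he
    have he' := (Nat.mem_divisors.1 he).1
    refine le_trans (le_of_eq ?_) (avg_term (ν := ν (m / e)) hΦ hmN he'
      (hν _ (Nat.mem_divisors.2 ⟨Nat.div_dvd_of_dvd he', hm.ne'⟩)))
    rw [Finset.sum_mul]
    congr 1
    refine Finset.sum_congr rfl fun j hj => ?_
    rw [Finset.mem_filter] at hj
    rw [avg_oavg (k := k) hmN j, hj.2]
  refine (norm_sum_le _ _).trans ((Finset.sum_le_sum h2).trans ?_)
  rw [← Finset.mul_sum]
  have h3 : ∑ e ∈ m.divisors, ‖ν (m / e)‖ ^ 2 = ∑ d ∈ m.divisors, ‖ν d‖ ^ 2 :=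
    Nat.sum_div_divisors m (fun d => ‖ν d‖ ^ 2)
  rw [h3]
  refine mul_le_mul_of_nonneg_right (by linarith) ?_
  exact Finset.sum_nonneg fun d _ => by positivity

theorem avg_bound : type_of% @avg_bound_pr := @avg_bound_pr

end Pool.Agent.JO
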