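import Pool.Agent.Lib_helper68.JOH.Defs
import Pool.Agent.Lib_helper68.JOF.MIX
import Pool.Agent.Lib_helper32.JO.Stmt

/-!
# Project JO, part H, block HE1: `T_{p²} T_{q²} = T_{p²q²}`
-/

set_option autoImplicit false

namespace Pool.Agent.JO

open Complex MeasureTheory Filter Topology ModularGroup
open UpperHalfPlane hiding I
open scoped MatrixGroups Modular ComplexConjugate ENNReal

/-- the representative of the product -/
def he1_phi (x : (ℕ × ℕ × ℕ) × (ℕ × ℕ × ℕ)) : ℕ × ℕ × ℕ :=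
  (x.2.1 * x.1.1, (x.2.1 * x.1.2.1 + x.2.2.1 * x.1.2.2) % (x.2.2.2 * x.1.2.2),
    x.2.2.2 * x.1.2.2)

theorem he1_sg (t t' : ℕ × ℕ × ℕ) : ∃ σ : SL(2, ℤ),
    hkd t' * hkd t = (σ : Matrix (Fin 2) (Fin 2) ℤ) * hkd (he1_phi (t, t')) := by
  refine ⟨⟨!![1, (((t'.1 * t.2.1 + t'.2.1 * t.2.2) / (t'.2.2 * t.2.2) : ℕ) : ℤ); 0, 1],
    by simp⟩, ?_⟩
  have h := Nat.div_add_mod (t'.1 * t.2.1 + t'.2.1 * t.2.2) (t'.2.2 * t.2.2)
  have h' : ((t'.2.2 * t.2.2 : ℕ) : ℤ) *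
      (((t'.1 * t.2.1 + t'.2.1 * t.2.2) / (t'.2.2 * t.2.2) : ℕ) : ℤ) +
      (((t'.1 * t.2.1 + t'.2.1 * t.2.2) % (t'.2.2 * t.2.2) : ℕ) : ℤ) =
      ((t'.1 * t.2.1 + t'.2.1 * t.2.2 : ℕ) : ℤ) := by
    exact_mod_cast h
  ext i j
  fin_cases i <;> fin_cases j
  · simp [hkd, he1_phi, Matrix.mul_apply, Fin.sum_univ_two]
  · simp only [hkd, he1_phi, Matrix.mul_apply, Fin.sum_univ_two]
    simp only [Fin.zero_eta, Fin.mk_one, Matrix.of_apply, Matrix.cons_val', Matrix.cons_val_zero,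
      Matrix.cons_val_one, Matrix.cons_val_fin_one]
    push_cast at h' ⊢
    linear_combination (-1 : ℤ) * h'
  · simp [hkd, he1_phi, Matrix.mul_apply, Fin.sum_univ_two]
  · simp [hkd, he1_phi, Matrix.mul_apply, Fin.sum_univ_two]

theorem he1_mem {p q : ℕ} (hp : 0 < p) (hq : 0 < q) {x : (ℕ × ℕ × ℕ) × (ℕ × ℕ × ℕ)}
    (hx : x ∈ HM (p ^ 2) ×ˢ HM (q ^ 2)) : he1_phi x ∈ HM ((p * q) ^ 2) := by
  rw [Finset.mem_product, hk_mem_HM (pow_pos hp 2), hk_mem_HM (pow_pos hq 2)] at hx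
  obtain ⟨⟨h1, h2⟩, h3, h4⟩ := hx
  rw [hk_mem_HM (pow_pos (Nat.mul_pos hp hq) 2)]
  refine ⟨?_, Nat.mod_lt _ (Nat.mul_pos (by omega) (by omega))⟩
  show x.2.1 * x.1.1 * (x.2.2.2 * x.1.2.2) = (p * q) ^ 2
  calc x.2.1 * x.1.1 * (x.2.2.2 * x.1.2.2) = (x.1.1 * x.1.2.2) * (x.2.1 * x.2.2.2) := by ring
    _ = (p * q) ^ 2 := by rw [h1, h3]; ring

theorem he1_gcd {m n a a' : ℕ} (hmn : m.Coprime n) (ha : a ∣ m) (ha' : a' ∣ n) :
    Nat.gcd (a' * a) m = a := by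
  have h1 : Nat.Coprime a' m := (Nat.Coprime.coprime_dvd_right ha' hmn).symm
  rw [Nat.Coprime.gcd_mul_left_cancel a h1]
  exact Nat.gcd_eq_left ha

theorem he1_inj {p q : ℕ} (hp : 0 < p) (hq : 0 < q) (hpq : p.Coprime q) :
    Set.InjOn he1_phi (↑(HM (p ^ 2) ×ˢ HM (q ^ 2)) : Set ((ℕ × ℕ × ℕ) × (ℕ × ℕ × ℕ))) := by
  rintro ⟨⟨a, b, d⟩, ⟨a', b', d'⟩⟩ hx ⟨⟨e, c, f⟩, ⟨e', c', f'⟩⟩ hy h
  rw [Finset.mem_coe, Finset.mem_product, hk_mem_HM (pow_pos hp 2),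
    hk_mem_HM (pow_pos hq 2)] at hx hy
  obtain ⟨⟨h1, h2⟩, h3, h4⟩ := hx
  obtain ⟨⟨k1, k2⟩, k3, k4⟩ := hy
  simp only at h1 h2 h3 h4 k1 k2 k3 k4
  simp only [he1_phi, Prod.mk.injEq] at h
  obtain ⟨g1, g2, g3⟩ := h
  have hc : (p ^ 2).Coprime (q ^ 2) := Nat.Coprime.pow 2 2 hpq
  have hd : d ∣ p ^ 2 := ⟨a, by rw [← h1]; ring⟩
  have hd' : d' ∣ q ^ 2 := ⟨a', by rw [← h3]; ring⟩
  have hf : f ∣ p ^ 2 := ⟨e, by rw [← k1]; ring⟩
  have hf' : f' ∣ q ^ 2 := ⟨e', by rw [← k3]; ring⟩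
  have ha : a ∣ p ^ 2 := ⟨d, h1.symm⟩
  have ha' : a' ∣ q ^ 2 := ⟨d', h3.symm⟩
  have he : e ∣ p ^ 2 := ⟨f, k1.symm⟩
  have he' : e' ∣ q ^ 2 := ⟨f', k3.symm⟩
  have e1 : a = e := by
    rw [← he1_gcd hc ha ha', ← he1_gcd hc he he', g1]
  have e2 : a' = e' := by
    have t1 := he1_gcd hc.symm ha' ha
    have t2 := he1_gcd hc.symm he' he
    rw [← t1, ← t2, mul_comm a a', mul_comm e e', g1]
  have e3 : d = f := by
    rw [← he1_gcd hc hd hd', ← he1_gcd hc hf hf', g3]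
  have e4 : d' = f' := by
    have t1 := he1_gcd hc.symm hd' hd
    have t2 := he1_gcd hc.symm hf' hf
    rw [← t1, ← t2, mul_comm d d', mul_comm f f', g3]
  subst e1 e2 e3 e4
  have g4 : (a' * b + b' * d) ≡ (a' * c + c' * d) [MOD (d' * d)] := g2
  have g5 : (a' * b + b' * d) ≡ (a' * c + c' * d) [MOD d] :=
    g4.of_mul_left d'
  have g6 : a' * b ≡ a' * c [MOD d] := by
    have t1 : a' * b + b' * d ≡ a' * b [MOD d] := by
      simp [Nat.ModEq]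
    have t2 : a' * c + c' * d ≡ a' * c [MOD d] := by
      simp [Nat.ModEq]
    exact t1.symm.trans (g5.trans t2)
  have hcop : Nat.gcd d a' = 1 :=
    Nat.Coprime.coprime_dvd_left hd (Nat.Coprime.coprime_dvd_right ha' hc)
  have g7 : b ≡ c [MOD d] := Nat.ModEq.cancel_left_of_coprime hcop g6
  have g8 : b = c := by
    have := g7
    rwa [Nat.ModEq, Nat.mod_eq_of_lt h2, Nat.mod_eq_of_lt k2] at this
  subst g8
  have g9 : b' * d ≡ c' * d [MOD (d' * d)] := Nat.ModEq.add_left_cancel' _ g4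
  have g10 : b' ≡ c' [MOD d'] := Nat.ModEq.mul_right_cancel' (by omega) g9
  have g11 : b' = c' := by
    rwa [Nat.ModEq, Nat.mod_eq_of_lt h4, Nat.mod_eq_of_lt k4] at g10
  subst g11
  rfl

theorem he1_card {n : ℕ} (hn : 0 < n) : ((HM n).card : ℂ) = ((∑ d ∈ n.divisors, d : ℕ) : ℂ) := by
  have h := hk_HM_sum hn (fun _ => 1)
  simp only [Finset.sum_const, Finset.card_range, nsmul_eq_mul, mul_one] at h
  rw [h]
  push_cast
  exact Nat.sum_div_divisors n (fun d => (d : ℂ))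

theorem he1_image {p q : ℕ} (hp : 0 < p) (hq : 0 < q) (hpq : p.Coprime q) :
    (HM (p ^ 2) ×ˢ HM (q ^ 2)).image he1_phi = HM ((p * q) ^ 2) := by
  refine Finset.eq_of_subset_of_card_le ?_ ?_
  · intro y hy
    obtain ⟨x, hx, rfl⟩ := Finset.mem_image.1 hy
    exact he1_mem hp hq hx
  · rw [Finset.card_image_of_injOn (he1_inj hp hq hpq), Finset.card_product]
    have hc : (p ^ 2).Coprime (q ^ 2) := Nat.Coprime.pow 2 2 hpq
    have h1 := he1_card (pow_pos hp 2)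
    have h2 := he1_card (pow_pos hq 2)
    have h3 := he1_card (pow_pos (Nat.mul_pos hp hq) 2)
    rw [mul_pow, Nat.Coprime.sum_divisors_mul hc] at h3
    have h4 : ((HM ((p * q) ^ 2)).card : ℂ) =
        (((HM (p ^ 2)).card * (HM (q ^ 2)).card : ℕ) : ℂ) := by
      push_cast at h1 h2 h3 ⊢
      rw [h1, h2, ← h3, mul_pow]
    have h5 : (HM ((p * q) ^ 2)).card = (HM (p ^ 2)).card * (HM (q ^ 2)).card := by
      exact_mod_cast h4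
    exact h5.le

theorem he1_hR {p q : ℕ} (hp : 0 < p) (hq : 0 < q) {t t' : ℕ × ℕ × ℕ} (ht : t ∈ HM (p ^ 2))
    (ht' : t' ∈ HM (q ^ 2)) {σ : SL(2, ℤ)}
    (h : hkd t' * hkd t = (σ : Matrix (Fin 2) (Fin 2) ℤ) * hkd (he1_phi (t, t'))) :
    hR q t' * hR p t = toR σ * hR (p * q) (he1_phi (t, t')) := by
  have hm := he1_mem hp hq (Finset.mem_product.2 ⟨ht, ht'⟩ : (t, t') ∈ HM (p ^ 2) ×ˢ HM (q ^ 2))
  apply Subtype.ext
  rw [Matrix.SpecialLinearGroup.coe_mul, Matrix.SpecialLinearGroup.coe_mul, hk_hR_coe hp ht,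
    hk_hR_coe hq ht', hk_hR_coe (Nat.mul_pos hp hq) hm]
  have h1 : (toR σ : Matrix (Fin 2) (Fin 2) ℝ) =
      (σ : Matrix (Fin 2) (Fin 2) ℤ).map (Int.castRingHom ℝ) := rfl
  rw [h1, Matrix.smul_mul, Matrix.mul_smul, Matrix.mul_smul, ← Matrix.map_mul, ← Matrix.map_mul, h,
    smul_smul]
  congr 1
  push_cast
  rw [mul_inv, mul_comm]

theorem he1_hQ {N p q : ℕ} (hp : 0 < p) (hq : 0 < q) (hpN : p.Coprime N) (hqN : q.Coprime N)
    {t t' : ℕ × ℕ × ℕ} (ht : t ∈ HM (p ^ 2))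
    (ht' : t' ∈ HM (q ^ 2)) {σ : SL(2, ℤ)}
    (h : hkd t' * hkd t = (σ : Matrix (Fin 2) (Fin 2) ℤ) * hkd (he1_phi (t, t'))) :
    hQ N q t' * hQ N p t = red N σ * hQ N (p * q) (he1_phi (t, t')) := by
  have hm := he1_mem hp hq (Finset.mem_product.2 ⟨ht, ht'⟩ : (t, t') ∈ HM (p ^ 2) ×ˢ HM (q ^ 2))
  have hpqN : (p * q).Coprime N := Nat.Coprime.mul_left hpN hqN
  apply Subtype.ext
  rw [Matrix.SpecialLinearGroup.coe_mul, Matrix.SpecialLinearGroup.coe_mul, hk_hQ_coe hp hpN ht,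
    hk_hQ_coe hq hqN ht', hk_hQ_coe (Nat.mul_pos hp hq) hpqN hm]
  have h1 : (red N σ : Matrix (Fin 2) (Fin 2) (ZMod N)) =
      (σ : Matrix (Fin 2) (Fin 2) ℤ).map (Int.castRingHom (ZMod N)) := rfl
  rw [h1, Matrix.smul_mul, Matrix.mul_smul, Matrix.mul_smul, ← Matrix.map_mul, ← Matrix.map_mul, h,
    smul_smul]
  congr 1
  have u1 := hk_unit (N := N) hpN
  have u2 := hk_unit (N := N) hqN
  have u3 := hk_unit (N := N) hpqN
  push_cast at u3 ⊢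
  calc (q : ZMod N)⁻¹ * (p : ZMod N)⁻¹ = (q : ZMod N)⁻¹ * (p : ZMod N)⁻¹ *
        ((p : ZMod N) * q * ((p : ZMod N) * q)⁻¹) := by rw [u3, mul_one]
    _ = ((p : ZMod N) * (p : ZMod N)⁻¹) * ((q : ZMod N) * (q : ZMod N)⁻¹) *
        ((p : ZMod N) * q)⁻¹ := by ring
    _ = ((p : ZMod N) * q)⁻¹ := by rw [u1, u2]; ring

/-- block HE1 -/
theorem Tm_Tm_ne_pr {N p q : ℕ} (hp : p.Prime) (hq : q.Prime) (hpq : p ≠ q) (hpN : ¬ p ∣ N)
    (hqN : ¬ q ∣ N) {F : QN N → SL(2, ℝ) → ℂ} (hF : Fam F) (s : QN N) (g : SL(2, ℝ)) :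
    Tm p (Tm q F) s g = Tm (p * q) F s g := by
  have hpc : p.Coprime N := (Nat.Prime.coprime_iff_not_dvd hp).2 hpN
  have hqc : q.Coprime N := (Nat.Prime.coprime_iff_not_dvd hq).2 hqN
  have hpqc : p.Coprime q := (Nat.coprime_primes hp hq).2 hpq
  have hp0 := hp.pos
  have hq0 := hq.pos
  unfold Tm
  rw [← Finset.mul_sum, ← mul_assoc, ← he1_image hp0 hq0 hpqc,
    Finset.sum_image (he1_inj hp0 hq0 hpqc), Finset.sum_product]
  congr 1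
  · push_cast
    rw [mul_inv]
  · refine Finset.sum_congr rfl fun t ht => Finset.sum_congr rfl fun t' ht' => ?_
    obtain ⟨σ, hσ⟩ := he1_sg t t'
    rw [← mul_assoc, ← mul_assoc, he1_hR hp0 hq0 ht ht' hσ, he1_hQ hp0 hq0 hpc hqc ht ht' hσ,
      mul_assoc, mul_assoc, hF]

theorem Tm_Tm_ne : type_of% @Tm_Tm_ne_pr := @Tm_Tm_ne_pr

end Pool.Agent.JO
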