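import Pool.Agent.Lib_helper68.JOH.Defs
import Pool.Agent.Lib_helper68.JOF.MIX
import Pool.Agent.Lib_helper32.JO.Stmt

/-!
# Project JO, part H, block HE2: `T_{p²} T_{p²} = T_{p⁴} + T_{p²} + 1`
-/

set_option autoImplicit false

namespace Pool.Agent.JO

open Complex MeasureTheory Filter Topology ModularGroup
open UpperHalfPlane hiding I
open scoped MatrixGroups Modular ComplexConjugate ENNReal

/-- the representative of the product -/
def he2_phi (x : (ℕ × ℕ × ℕ) × (ℕ × ℕ × ℕ)) : ℕ × ℕ × ℕ :=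
  (x.2.1 * x.1.1, (x.2.1 * x.1.2.1 + x.2.2.1 * x.1.2.2) % (x.2.2.2 * x.1.2.2),
    x.2.2.2 * x.1.2.2)

theorem he2_sg (t t' : ℕ × ℕ × ℕ) : ∃ σ : SL(2, ℤ),
    hkd t' * hkd t = (σ : Matrix (Fin 2) (Fin 2) ℤ) * hkd (he2_phi (t, t')) := by
  refine ⟨⟨!![1, (((t'.1 * t.2.1 + t'.2.1 * t.2.2) / (t'.2.2 * t.2.2) : ℕ) : ℤ); 0, 1],
    by simp⟩, ?_⟩
  have h := Nat.div_add_mod (t'.1 * t.2.1 + t'.2.1 * t.2.2) (t'.2.2 * t.2.2)
  have h' : ((t'.2.2 * t.2.2 : ℕ) : ℤ) *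
      (((t'.1 * t.2.1 + t'.2.1 * t.2.2) / (t'.2.2 * t.2.2) : ℕ) : ℤ) +
      (((t'.1 * t.2.1 + t'.2.1 * t.2.2) % (t'.2.2 * t.2.2) : ℕ) : ℤ) =
      ((t'.1 * t.2.1 + t'.2.1 * t.2.2 : ℕ) : ℤ) := by
    exact_mod_cast h
  ext i j
  fin_cases i <;> fin_cases j
  · simp [hkd, he2_phi, Matrix.mul_apply, Fin.sum_univ_two]
  · simp only [hkd, he2_phi, Matrix.mul_apply, Fin.sum_univ_two]
    simp only [Fin.zero_eta, Fin.mk_one, Matrix.of_apply, Matrix.cons_val', Matrix.cons_val_zero,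
      Matrix.cons_val_one, Matrix.cons_val_fin_one]
    push_cast at h' ⊢
    linear_combination (-1 : ℤ) * h'
  · simp [hkd, he2_phi, Matrix.mul_apply, Fin.sum_univ_two]
  · simp [hkd, he2_phi, Matrix.mul_apply, Fin.sum_univ_two]

theorem he2_mem {p q : ℕ} (hp : 0 < p) (hq : 0 < q) {x : (ℕ × ℕ × ℕ) × (ℕ × ℕ × ℕ)}
    (hx : x ∈ HM (p ^ 2) ×ˢ HM (q ^ 2)) : he2_phi x ∈ HM ((p * q) ^ 2) := by
  rw [Finset.mem_product, hk_mem_HM (pow_pos hp 2), hk_mem_HM (pow_pos hq 2)] at hx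
  obtain ⟨⟨h1, h2⟩, h3, h4⟩ := hx
  rw [hk_mem_HM (pow_pos (Nat.mul_pos hp hq) 2)]
  refine ⟨?_, Nat.mod_lt _ (Nat.mul_pos (by omega) (by omega))⟩
  show x.2.1 * x.1.1 * (x.2.2.2 * x.1.2.2) = (p * q) ^ 2
  calc x.2.1 * x.1.1 * (x.2.2.2 * x.1.2.2) = (x.1.1 * x.1.2.2) * (x.2.1 * x.2.2.2) := by ring
    _ = (p * q) ^ 2 := by rw [h1, h3]; ring

theorem he2_hR {p q : ℕ} (hp : 0 < p) (hq : 0 < q) {t t' : ℕ × ℕ × ℕ} (ht : t ∈ HM (p ^ 2))
    (ht' : t' ∈ HM (q ^ 2)) {σ : SL(2, ℤ)}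
    (h : hkd t' * hkd t = (σ : Matrix (Fin 2) (Fin 2) ℤ) * hkd (he2_phi (t, t'))) :
    hR q t' * hR p t = toR σ * hR (p * q) (he2_phi (t, t')) := by
  have hm := he2_mem hp hq (Finset.mem_product.2 ⟨ht, ht'⟩ : (t, t') ∈ HM (p ^ 2) ×ˢ HM (q ^ 2))
  apply Subtype.ext
  rw [Matrix.SpecialLinearGroup.coe_mul, Matrix.SpecialLinearGroup.coe_mul, hk_hR_coe hp ht,
    hk_hR_coe hq ht', hk_hR_coe (Nat.mul_pos hp hq) hm]
  have h1 : (toR σ : Matrix (Fin 2) (Fin 2) ℝ) =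
      (σ : Matrix (Fin 2) (Fin 2) ℤ).map (Int.castRingHom ℝ) := rfl
  rw [h1, Matrix.smul_mul, Matrix.mul_smul, Matrix.mul_smul, ← Matrix.map_mul, ← Matrix.map_mul, h,
    smul_smul]
  congr 1
  push_cast
  rw [mul_inv, mul_comm]

theorem he2_hQ {N p q : ℕ} (hp : 0 < p) (hq : 0 < q) (hpN : p.Coprime N) (hqN : q.Coprime N)
    {t t' : ℕ × ℕ × ℕ} (ht : t ∈ HM (p ^ 2))
    (ht' : t' ∈ HM (q ^ 2)) {σ : SL(2, ℤ)}
    (h : hkd t' * hkd t = (σ : Matrix (Fin 2) (Fin 2) ℤ) * hkd (he2_phi (t, t'))) :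
    hQ N q t' * hQ N p t = red N σ * hQ N (p * q) (he2_phi (t, t')) := by
  have hm := he2_mem hp hq (Finset.mem_product.2 ⟨ht, ht'⟩ : (t, t') ∈ HM (p ^ 2) ×ˢ HM (q ^ 2))
  have hpqN : (p * q).Coprime N := Nat.Coprime.mul_left hpN hqN
  apply Subtype.ext
  rw [Matrix.SpecialLinearGroup.coe_mul, Matrix.SpecialLinearGroup.coe_mul, hk_hQ_coe hp hpN ht,
    hk_hQ_coe hq hqN ht', hk_hQ_coe (Nat.mul_pos hp hq) hpqN hm]
  have h1 : (red N σ : Matrix (Fin 2) (Fin 2) (ZMod N)) =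
      (σ : Matrix (Fin 2) (Fin 2) ℤ).map (Int.castRingHom (ZMod N)) := rfl
  rw [h1, Matrix.smul_mul, Matrix.mul_smul, Matrix.mul_smul, ← Matrix.map_mul, ← Matrix.map_mul, h,
    smul_smul]
  congr 1
  have u1 := hk_unit (N := N) hpN
  have u2 := hk_unit (N := N) hqN
  have u3 := hk_unit (N := N) hpqN
  push_cast at u3 ⊢
  calc (q : ZMod N)⁻¹ * (p : ZMod N)⁻¹ = (q : ZMod N)⁻¹ * (p : ZMod N)⁻¹ *
        ((p : ZMod N) * q * ((p : ZMod N) * q)⁻¹) := by rw [u3, mul_one]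
    _ = ((p : ZMod N) * (p : ZMod N)⁻¹) * ((q : ZMod N) * (q : ZMod N)⁻¹) *
        ((p : ZMod N) * q)⁻¹ := by ring
    _ = ((p : ZMod N) * q)⁻¹ := by rw [u1, u2]; ring

theorem he2_shift {m : ℕ} (hm : 0 < m) (c : ℕ) (f : ℕ → ℂ) :
    ∑ b ∈ Finset.range m, f ((b + c) % m) = ∑ b ∈ Finset.range m, f b := by
  have hmaps : Set.MapsTo (fun b => (b + c) % m) (Finset.range m : Set ℕ) (Finset.range m : Set ℕ) := by
    intro b _
    simp only [Finset.coe_range, Set.mem_Iio]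
    exact Nat.mod_lt _ hm
  have hinj : Set.InjOn (fun b => (b + c) % m) (Finset.range m : Set ℕ) := by
    intro b hb b' hb' h
    simp only [Finset.coe_range, Set.mem_Iio] at hb hb'
    have h1 : b + c ≡ b' + c [MOD m] := h
    have h2 : b ≡ b' [MOD m] := Nat.ModEq.add_right_cancel' c h1
    rwa [Nat.ModEq, Nat.mod_eq_of_lt hb, Nat.mod_eq_of_lt hb'] at h2
  refine Finset.sum_nbij (fun b => (b + c) % m) (fun b hb => by
    exact Finset.mem_coe.1 (hmaps (Finset.mem_coe.2 hb))) hinj ?_ (fun _ _ => rfl)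
  exact Finset.surjOn_of_injOn_of_card_le _ hmaps hinj le_rfl

theorem he2_sum2 {p : ℕ} (hp : p.Prime) (g : ℕ × ℕ × ℕ → ℂ) :
    ∑ t ∈ HM (p ^ 2), g t = ∑ b ∈ Finset.range (p ^ 2), g (1, b, p ^ 2) +
      ∑ b ∈ Finset.range p, g (p, b, p) + g (p ^ 2, 0, 1) := by
  rw [hk_HM_sum (pow_pos hp.pos 2), Nat.sum_divisors_prime_pow hp]
  have e1 : p ^ 2 / p = p := by rw [sq, Nat.mul_div_cancel _ hp.pos]
  simp only [Finset.sum_range_succ (n := 2), Finset.sum_range_succ (n := 1),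
    Finset.sum_range_succ (n := 0), Finset.sum_range_zero, zero_add, pow_zero, pow_one,
    Nat.div_one, e1, Nat.div_self (pow_pos hp.pos 2)]

theorem he2_sum4 {p : ℕ} (hp : p.Prime) (g : ℕ × ℕ × ℕ → ℂ) :
    ∑ t ∈ HM ((p ^ 2) ^ 2), g t = ∑ b ∈ Finset.range (p ^ 4), g (1, b, p ^ 4) +
      ∑ b ∈ Finset.range (p ^ 3), g (p, b, p ^ 3) + ∑ b ∈ Finset.range (p ^ 2), g (p ^ 2, b, p ^ 2) +
      ∑ b ∈ Finset.range p, g (p ^ 3, b, p) + g (p ^ 4, 0, 1) := by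
  have e0 : (p ^ 2) ^ 2 = p ^ 4 := by ring
  rw [e0, hk_HM_sum (pow_pos hp.pos 4), Nat.sum_divisors_prime_pow hp]
  have e1 : p ^ 4 / p = p ^ 3 := Nat.div_eq_of_eq_mul_left hp.pos (by ring)
  have e2 : p ^ 4 / p ^ 2 = p ^ 2 := Nat.div_eq_of_eq_mul_left (pow_pos hp.pos 2) (by ring)
  have e3 : p ^ 4 / p ^ 3 = p := Nat.div_eq_of_eq_mul_left (pow_pos hp.pos 3) (by ring)
  simp only [Finset.sum_range_succ (n := 4), Finset.sum_range_succ (n := 3),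
    Finset.sum_range_succ (n := 2), Finset.sum_range_succ (n := 1),
    Finset.sum_range_succ (n := 0), Finset.sum_range_zero, zero_add, pow_zero, pow_one,
    Nat.div_one, e1, e2, e3, Nat.div_self (pow_pos hp.pos 4)]

/-- the products, counted with multiplicity -/
theorem he2_main {p : ℕ} (hp : p.Prime) (G : ℕ × ℕ × ℕ → ℂ) :
    ∑ t ∈ HM (p ^ 2), ∑ t' ∈ HM (p ^ 2), G (he2_phi (t, t')) =
      ∑ r ∈ HM ((p ^ 2) ^ 2), G r + p * ∑ r ∈ HM (p ^ 2), G (p * r.1, p * r.2.1, p * r.2.2) +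
        p ^ 2 * G (p ^ 2, 0, p ^ 2) := by
  have hp0 := hp.pos
  have hp2 : 0 < p ^ 2 := pow_pos hp0 2
  rw [he2_sum4 hp, he2_sum2 hp, he2_sum2 hp]
  simp only [he2_sum2 hp]
  -- the nine sums
  have h00 : ∑ b ∈ Finset.range (p ^ 2), ∑ b' ∈ Finset.range (p ^ 2),
      G (he2_phi ((1, b, p ^ 2), (1, b', p ^ 2))) = ∑ b ∈ Finset.range (p ^ 4), G (1, b, p ^ 4) := by
    have e : p ^ 4 = p ^ 2 * p ^ 2 := by ring
    rw [e, hk_sum_range_mul (p ^ 2) (fun x => G (1, x, p ^ 2 * p ^ 2)) (p ^ 2), Finset.sum_comm]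
    refine Finset.sum_congr rfl fun b' hb' => Finset.sum_congr rfl fun b hb => ?_
    rw [Finset.mem_range] at hb hb'
    have h1 : b + p ^ 2 * b' < p ^ 2 * p ^ 2 := by
      calc b + p ^ 2 * b' < p ^ 2 + p ^ 2 * b' := by omega
        _ = p ^ 2 * (b' + 1) := by ring
        _ ≤ p ^ 2 * p ^ 2 := Nat.mul_le_mul_left _ hb'
    unfold he2_phi
    simp only [one_mul]
    rw [mul_comm b' (p ^ 2), Nat.mod_eq_of_lt h1]
  have h01 : ∑ b ∈ Finset.range (p ^ 2), ∑ b' ∈ Finset.range p,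
      G (he2_phi ((1, b, p ^ 2), (p, b', p))) =
        p * ∑ b ∈ Finset.range (p ^ 2), G (p * 1, p * b, p * p ^ 2) := by
    rw [Finset.sum_comm]
    have : ∀ b' ∈ Finset.range p, ∑ b ∈ Finset.range (p ^ 2),
        G (he2_phi ((1, b, p ^ 2), (p, b', p))) =
        ∑ b ∈ Finset.range (p ^ 2), G (p * 1, p * b, p * p ^ 2) := by
      intro b' _
      rw [← he2_shift hp2 (b' * p) (fun x => G (p * 1, p * x, p * p ^ 2))]
      refine Finset.sum_congr rfl fun b _ => ?_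
      unfold he2_phi
      simp only
      have e : p * b + b' * p ^ 2 = p * (b + b' * p) := by ring
      rw [e, Nat.mul_mod_mul_left]
    rw [Finset.sum_congr rfl this, Finset.sum_const, Finset.card_range, nsmul_eq_mul]
  have h02 : ∑ b ∈ Finset.range (p ^ 2), G (he2_phi ((1, b, p ^ 2), (p ^ 2, 0, 1))) =
      p ^ 2 * G (p ^ 2, 0, p ^ 2) := by
    have : ∀ b ∈ Finset.range (p ^ 2), G (he2_phi ((1, b, p ^ 2), (p ^ 2, 0, 1))) =
        G (p ^ 2, 0, p ^ 2) := by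
      intro b _
      unfold he2_phi
      simp only [mul_one, one_mul, zero_mul, add_zero]
      rw [Nat.mul_mod_right]
    rw [Finset.sum_congr rfl this, Finset.sum_const, Finset.card_range, nsmul_eq_mul]
    push_cast
    ring
  have h10 : ∑ b ∈ Finset.range p, ∑ b' ∈ Finset.range (p ^ 2),
      G (he2_phi ((p, b, p), (1, b', p ^ 2))) = ∑ b ∈ Finset.range (p ^ 3), G (p, b, p ^ 3) := by
    have e : p ^ 3 = p * p ^ 2 := by ring
    rw [e, hk_sum_range_mul p (fun x => G (p, x, p * p ^ 2)) (p ^ 2), Finset.sum_comm]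
    refine Finset.sum_congr rfl fun b' hb' => Finset.sum_congr rfl fun b hb => ?_
    rw [Finset.mem_range] at hb hb'
    have h1 : b + p * b' < p * p ^ 2 := by
      calc b + p * b' < p + p * b' := by omega
        _ = p * (b' + 1) := by ring
        _ ≤ p * p ^ 2 := Nat.mul_le_mul_left _ hb'
    unfold he2_phi
    simp only [one_mul]
    rw [mul_comm b' p, mul_comm (p ^ 2) p, Nat.mod_eq_of_lt h1]
  have h11 : ∑ b ∈ Finset.range p, ∑ b' ∈ Finset.range p,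
      G (he2_phi ((p, b, p), (p, b', p))) =
        p * ∑ b ∈ Finset.range p, G (p * p, p * b, p * p) := by
    rw [Finset.sum_comm]
    have : ∀ b' ∈ Finset.range p, ∑ b ∈ Finset.range p,
        G (he2_phi ((p, b, p), (p, b', p))) =
        ∑ b ∈ Finset.range p, G (p * p, p * b, p * p) := by
      intro b' _
      rw [← he2_shift hp0 b' (fun x => G (p * p, p * x, p * p))]
      refine Finset.sum_congr rfl fun b _ => ?_
      unfold he2_phi
      simp only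
      have e : p * b + b' * p = p * (b + b') := by ring
      rw [e, Nat.mul_mod_mul_left]
    rw [Finset.sum_congr rfl this, Finset.sum_const, Finset.card_range, nsmul_eq_mul]
  have h12 : ∑ b ∈ Finset.range p, G (he2_phi ((p, b, p), (p ^ 2, 0, 1))) =
      p * G (p * p ^ 2, p * 0, p * 1) := by
    have : ∀ b ∈ Finset.range p, G (he2_phi ((p, b, p), (p ^ 2, 0, 1))) =
        G (p * p ^ 2, p * 0, p * 1) := by
      intro b _
      unfold he2_phi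
      simp only [mul_one, one_mul, zero_mul, add_zero, mul_zero]
      have e : p ^ 2 * b = p * (p * b) := by ring
      rw [e, Nat.mul_mod_right, mul_comm p (p ^ 2)]
    rw [Finset.sum_congr rfl this, Finset.sum_const, Finset.card_range, nsmul_eq_mul]
  have h20 : ∑ b' ∈ Finset.range (p ^ 2), G (he2_phi ((p ^ 2, 0, 1), (1, b', p ^ 2))) =
      ∑ b ∈ Finset.range (p ^ 2), G (p ^ 2, b, p ^ 2) := by
    refine Finset.sum_congr rfl fun b' hb' => ?_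
    rw [Finset.mem_range] at hb'
    unfold he2_phi
    simp only [mul_one, one_mul, mul_zero, zero_add]
    rw [Nat.mod_eq_of_lt hb']
  have h21 : ∑ b' ∈ Finset.range p, G (he2_phi ((p ^ 2, 0, 1), (p, b', p))) =
      ∑ b ∈ Finset.range p, G (p ^ 3, b, p) := by
    refine Finset.sum_congr rfl fun b' hb' => ?_
    rw [Finset.mem_range] at hb'
    unfold he2_phi
    simp only [mul_one, mul_zero, zero_add]
    rw [Nat.mod_eq_of_lt hb']
    congr 2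
    ring
  have h22 : G (he2_phi ((p ^ 2, 0, 1), (p ^ 2, 0, 1))) = G (p ^ 4, 0, 1) := by
    unfold he2_phi
    simp only [mul_one, mul_zero, zero_add, Nat.zero_mod]
    congr 2
    ring
  simp only [Finset.sum_add_distrib]
  rw [h00, h01, h02, h10, h11, h12, h20, h21, h22]
  ring

theorem he2_mem' {p : ℕ} (hp : 0 < p) {r : ℕ × ℕ × ℕ} (hr : r ∈ HM (p ^ 2)) :
    (p * r.1, p * r.2.1, p * r.2.2) ∈ HM ((p * p) ^ 2) := by
  rw [hk_mem_HM (pow_pos hp 2)] at hr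
  rw [hk_mem_HM (pow_pos (Nat.mul_pos hp hp) 2)]
  refine ⟨?_, Nat.mul_lt_mul_of_pos_left hr.2 hp⟩
  calc p * r.1 * (p * r.2.2) = p ^ 2 * (r.1 * r.2.2) := by ring
    _ = (p * p) ^ 2 := by rw [hr.1]; ring

theorem he2_hkd (p : ℕ) (r : ℕ × ℕ × ℕ) :
    hkd (p * r.1, p * r.2.1, p * r.2.2) = (p : ℤ) • hkd r := by
  ext i j
  fin_cases i <;> fin_cases j <;> simp [hkd]

theorem he2_hR' {p : ℕ} (hp : 0 < p) {r : ℕ × ℕ × ℕ} (hr : r ∈ HM (p ^ 2)) :
    hR (p * p) (p * r.1, p * r.2.1, p * r.2.2) = hR p r := by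
  apply Subtype.ext
  rw [hk_hR_coe (Nat.mul_pos hp hp) (he2_mem' hp hr), hk_hR_coe hp hr, he2_hkd]
  have hp' : (p : ℝ) ≠ 0 := by exact_mod_cast hp.ne'
  ext i j
  simp only [Matrix.smul_apply, Matrix.map_apply, smul_eq_mul, map_mul, eq_intCast, Int.cast_natCast]
  push_cast
  field_simp

theorem he2_hQ' {N p : ℕ} (hp : 0 < p) (hpN : p.Coprime N) {r : ℕ × ℕ × ℕ}
    (hr : r ∈ HM (p ^ 2)) : hQ N (p * p) (p * r.1, p * r.2.1, p * r.2.2) = hQ N p r := by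
  apply Subtype.ext
  rw [hk_hQ_coe (Nat.mul_pos hp hp) (Nat.Coprime.mul_left hpN hpN) (he2_mem' hp hr),
    hk_hQ_coe hp hpN hr, he2_hkd]
  have u1 := hk_unit (N := N) hpN
  have u3 := hk_unit (N := N) (Nat.Coprime.mul_left hpN hpN)
  have e : ((p * p : ℕ) : ZMod N)⁻¹ * (p : ZMod N) = (p : ZMod N)⁻¹ := by
    push_cast at u3 ⊢
    calc ((p : ZMod N) * p)⁻¹ * (p : ZMod N) =
          ((p : ZMod N) * (p : ZMod N)⁻¹) * (((p : ZMod N) * p)⁻¹ * (p : ZMod N)) := by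
          rw [u1, one_mul]
      _ = ((p : ZMod N) * p * ((p : ZMod N) * p)⁻¹) * (p : ZMod N)⁻¹ := by ring
      _ = (p : ZMod N)⁻¹ := by rw [u3, one_mul]
  ext i j
  simp only [Matrix.smul_apply, Matrix.map_apply, smul_eq_mul, map_mul, eq_intCast, Int.cast_natCast]
  rw [← mul_assoc, e]

theorem he2_one {p : ℕ} (hp : 0 < p) : (p * p, 0, p * p) ∈ HM ((p * p) ^ 2) := by
  rw [hk_mem_HM (pow_pos (Nat.mul_pos hp hp) 2)]
  exact ⟨by ring, Nat.mul_pos hp hp⟩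

theorem he2_hR1 {p : ℕ} (hp : 0 < p) : hR (p * p) (p * p, 0, p * p) = 1 := by
  apply Subtype.ext
  rw [hk_hR_coe (Nat.mul_pos hp hp) (he2_one hp)]
  have hp' : ((p * p : ℕ) : ℝ) ≠ 0 := by exact_mod_cast (Nat.mul_pos hp hp).ne'
  ext i j
  fin_cases i <;> fin_cases j
  · simp only [hkd, Matrix.smul_apply, Matrix.map_apply, smul_eq_mul]
    simpa using inv_mul_cancel₀ hp'
  · simp [hkd]
  · simp [hkd]
  · simp only [hkd, Matrix.smul_apply, Matrix.map_apply, smul_eq_mul]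
    simpa using inv_mul_cancel₀ hp'

theorem he2_hQ1 {N p : ℕ} (hp : 0 < p) (hpN : p.Coprime N) : hQ N (p * p) (p * p, 0, p * p) = 1 := by
  apply Subtype.ext
  rw [hk_hQ_coe (Nat.mul_pos hp hp) (Nat.Coprime.mul_left hpN hpN) (he2_one hp)]
  have u3 := hk_unit (N := N) (Nat.Coprime.mul_left hpN hpN)
  rw [mul_comm] at u3
  ext i j
  fin_cases i <;> fin_cases j
  · simp only [hkd, Matrix.smul_apply, Matrix.map_apply, smul_eq_mul]
    simpa using u3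
  · simp [hkd]
  · simp [hkd]
  · simp only [hkd, Matrix.smul_apply, Matrix.map_apply, smul_eq_mul]
    simpa using u3

/-- block HE2 -/
theorem Tm_Tm_eq_pr {N p : ℕ} (hp : p.Prime) (hpN : ¬ p ∣ N) {F : QN N → SL(2, ℝ) → ℂ} (hF : Fam F)
    (s : QN N) (g : SL(2, ℝ)) :
    Tm p (Tm p F) s g = Tm (p ^ 2) F s g + Tm p F s g + F s g := by
  have hpc : p.Coprime N := (Nat.Prime.coprime_iff_not_dvd hp).2 hpN
  have hp0 := hp.pos
  have hpC : (p : ℂ) ≠ 0 := by exact_mod_cast hp0.ne'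
  set G : ℕ × ℕ × ℕ → ℂ := fun r => F (hQ N (p * p) r * s) (hR (p * p) r * g) with hG
  have h1 : Tm p (Tm p F) s g = ((p : ℂ)⁻¹ * (p : ℂ)⁻¹) *
      ∑ t ∈ HM (p ^ 2), ∑ t' ∈ HM (p ^ 2), G (he2_phi (t, t')) := by
    unfold Tm
    rw [← Finset.mul_sum, ← mul_assoc]
    congr 1
    refine Finset.sum_congr rfl fun t ht => Finset.sum_congr rfl fun t' ht' => ?_
    obtain ⟨σ, hσ⟩ := he2_sg t t'
    rw [← mul_assoc, ← mul_assoc, he2_hR hp0 hp0 ht ht' hσ, he2_hQ hp0 hp0 hpc hpc ht ht' hσ,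
      mul_assoc, mul_assoc, hF]
  rw [h1, he2_main hp]
  have h2 : ∑ r ∈ HM (p ^ 2), G (p * r.1, p * r.2.1, p * r.2.2) =
      ∑ r ∈ HM (p ^ 2), F (hQ N p r * s) (hR p r * g) := by
    refine Finset.sum_congr rfl fun r hr => ?_
    simp only [hG]
    rw [he2_hR' hp0 hr, he2_hQ' hp0 hpc hr]
  have h3 : G (p ^ 2, 0, p ^ 2) = F s g := by
    simp only [hG, sq]
    rw [he2_hR1 hp0, he2_hQ1 hp0 hpc, one_mul, one_mul]
  rw [h2, h3]
  have h4 : Tm (p ^ 2) F s g = ((p : ℂ)⁻¹ * (p : ℂ)⁻¹) * ∑ r ∈ HM ((p ^ 2) ^ 2), G r := by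
    unfold Tm
    simp only [hG, sq]
    push_cast
    rw [mul_inv]
  rw [h4]
  unfold Tm
  field_simp


theorem Tm_Tm_eq : type_of% @Tm_Tm_eq_pr := @Tm_Tm_eq_pr

end Pool.Agent.JO
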