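import Pool.Agent.Lib_helper68.JOH.Defs
import Pool.Agent.Lib_helper68.JOF.MIX
import Pool.Agent.Lib_helper32.JO.Stmt
import Pool.Agent.Lib_helper68.JOHF.DEC
import Pool.Agent.Lib_helper68.JOHF.HE1
import Pool.Agent.Lib_helper68.JOHF.HE2

/-! Project JO, part H, block EIG: eigenvalues of the primitive Hecke operators. -/

set_option autoImplicit false

namespace Pool.Agent.JO

open Complex MeasureTheory Filter Topology ModularGroup
open UpperHalfPlane hiding I
open scoped MatrixGroups Modular ComplexConjugate ENNReal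

/-- the sum over the primitive representatives -/
noncomputable def eigP {N : ℕ} (F : QN N → SL(2, ℝ) → ℂ) (s : QN N) (g : SL(2, ℝ)) (n : ℕ) : ℂ :=
  ∑ t ∈ (HM (n ^ 2)).filter (fun t => hcont t = 1), F (hQ N n t * s) (hR n t * g)

/-- the decomposition of the Hecke operator by the content -/
theorem eig_dec {N m : ℕ} (hm : 0 < m) (hmN : m.Coprime N) (F : QN N → SL(2, ℝ) → ℂ) (s : QN N)
    (g : SL(2, ℝ)) : (m : ℂ) * Tm m F s g = ∑ e ∈ m.divisors, eigP F s g (m / e) := by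
  have hm' : (m : ℂ) ≠ 0 := by exact_mod_cast hm.ne'
  rw [Tm, ← mul_assoc, mul_inv_cancel₀ hm', one_mul]
  have h1 : ∀ t ∈ HM (m ^ 2), hcont t ∈ m.divisors := fun t ht =>
    Nat.mem_divisors.2 ⟨cont_dvd hm ht, hm.ne'⟩
  rw [← Finset.sum_fiberwise_of_maps_to h1]
  refine Finset.sum_congr rfl fun e he => ?_
  exact dec_sum hm hmN (Nat.mem_divisors.1 he).1 F s g

theorem eig_one {N : ℕ} (F : QN N → SL(2, ℝ) → ℂ) (s : QN N) (g : SL(2, ℝ)) :
    eigP F s g 1 = F s g := by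
  have h1 : (HM (1 ^ 2)).filter (fun t => hcont t = 1) = {(1, 0, 1)} := by
    ext t
    obtain ⟨a, b, d⟩ := t
    rw [Finset.mem_filter, hk_mem_HM (by norm_num), Finset.mem_singleton]
    constructor
    · rintro ⟨⟨h1, h2⟩, -⟩
      dsimp only at h1 h2
      rw [one_pow] at h1
      have ha := Nat.eq_one_of_mul_eq_one_right h1
      have hd := Nat.eq_one_of_mul_eq_one_left h1
      subst ha
      subst hd
      have hb : b = 0 := by omega
      rw [hb]
    · intro h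
      rw [Prod.mk.injEq, Prod.mk.injEq] at h
      obtain ⟨rfl, rfl, rfl⟩ := h
      simp [hcont]
  have ht : ((1, 0, 1) : ℕ × ℕ × ℕ) ∈ HM (1 ^ 2) := by
    rw [hk_mem_HM (by norm_num)]
    simp
  rw [eigP, h1, Finset.sum_singleton]
  have e1 : hQ N 1 (1, 0, 1) = 1 := by
    apply Subtype.ext
    rw [hk_hQ_coe one_pos (Nat.coprime_one_left N) ht]
    ext i j
    have h2 : ((1 : ℕ) : ZMod N)⁻¹ = 1 := by
      have := hk_unit (Nat.coprime_one_left N)
      rw [Nat.cast_one] at this ⊢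
      rwa [one_mul] at this
    rw [h2]
    fin_cases i <;> fin_cases j <;> simp [hkd]
  have e2 : hR 1 (1, 0, 1) = 1 := by
    apply Subtype.ext
    rw [hk_hR_coe one_pos ht]
    ext i j
    fin_cases i <;> fin_cases j <;> simp [hkd]
  rw [e1, e2, one_mul, one_mul]

theorem peig_one_pr {N : ℕ} (Φ : QN N → SL(2, ℝ) → ℂ) : PEig 1 Φ 1 := by
  intro s g
  have h := eig_one Φ s g
  rw [eigP] at h
  rw [h, Nat.cast_one, one_mul, one_mul]

theorem eig_prime {N p : ℕ} (hp : p.Prime) (hpN : ¬ p ∣ N) {Φ : QN N → SL(2, ℝ) → ℂ}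
    {μ : ℂ} (h : ∀ s g, Tm p Φ s g = μ * Φ s g) (s : QN N) (g : SL(2, ℝ)) :
    eigP Φ s g p = (p * μ - 1) * Φ s g := by
  have h1 := eig_dec hp.pos ((Nat.Prime.coprime_iff_not_dvd hp).2 hpN) Φ s g
  rw [hp.sum_divisors, Nat.div_self hp.pos, Nat.div_one, eig_one, h] at h1
  linear_combination -h1

theorem peig_p_pr {N p : ℕ} (hp : p.Prime) (hpN : ¬ p ∣ N) {Φ : QN N → SL(2, ℝ) → ℂ} (hF : Fam Φ)
    {μ : ℂ} (h : ∀ s g, Tm p Φ s g = μ * Φ s g) : PEig p Φ (μ - 1 / p) := by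
  intro s g
  have h1 := eig_prime hp hpN h s g
  have hp' : (p : ℂ) ≠ 0 := by exact_mod_cast hp.ne_zero
  rw [eigP] at h1
  rw [h1]
  field_simp

theorem eig_Tm_mul {N m : ℕ} (F : QN N → SL(2, ℝ) → ℂ) (c : ℂ) (s : QN N) (g : SL(2, ℝ)) :
    Tm m (fun s g => c * F s g) s g = c * Tm m F s g := by
  rw [Tm, Tm, ← Finset.mul_sum]
  ring

theorem peig_pq_pr {N p q : ℕ} (hp : p.Prime) (hq : q.Prime) (hpq : p ≠ q) (hpN : ¬ p ∣ N)
    (hqN : ¬ q ∣ N) {Φ : QN N → SL(2, ℝ) → ℂ} (hF : Fam Φ) {μ μ' : ℂ}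
    (h : ∀ s g, Tm p Φ s g = μ * Φ s g) (h' : ∀ s g, Tm q Φ s g = μ' * Φ s g) :
    PEig (p * q) Φ ((μ - 1 / p) * (μ' - 1 / q)) := by
  intro s g
  have hp' : (p : ℂ) ≠ 0 := by exact_mod_cast hp.ne_zero
  have hq' : (q : ℂ) ≠ 0 := by exact_mod_cast hq.ne_zero
  have hpq0 : 0 < p * q := Nat.mul_pos hp.pos hq.pos
  have hcop : (p * q).Coprime N := Nat.Coprime.mul_left
    ((Nat.Prime.coprime_iff_not_dvd hp).2 hpN) ((Nat.Prime.coprime_iff_not_dvd hq).2 hqN)
  have h1 := eig_dec hpq0 hcop Φ s g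
  have h2 : Tm q Φ = fun s g => μ' * Φ s g := by
    funext s g
    exact h' s g
  have h3 : Tm (p * q) Φ s g = μ' * (μ * Φ s g) := by
    rw [← Tm_Tm_ne hp hq hpq hpN hqN hF, h2, eig_Tm_mul, h]
  have hdiv : (p * q).divisors = {1, p, q, p * q} := by
    ext d
    rw [Nat.mem_divisors]
    simp only [Finset.mem_insert, Finset.mem_singleton]
    constructor
    · rintro ⟨hd, -⟩
      obtain ⟨a, b, ha, hb, rfl⟩ := Nat.dvd_mul.1 hd
      rcases (Nat.dvd_prime hp).1 ha with rfl | rfl <;> rcases (Nat.dvd_prime hq).1 hb with rfl | rfl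
      · left; rfl
      · right; right; left; rw [one_mul]
      · right; left; rw [mul_one]
      · right; right; right; rfl
    · intro hd
      refine ⟨?_, hpq0.ne'⟩
      rcases hd with rfl | rfl | rfl | rfl
      · exact one_dvd _
      · exact Dvd.intro _ rfl
      · exact Dvd.intro_left _ rfl
      · exact dvd_rfl
  have hp1 := hp.one_lt
  have hq1 := hq.one_lt
  have n1 : (1 : ℕ) ∉ ({p, q, p * q} : Finset ℕ) := by
    simp only [Finset.mem_insert, Finset.mem_singleton, not_or]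
    refine ⟨by omega, by omega, ?_⟩
    have : 1 < p * q := by nlinarith
    omega
  have n2 : p ∉ ({q, p * q} : Finset ℕ) := by
    simp only [Finset.mem_insert, Finset.mem_singleton, not_or]
    refine ⟨hpq, ?_⟩
    have : p < p * q := by nlinarith [hp.pos]
    omega
  have n3 : q ∉ ({p * q} : Finset ℕ) := by
    simp only [Finset.mem_singleton]
    have : q < p * q := by nlinarith [hq.pos]
    omega
  rw [hdiv, Finset.sum_insert n1, Finset.sum_insert n2, Finset.sum_insert n3,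
    Finset.sum_singleton, Nat.div_one, Nat.div_self hpq0, Nat.mul_div_cancel_left _ hp.pos,
    Nat.mul_div_cancel _ hq.pos, eig_one, eig_prime hp hpN h, eig_prime hq hqN h', h3] at h1
  have h4 : eigP Φ s g (p * q) = (p * q : ℕ) * ((μ - 1 / p) * (μ' - 1 / q)) * Φ s g := by
    push_cast at h1 ⊢
    field_simp
    linear_combination -h1
  rw [eigP] at h4
  exact h4

theorem peig_pp_pr {N p : ℕ} (hp : p.Prime) (hpN : ¬ p ∣ N) {Φ : QN N → SL(2, ℝ) → ℂ} (hF : Fam Φ)
    {μ : ℂ} (h : ∀ s g, Tm p Φ s g = μ * Φ s g) : PEig (p ^ 2) Φ (μ ^ 2 - μ - 1 - μ / p) := by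
  intro s g
  have hp' : (p : ℂ) ≠ 0 := by exact_mod_cast hp.ne_zero
  have hpp0 : 0 < p ^ 2 := pow_pos hp.pos 2
  have hcop : (p ^ 2).Coprime N := Nat.Coprime.pow_left 2 ((Nat.Prime.coprime_iff_not_dvd hp).2 hpN)
  have h1 := eig_dec hpp0 hcop Φ s g
  have h2 : Tm p Φ = fun s g => μ * Φ s g := by
    funext s g
    exact h s g
  have h3 : Tm (p ^ 2) Φ s g = (μ ^ 2 - μ - 1) * Φ s g := by
    have h4 := Tm_Tm_eq hp hpN hF s g
    rw [h2, eig_Tm_mul, h2] at h4
    linear_combination -h4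
  rw [Nat.divisors_prime_pow hp, Finset.sum_map, Finset.sum_range_succ, Finset.sum_range_succ,
    Finset.sum_range_one] at h1
  simp only [Function.Embedding.coeFn_mk, pow_zero, pow_one, Nat.div_one] at h1
  rw [Nat.div_self hpp0, pow_two, Nat.mul_div_cancel _ hp.pos, ← pow_two, eig_one,
    eig_prime hp hpN h, h3] at h1
  have h4 : eigP Φ s g (p ^ 2) = (p ^ 2 : ℕ) * (μ ^ 2 - μ - 1 - μ / p) * Φ s g := by
    push_cast at h1 ⊢
    field_simp
    linear_combination -h1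
  rw [eigP] at h4
  exact h4

theorem peig_one : type_of% @peig_one_pr := @peig_one_pr
theorem peig_p : type_of% @peig_p_pr := @peig_p_pr
theorem peig_pq : type_of% @peig_pq_pr := @peig_pq_pr
theorem peig_pp : type_of% @peig_pp_pr := @peig_pp_pr

end Pool.Agent.JO
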