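import Pool.Agent.Lib_helper68.JOH.Defs
import Pool.Agent.Lib_helper68.JOF.MIX
import Pool.Agent.Lib_helper32.JO.Stmt
import Pool.Agent.Lib_helper68.JOHF.BFM

/-! Project JO, part H, block RAD: the average over `w` -/

set_option autoImplicit false

namespace Pool.Agent.JO

open Complex MeasureTheory Filter Topology ModularGroup
open UpperHalfPlane hiding I
open scoped MatrixGroups Modular ComplexConjugate ENNReal

/-! ### the Iwasawa decomposition -/

theorem rad_angle {x y : ℝ} (h : x ^ 2 + y ^ 2 = 1) : ∃ θ : ℝ, Real.cos θ = x ∧ Real.sin θ = y := by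
  have h1 : ‖(⟨x, y⟩ : ℂ)‖ = 1 := by
    rw [Complex.norm_def, Complex.normSq_mk, Real.sqrt_eq_one]
    nlinarith
  have h0 : (⟨x, y⟩ : ℂ) ≠ 0 := by
    intro h0
    rw [h0, norm_zero] at h1
    exact zero_ne_one h1
  refine ⟨Complex.arg ⟨x, y⟩, ?_, ?_⟩
  · rw [Complex.cos_arg h0, h1, div_one]
  · rw [Complex.sin_arg, h1, div_one]

theorem rad_im (g : SL(2, ℝ)) : (g • UpperHalfPlane.I).im * (g 1 0 ^ 2 + g 1 1 ^ 2) = 1 ∧
    (g • UpperHalfPlane.I).re * (g 1 0 ^ 2 + g 1 1 ^ 2) = g 0 0 * g 1 0 + g 0 1 * g 1 1 := by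
  have h := hk_smul_coe g UpperHalfPlane.I
  have hne := hkj_ne g UpperHalfPlane.I
  have hdet : g 0 0 * g 1 1 - g 0 1 * g 1 0 = 1 := by
    have := g.det_coe
    rwa [Matrix.det_fin_two] at this
  rw [eq_div_iff hne, hkj, UpperHalfPlane.coe_I] at h
  have hz : ((g • UpperHalfPlane.I : ℍ) : ℂ) = ((g • UpperHalfPlane.I : ℍ).re : ℂ) +
      ((g • UpperHalfPlane.I : ℍ).im : ℂ) * I := by
    apply Complex.ext <;> simp
  rw [hz] at h
  set x := (g • UpperHalfPlane.I : ℍ).re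
  set y := (g • UpperHalfPlane.I : ℍ).im
  have hre := congrArg Complex.re h
  have him := congrArg Complex.im h
  simp at hre him
  constructor
  · linear_combination hdet + (g 1 1) * him - (g 1 0) * hre
  · linear_combination (g 1 0) * him + (g 1 1) * hre

theorem rad_iwa (g : SL(2, ℝ)) : ∃ b : ℝ, g = gg (g • UpperHalfPlane.I) 0 * kK b := by
  obtain ⟨h1, h2⟩ := rad_im g
  have hy := (g • UpperHalfPlane.I).im_pos
  set z : ℍ := g • UpperHalfPlane.I with hz
  have hs : √z.im * √z.im = z.im := Real.mul_self_sqrt hy.le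
  have hs0 : √z.im ≠ 0 := (Real.sqrt_pos.2 hy).ne'
  have hdet : g 0 0 * g 1 1 - g 0 1 * g 1 0 = 1 := by
    have := g.det_coe
    rwa [Matrix.det_fin_two] at this
  obtain ⟨b, hb1, hb2⟩ := rad_angle (x := g 1 1 * √z.im) (y := -(g 1 0 * √z.im)) (by
    calc (g 1 1 * √z.im) ^ 2 + (-(g 1 0 * √z.im)) ^ 2 =
        (√z.im * √z.im) * (g 1 0 ^ 2 + g 1 1 ^ 2) := by ring
      _ = 1 := by rw [hs, h1])
  refine ⟨b, ?_⟩
  rw [← gg_eq_mul_kK]
  have hN : 0 < g 1 0 ^ 2 + g 1 1 ^ 2 := by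
    by_contra hc
    have : g 1 0 ^ 2 + g 1 1 ^ 2 ≤ 0 := not_lt.1 hc
    nlinarith
  ext i j
  fin_cases i <;> fin_cases j
  · show g 0 0 = √z.im * Real.cos b - z.re * Real.sin b / √z.im
    rw [hb1, hb2]
    have e : √z.im * (g 1 1 * √z.im) - z.re * -(g 1 0 * √z.im) / √z.im =
        (√z.im * √z.im) * g 1 1 + z.re * g 1 0 := by
      field_simp
      ring
    rw [e, hs]
    refine mul_right_cancel₀ hN.ne' ?_
    linear_combination (-g 1 1) * h1 - g 1 0 * h2 + (g 1 1) * hdet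
  · show g 0 1 = √z.im * Real.sin b + z.re * Real.cos b / √z.im
    rw [hb1, hb2]
    have e : √z.im * -(g 1 0 * √z.im) + z.re * (g 1 1 * √z.im) / √z.im =
        -((√z.im * √z.im) * g 1 0) + z.re * g 1 1 := by
      field_simp
    rw [e, hs]
    refine mul_right_cancel₀ hN.ne' ?_
    linear_combination (g 1 0) * h1 - g 1 1 * h2 - (g 1 0) * hdet
  · show g 1 0 = -Real.sin b / √z.im
    rw [hb2]
    field_simp
  · show g 1 1 = Real.cos b / √z.im
    rw [hb1]
    field_simp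

/-! ### the invariant functions -/

section AFfun

variable {N k m : ℕ} {Φ : QN N → SL(2, ℝ) → ℂ}

theorem rad_AF [NeZero m] (hΦ : KF k Φ) (j : QQ N m) (g : SL(2, ℝ)) :
    Φ (hQ N m j.1.1 * j.2) (hR m j.1.1 * g) * conj (Φ j.2 g) = AF m Φ j (g • UpperHalfPlane.I) := by
  obtain ⟨b, hb⟩ := rad_iwa g
  set z := g • UpperHalfPlane.I with hz
  unfold AF
  rw [hb, ← mul_assoc, hΦ.typ, hΦ.typ, map_mul]
  have h1 : cexp (k * b * I) * conj (cexp (k * b * I)) = 1 := by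
    have h2 : ‖cexp (k * b * I)‖ = 1 := by
      have := Complex.norm_exp_ofReal_mul_I (k * b)
      push_cast at this
      exact this
    rw [Complex.mul_conj, Complex.normSq_eq_norm_sq, h2]
    simp
  linear_combination (Φ (hQ N m j.1.1 * j.2) (hR m j.1.1 * gg z 0) * conj (Φ j.2 (gg z 0))) * h1

theorem rad_AF_cont [NeZero m] (hΦ : KF k Φ) (j : QQ N m) : Continuous (AF m Φ j) := by
  have h0 : Continuous fun z : ℍ => gg z 0 :=
    hk_continuous_gg.comp (continuous_id.prodMk continuous_const)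
  unfold AF
  refine Continuous.mul ?_ (Complex.continuous_conj.comp ((hΦ.cts _).comp h0))
  exact (hΦ.cts _).comp (continuous_const.mul h0)

theorem rad_AF_le [NeZero m] (hΦ : KF k Φ) (j : QQ N m) (z : ℍ) : ‖AF m Φ j z‖ ≤ 1 := by
  unfold AF
  rw [norm_mul, RCLike.norm_conj]
  calc _ ≤ (1 : ℝ) * 1 := mul_le_mul (hΦ.bdd _ _) (hΦ.bdd _ _) (norm_nonneg _) zero_le_one
    _ = 1 := one_mul 1

end AFfun

/-! ### invariance of the measure -/

theorem rad_smul_GL (g : SL(2, ℝ)) (z : ℍ) :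
    g • z = (Matrix.SpecialLinearGroup.toGL g : GL (Fin 2) ℝ) • z := rfl

theorem rad_mp (g : SL(2, ℝ)) : MeasurePreserving (fun z : ℍ => g • z) := by
  have h := measurePreserving_smul (Matrix.SpecialLinearGroup.toGL g : GL (Fin 2) ℝ)
    (volume : Measure ℍ)
  exact h

theorem rad_me (g : SL(2, ℝ)) : MeasurableEmbedding (fun z : ℍ => g • z) := by
  have hm : ∀ g : SL(2, ℝ), Measurable (fun z : ℍ => g • z) := fun g => (rad_mp g).measurable
  exact (MeasurableEquiv.mk (MulAction.toPerm g : Equiv.Perm ℍ) (hm g) (hm g⁻¹)).measurableEmbedding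

theorem rad_dist (g : SL(2, ℝ)) (z w : ℍ) : dist (g • z) (g • w) = dist z w := dist_smul g z w

theorem rad_subst (g : SL(2, ℝ)) (β : ℝ → ℝ) (X : ℝ) (f : ℍ → ℂ) :
    ∫ w : ℍ, (β (Real.cosh (dist UpperHalfPlane.I w) / X) : ℂ) * f (g • w) =
      ∫ w : ℍ, (β (Real.cosh (dist (g • UpperHalfPlane.I) w) / X) : ℂ) * f w := by
  rw [← (rad_mp g).integral_comp (rad_me g)
    (fun w => (β (Real.cosh (dist (g • UpperHalfPlane.I) w) / X) : ℂ) * f w)]
  refine integral_congr_ae (Eventually.of_forall fun w => ?_)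
  show (β (Real.cosh (dist UpperHalfPlane.I w) / X) : ℂ) * f (g • w) =
    (β (Real.cosh (dist (g • UpperHalfPlane.I) (g • w)) / X) : ℂ) * f (g • w)
  rw [rad_dist]

/-! ### the double integral -/

theorem rad_ip {N k m : ℕ} [NeZero N] [NeZero m] {Φ : QN N → SL(2, ℝ) → ℂ} (hΦ : KF k Φ) (w : ℍ)
    (s : QN N) (p : ℍ × ℝ) :
    Tm m (Psi Φ w) s (gg p.1 p.2) * conj (Psi Φ w s (gg p.1 p.2)) =
      (m : ℂ)⁻¹ * ∑ t : ↥(HM (m ^ 2)), AF m Φ (t, s) p.1 *
        conj (AF m Φ (t, s) (gg p.1 p.2 • w)) := by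
  unfold Tm
  rw [mul_assoc, Finset.sum_mul, ← Finset.sum_coe_sort]
  congr 1
  refine Finset.sum_congr rfl fun t _ => ?_
  have h1 := rad_AF hΦ ((t, s) : QQ N m) (gg p.1 p.2)
  have h2 := rad_AF hΦ ((t, s) : QQ N m) (gg p.1 p.2 * gg w 0)
  rw [gg_smul_I] at h1
  rw [mul_smul, gg_smul_I] at h2
  rw [← h1, ← h2]
  unfold Psi
  rw [map_mul, map_mul, Complex.conj_conj, mul_assoc (hR m t.1)]
  ring

theorem meas_w_pr {N k m : ℕ} [NeZero N] {Φ : QN N → SL(2, ℝ) → ℂ} (hΦ : KF k Φ) (hm : 0 < m)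
    (hmN : m.Coprime N) : Measurable (fun w : ℍ => ip (Tm m (Psi Φ w)) (Psi Φ w)) ∧
      ∃ B : ℝ, ∀ w : ℍ, ‖ip (Tm m (Psi Φ w)) (Psi Φ w)‖ ≤ B := by
  have hfin : IsFiniteMeasure muG := ⟨muG_lt_top⟩
  have : NeZero m := ⟨hm.ne'⟩
  have hcont : ∀ s : QN N, Continuous (fun q : ℍ × (ℍ × ℝ) =>
      Tm m (Psi Φ q.1) s (gg q.2.1 q.2.2) * conj (Psi Φ q.1 s (gg q.2.1 q.2.2))) := by
    intro s
    have e : (fun q : ℍ × (ℍ × ℝ) =>
      Tm m (Psi Φ q.1) s (gg q.2.1 q.2.2) * conj (Psi Φ q.1 s (gg q.2.1 q.2.2))) =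
      fun q : ℍ × (ℍ × ℝ) => (m : ℂ)⁻¹ * ∑ t : ↥(HM (m ^ 2)), AF m Φ ((t, s) : QQ N m) q.2.1 *
        conj (AF m Φ ((t, s) : QQ N m) (gg q.2.1 q.2.2 • q.1)) := by
      funext q
      exact rad_ip hΦ q.1 s q.2
    rw [e]
    refine continuous_const.mul (continuous_finsetSum _ fun t _ => ?_)
    refine ((rad_AF_cont hΦ _).comp (continuous_fst.comp continuous_snd)).mul
      (Complex.continuous_conj.comp ((rad_AF_cont hΦ _).comp ?_))
    exact (hk_continuous_gg.comp continuous_snd).smul continuous_fst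
  constructor
  · unfold ip
    refine Finset.measurable_sum _ fun s _ => ?_
    have h1 : StronglyMeasurable (Function.uncurry (fun (w : ℍ) (p : ℍ × ℝ) =>
        Tm m (Psi Φ w) s (gg p.1 p.2) * conj (Psi Φ w s (gg p.1 p.2)))) :=
      (hcont s).stronglyMeasurable
    exact (h1.integral_prod_right).measurable
  · refine ⟨∑ s : QN N, (‖(m : ℂ)⁻¹‖ * Fintype.card ↥(HM (m ^ 2))) * (muG Set.univ).toReal,
      fun w => ?_⟩
    unfold ip
    refine (norm_sum_le _ _).trans (Finset.sum_le_sum fun s _ => ?_)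
    refine norm_integral_le_of_norm_le_const (Eventually.of_forall fun p => ?_)
    rw [rad_ip hΦ, norm_mul]
    refine mul_le_mul_of_nonneg_left ?_ (norm_nonneg _)
    refine (norm_sum_le _ _).trans ?_
    refine (Finset.sum_le_sum (g := fun _ => (1 : ℝ)) fun t _ => ?_).trans ?_
    · rw [norm_mul, RCLike.norm_conj]
      calc _ ≤ (1 : ℝ) * 1 :=
          mul_le_mul (rad_AF_le hΦ _ _) (rad_AF_le hΦ _ _) (norm_nonneg _) zero_le_one
        _ = 1 := one_mul 1
    · rw [Finset.sum_const, Finset.card_univ, nsmul_eq_mul, mul_one]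

theorem rad_one {N k m : ℕ} [NeZero N] [NeZero m] {Φ : QN N → SL(2, ℝ) → ℂ} (hΦ : KF k Φ)
    {β : ℝ → ℝ} {Λ κ : ℝ} (hβ : JOM.Tst β Λ κ) {X : ℝ} (hX : 1 ≤ X)
    (j : QQ N m) :
    Integrable (Function.uncurry fun (w : ℍ) (p : ℍ × ℝ) =>
      (β (Real.cosh (dist UpperHalfPlane.I w) / X) : ℂ) *
        (AF m Φ j p.1 * conj (AF m Φ j (gg p.1 p.2 • w)))) (volume.prod muG) ∧
    ∫ w : ℍ, ∫ p : ℍ × ℝ, (β (Real.cosh (dist UpperHalfPlane.I w) / X) : ℂ) *
        (AF m Φ j p.1 * conj (AF m Φ j (gg p.1 p.2 • w))) ∂muG =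
      2 * Real.pi * ∫ z in 𝒟ᵒ, AF m Φ j z *
        conj (∫ w : ℍ, (β (Real.cosh (dist z w) / X) : ℂ) * AF m Φ j w) := by
  have hfin : IsFiniteMeasure muG := ⟨muG_lt_top⟩
  obtain ⟨C₀, hC₀, hker⟩ := JOM.kernel_int hβ
  have hβc : Continuous β := by
    have h : LipschitzWith (Real.toNNReal Λ) β := by
      refine LipschitzWith.of_dist_le_mul fun s t => ?_
      rw [Real.dist_eq, Real.dist_eq, Real.coe_toNNReal Λ hβ.1]
      exact hβ.2.2.1 s t
    exact h.continuous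
  have hint : Integrable (Function.uncurry fun (w : ℍ) (p : ℍ × ℝ) =>
      (β (Real.cosh (dist UpperHalfPlane.I w) / X) : ℂ) *
        (AF m Φ j p.1 * conj (AF m Φ j (gg p.1 p.2 • w)))) (volume.prod muG) := by
    have h1 : Integrable (fun q : ℍ × (ℍ × ℝ) =>
        |β (Real.cosh (dist UpperHalfPlane.I q.1) / X)|) (volume.prod muG) :=
      ((hker X UpperHalfPlane.I hX).1.abs).comp_fst muG
    refine h1.mono' ?_ (Eventually.of_forall fun q => ?_)
    · have hc : Continuous (Function.uncurry fun (w : ℍ) (p : ℍ × ℝ) =>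
          (β (Real.cosh (dist UpperHalfPlane.I w) / X) : ℂ) *
            (AF m Φ j p.1 * conj (AF m Φ j (gg p.1 p.2 • w)))) := by
        refine Continuous.mul ?_ (Continuous.mul ?_ ?_)
        · refine Complex.continuous_ofReal.comp (hβc.comp ?_)
          exact (Real.continuous_cosh.comp (continuous_const.dist continuous_fst)).div_const _
        · exact (rad_AF_cont hΦ _).comp (continuous_fst.comp continuous_snd)
        · refine Complex.continuous_conj.comp ((rad_AF_cont hΦ _).comp ?_)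
          exact (hk_continuous_gg.comp continuous_snd).smul continuous_fst
      exact hc.aestronglyMeasurable
    · obtain ⟨w, p⟩ := q
      show ‖(β (Real.cosh (dist UpperHalfPlane.I w) / X) : ℂ) *
            (AF m Φ j p.1 * conj (AF m Φ j (gg p.1 p.2 • w)))‖ ≤
          |β (Real.cosh (dist UpperHalfPlane.I w) / X)|
      rw [norm_mul, norm_mul, RCLike.norm_conj, Complex.norm_real, Real.norm_eq_abs]
      have h2 := rad_AF_le hΦ j p.1
      have h3 := rad_AF_le hΦ j (gg p.1 p.2 • w)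
      calc _ ≤ |β (Real.cosh (dist UpperHalfPlane.I w) / X)| * (1 * 1) :=
            mul_le_mul_of_nonneg_left (mul_le_mul h2 h3 (norm_nonneg _) zero_le_one) (abs_nonneg _)
        _ = _ := by ring
  refine ⟨hint, ?_⟩
  rw [integral_integral_swap hint]
  have h2 : ∀ p : ℍ × ℝ, ∫ w : ℍ, (β (Real.cosh (dist UpperHalfPlane.I w) / X) : ℂ) *
        (AF m Φ j p.1 * conj (AF m Φ j (gg p.1 p.2 • w))) = AF m Φ j p.1 *
        conj (∫ w : ℍ, (β (Real.cosh (dist p.1 w) / X) : ℂ) * AF m Φ j w) := by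
    intro p
    have e1 : ∀ w : ℍ, (β (Real.cosh (dist UpperHalfPlane.I w) / X) : ℂ) *
        (AF m Φ j p.1 * conj (AF m Φ j (gg p.1 p.2 • w))) =
        AF m Φ j p.1 * conj ((β (Real.cosh (dist UpperHalfPlane.I w) / X) : ℂ) *
          AF m Φ j (gg p.1 p.2 • w)) := by
      intro w
      rw [map_mul, Complex.conj_ofReal]
      ring
    simp_rw [e1]
    rw [integral_const_mul, integral_conj, rad_subst (gg p.1 p.2) β X (AF m Φ j), gg_smul_I]
  simp_rw [h2]
  have h3 : ∀ f : ℍ → ℂ, ∫ p : ℍ × ℝ, f p.1 ∂muG = 2 * Real.pi * ∫ z in 𝒟ᵒ, f z := by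
    intro f
    unfold muG
    rw [integral_fun_fst]
    rw [Measure.real, Measure.restrict_apply_univ, Real.volume_Ioc, sub_zero,
      ENNReal.toReal_ofReal (by positivity)]
    rw [Complex.real_smul]
    push_cast
    rfl
  exact h3 (fun z => AF m Φ j z * conj (∫ w : ℍ, (β (Real.cosh (dist z w) / X) : ℂ) * AF m Φ j w))

theorem rad_avg_pr {N k m : ℕ} [NeZero N] [NeZero m] {Φ : QN N → SL(2, ℝ) → ℂ} (hΦ : KF k Φ)
    (hmN : m.Coprime N) {β : ℝ → ℝ} {Λ κ : ℝ} (hβ : JOM.Tst β Λ κ) {X : ℝ} (hX : 1 ≤ X) :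
    ∫ w : ℍ, (β (Real.cosh (dist UpperHalfPlane.I w) / X) : ℂ) *
        ip (Tm m (Psi Φ w)) (Psi Φ w) =
      2 * Real.pi / m * ∑ j : QQ N m, ∫ z in 𝒟ᵒ, AF m Φ j z *
        conj (∫ w : ℍ, (β (Real.cosh (dist z w) / X) : ℂ) * AF m Φ j w) := by
  have hfin : IsFiniteMeasure muG := ⟨muG_lt_top⟩
  -- integrability in `p`
  have hip : ∀ (w : ℍ) (s : QN N) (t : ↥(HM (m ^ 2))), Integrable (fun p : ℍ × ℝ =>
      AF m Φ ((t, s) : QQ N m) p.1 * conj (AF m Φ ((t, s) : QQ N m) (gg p.1 p.2 • w))) muG := by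
    intro w s t
    refine Integrable.of_bound (C := 1 * 1) ?_ (Eventually.of_forall fun p => ?_)
    · have hc : Continuous (fun p : ℍ × ℝ =>
        AF m Φ ((t, s) : QQ N m) p.1 * conj (AF m Φ ((t, s) : QQ N m) (gg p.1 p.2 • w))) := by
        refine ((rad_AF_cont hΦ _).comp continuous_fst).mul
          (Complex.continuous_conj.comp ((rad_AF_cont hΦ _).comp ?_))
        exact hk_continuous_gg.smul continuous_const
      exact hc.aestronglyMeasurable
    · rw [norm_mul, RCLike.norm_conj]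
      exact mul_le_mul (rad_AF_le hΦ _ _) (rad_AF_le hΦ _ _) (norm_nonneg _) zero_le_one
  have e1 : ∀ w : ℍ, (β (Real.cosh (dist UpperHalfPlane.I w) / X) : ℂ) *
        ip (Tm m (Psi Φ w)) (Psi Φ w) = (m : ℂ)⁻¹ * ∑ j : QQ N m, ∫ p : ℍ × ℝ,
        (β (Real.cosh (dist UpperHalfPlane.I w) / X) : ℂ) *
        (AF m Φ j p.1 * conj (AF m Φ j (gg p.1 p.2 • w))) ∂muG := by
    intro w
    unfold ip
    have e2 : ∀ s : QN N, ∫ p : ℍ × ℝ, Tm m (Psi Φ w) s (gg p.1 p.2) *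
        conj (Psi Φ w s (gg p.1 p.2)) ∂muG = (m : ℂ)⁻¹ * ∑ t : ↥(HM (m ^ 2)), ∫ p : ℍ × ℝ,
          AF m Φ ((t, s) : QQ N m) p.1 * conj (AF m Φ ((t, s) : QQ N m) (gg p.1 p.2 • w)) ∂muG := by
      intro s
      rw [← integral_finsetSum _ (fun t _ => hip w s t), ← integral_const_mul]
      exact integral_congr_ae (Eventually.of_forall fun p => rad_ip hΦ w s p)
    simp_rw [e2]
    rw [← Finset.mul_sum, mul_left_comm]
    congr 1
    rw [Finset.sum_comm, Finset.mul_sum]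
    have e3 : ∀ F : QQ N m → ℂ, ∑ j : QQ N m, F j = ∑ t : ↥(HM (m ^ 2)), ∑ s : QN N, F (t, s) :=
      fun F => Fintype.sum_prod_type _
    rw [e3]
    refine Finset.sum_congr rfl fun t _ => ?_
    rw [Finset.mul_sum]
    refine Finset.sum_congr rfl fun s _ => ?_
    rw [integral_const_mul]
  simp_rw [e1]
  rw [integral_const_mul, integral_finsetSum]
  · rw [div_eq_mul_inv, mul_comm (2 * (Real.pi : ℂ)), mul_assoc, Finset.mul_sum (a := 2 * _)]
    congr 1
    exact Finset.sum_congr rfl fun j _ => (rad_one hΦ hβ hX j).2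
  · intro j _
    exact (rad_one hΦ hβ hX j).1.integral_prod_left

theorem meas_w : type_of% @meas_w_pr := @meas_w_pr
theorem rad_avg : type_of% @rad_avg_pr := @rad_avg_pr

end Pool.Agent.JO
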