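import Pool.Agent.Lib_helper68.JOH.Defs
import Pool.Agent.Lib_helper68.JOF.MIX
import Pool.Agent.Lib_helper32.JO.Stmt

/-! Project JO, part H, block TRV (helper44): the action on the index set, equivariance. -/

set_option autoImplicit false

namespace Pool.Agent.JO

open Complex MeasureTheory Filter Topology ModularGroup
open UpperHalfPlane hiding I
open scoped MatrixGroups Modular ComplexConjugate ENNReal

/-! ### the stabiliser of `i` -/

theorem trv_fix (g : SL(2, ℝ)) (h : g • UpperHalfPlane.I = UpperHalfPlane.I) :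
    ∃ a : ℝ, g = kK a := by
  have h1 := hk_smul_coe g UpperHalfPlane.I
  have hne := hkj_ne g UpperHalfPlane.I
  rw [h, eq_div_iff hne, hkj, UpperHalfPlane.coe_I] at h1
  have hre := congrArg Complex.re h1
  have him := congrArg Complex.im h1
  simp only [Complex.mul_re, Complex.mul_im, Complex.add_re, Complex.add_im, Complex.I_re,
    Complex.I_im, Complex.ofReal_re, Complex.ofReal_im] at hre him
  have e1 : g 0 1 = -g 1 0 := by linarith
  have e2 : g 0 0 = g 1 1 := by linarith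
  have hdet : g 0 0 * g 1 1 - g 0 1 * g 1 0 = 1 := by
    have := g.2
    rw [Matrix.det_fin_two] at this
    exact this
  have hn : g 0 0 ^ 2 + g 0 1 ^ 2 = 1 := by
    rw [e1] at hdet ⊢
    rw [← e2] at hdet
    linarith
  set w : ℂ := ((g 0 0 : ℝ) : ℂ) + ((g 0 1 : ℝ) : ℂ) * I with hw
  have hwre : w.re = g 0 0 := by simp [hw]
  have hwim : w.im = g 0 1 := by simp [hw]
  have hnorm : ‖w‖ = 1 := by
    have : ‖w‖ ^ 2 = 1 := by
      rw [← Complex.normSq_eq_norm_sq, Complex.normSq_apply, hwre, hwim]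
      linarith
    nlinarith [norm_nonneg w]
  have hw0 : w ≠ 0 := by
    intro h0
    rw [h0, norm_zero] at hnorm
    exact zero_ne_one hnorm
  have hc : Real.cos (Complex.arg w) = g 0 0 := by
    rw [Complex.cos_arg hw0, hnorm, hwre, div_one]
  have hs : Real.sin (Complex.arg w) = g 0 1 := by
    rw [Complex.sin_arg, hnorm, hwim, div_one]
  refine ⟨Complex.arg w, ?_⟩
  ext i j
  fin_cases i <;> fin_cases j
  · exact hc.symm
  · exact hs.symm
  · change g 1 0 = -Real.sin (Complex.arg w)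
    rw [hs, e1, neg_neg]
  · change g 1 1 = Real.cos (Complex.arg w)
    rw [hc, e2]

theorem trv_gg (g : SL(2, ℝ)) (z : ℍ) : ∃ a : ℝ, gg (g • z) 0 = g * gg z 0 * kK a := by
  have h : ((g * gg z 0)⁻¹ * gg (g • z) 0) • UpperHalfPlane.I = UpperHalfPlane.I := by
    rw [mul_smul, gg_smul_I, mul_inv_rev, mul_smul, inv_smul_smul, inv_smul_eq_iff, gg_smul_I]
  obtain ⟨a, ha⟩ := trv_fix _ h
  refine ⟨a, ?_⟩
  rw [← ha, mul_inv_cancel_left]

/-! ### `Γ(N m²)` acts trivially -/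

theorem trv_div {n : ℕ} (γ : SL(2, ℤ)) (h : JOM.red n γ = 1) : ∃ E : Matrix (Fin 2) (Fin 2) ℤ,
    (γ : Matrix (Fin 2) (Fin 2) ℤ) = 1 + (n : ℤ) • E := by
  have h1 : ∀ i j, (n : ℤ) ∣ γ i j - (1 : Matrix (Fin 2) (Fin 2) ℤ) i j := by
    intro i j
    have h2 : ((γ i j : ℤ) : ZMod n) = (1 : Matrix (Fin 2) (Fin 2) (ZMod n)) i j := by
      have h3 := congrArg (fun M : SL(2, ZMod n) => (M : Matrix (Fin 2) (Fin 2) (ZMod n)) i j) h
      exact h3
    have h4 : (((γ i j - (1 : Matrix (Fin 2) (Fin 2) ℤ) i j : ℤ)) : ZMod n) = 0 := by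
      rw [Int.cast_sub, h2]
      by_cases hij : i = j
      · subst hij; simp
      · rw [Matrix.one_apply_ne hij, Matrix.one_apply_ne hij]; simp
    rwa [ZMod.intCast_zmod_eq_zero_iff_dvd] at h4
  choose E hE using h1
  refine ⟨Matrix.of E, ?_⟩
  ext i j
  have := hE i j
  rw [Matrix.add_apply, Matrix.smul_apply, Matrix.of_apply, smul_eq_mul, ← this]
  ring

theorem trv_sigma {N m : ℕ} (hm : 0 < m) (A : Matrix (Fin 2) (Fin 2) ℤ) (hA : A.det = (m ^ 2 : ℕ))
    (γ : SL(2, ℤ)) (h : JOM.red (N * m ^ 2) γ = 1) :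
    ∃ σ : SL(2, ℤ), A * (γ : Matrix (Fin 2) (Fin 2) ℤ) = (σ : Matrix (Fin 2) (Fin 2) ℤ) * A := by
  obtain ⟨E, hE⟩ := trv_div γ h
  set S : Matrix (Fin 2) (Fin 2) ℤ := 1 + (N : ℤ) • (A * E * A.adjugate) with hS
  have h1 : S * A = A * (γ : Matrix (Fin 2) (Fin 2) ℤ) := by
    rw [hS, hE, Matrix.add_mul, Matrix.one_mul, Matrix.mul_add, Matrix.mul_one, Matrix.smul_mul,
      Matrix.mul_assoc, Matrix.adjugate_mul, hA, Matrix.mul_smul, Matrix.mul_smul, Matrix.mul_one,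
      smul_smul]
    push_cast
    rfl
  have h2 : S.det = 1 := by
    have h3 := congrArg Matrix.det h1
    rw [Matrix.det_mul, Matrix.det_mul, Matrix.SpecialLinearGroup.det_coe, mul_one] at h3
    have h4 : A.det ≠ 0 := by
      rw [hA]
      exact_mod_cast (pow_pos hm 2).ne'
    exact mul_right_cancel₀ h4 (by rw [h3, one_mul])
  exact ⟨⟨S, h2⟩, h1.symm⟩

/-- block TRV: `Γ(N m²)` acts trivially -/
theorem qq_triv_pr {N m : ℕ} [NeZero m] (γ : SL(2, ℤ)) (h : JOM.red (N * m ^ 2) γ = 1)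
    (j : QQ N m) : γ • j = j := by
  have hm : 0 < m := Nat.pos_of_ne_zero (NeZero.ne m)
  have hinv : JOM.red (N * m ^ 2) γ⁻¹ = 1 := by rw [map_inv, h, inv_one]
  refine Prod.ext ?_ ?_
  · rw [qsmul_fst, hsmul_def]
    obtain ⟨σ, hσ⟩ := trv_sigma hm (hkd j.1.1) (hh_det (hh_sq_pos m) j.1.2) γ⁻¹ hinv
    exact hact_eq hσ
  · rw [qsmul_snd]
    have h1 : red N γ = 1 := by
      obtain ⟨E, hE⟩ := trv_div γ h
      ext i j
      rw [hk_red_apply, hE, Matrix.add_apply, Matrix.smul_apply, smul_eq_mul]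
      push_cast
      rw [ZMod.natCast_self, zero_mul, zero_mul, add_zero]
      by_cases hij : i = j
      · subst hij; simp
      · rw [Matrix.one_apply_ne hij, Matrix.SpecialLinearGroup.coe_one, Matrix.one_apply_ne hij]
        simp
    rw [h1, one_mul]

/-! ### equivariance -/

theorem trv_cexp (k : ℕ) (a : ℝ) : cexp (k * a * I) * conj (cexp (k * a * I)) = 1 := by
  rw [Complex.mul_conj, Complex.normSq_eq_norm_sq]
  have h : ((k : ℂ) * a * I) = (((k : ℝ) * a : ℝ) : ℂ) * I := by push_cast; ring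
  rw [h, Complex.norm_exp_ofReal_mul_I]
  simp

/-- block TRV: equivariance -/
theorem af_equi_pr {N k m : ℕ} [NeZero m] {Φ : QN N → SL(2, ℝ) → ℂ} (hΦ : KF k Φ)
    (hmN : m.Coprime N) (γ : SL(2, ℤ)) (j : QQ N m) (z : ℍ) :
    AF m Φ (γ • j) (γ • z) = AF m Φ j z := by
  have hm : 0 < m := Nat.pos_of_ne_zero (NeZero.ne m)
  obtain ⟨a, ha⟩ := trv_gg (toR γ) z
  rw [hk_toR_smul] at ha
  obtain ⟨σ, hσ⟩ := hact_spec m γ j.1
  have hσ' : hkd (hact m γ j.1).1 * (γ : Matrix (Fin 2) (Fin 2) ℤ) =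
      ((σ⁻¹ : SL(2, ℤ)) : Matrix (Fin 2) (Fin 2) ℤ) * hkd j.1.1 := by
    have h1 : (σ : Matrix (Fin 2) (Fin 2) ℤ) * hkd (hact m γ j.1).1 *
        (γ : Matrix (Fin 2) (Fin 2) ℤ) = hkd j.1.1 := by
      rw [← hσ, Matrix.mul_assoc, ← Matrix.SpecialLinearGroup.coe_mul, inv_mul_cancel,
        Matrix.SpecialLinearGroup.coe_one, Matrix.mul_one]
    rw [← h1, ← Matrix.mul_assoc, ← Matrix.mul_assoc, ← Matrix.SpecialLinearGroup.coe_mul,
      inv_mul_cancel, Matrix.SpecialLinearGroup.coe_one, Matrix.one_mul]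
  have e1 := hk_hR_mul hm (hact m γ j.1).2 j.1.2 hσ'
  have e2 := hk_hQ_mul hm hmN (hact m γ j.1).2 j.1.2 hσ'
  rw [AF, AF, qsmul_fst, qsmul_snd, hsmul_def, ha, hΦ.typ, ← mul_assoc, e2, mul_assoc]
  have f1 : hR m (hact m γ j.1).1 * (toR γ * gg z 0 * kK a) =
      toR σ⁻¹ * (hR m j.1.1 * gg z 0) * kK a := by
    rw [mul_assoc (toR γ), ← mul_assoc (hR m (hact m γ j.1).1), e1]
    simp only [mul_assoc]
  rw [f1, hΦ.typ, hΦ.fam, hΦ.fam, map_mul]
  have h2 := trv_cexp k a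
  calc cexp (k * a * I) * Φ (hQ N m j.1.1 * j.2) (hR m j.1.1 * gg z 0) *
        (conj (cexp (k * a * I)) * conj (Φ j.2 (gg z 0)))
      = (cexp (k * a * I) * conj (cexp (k * a * I))) *
        (Φ (hQ N m j.1.1 * j.2) (hR m j.1.1 * gg z 0) * conj (Φ j.2 (gg z 0))) := by ring
    _ = _ := by rw [h2, one_mul]

/-- block TRV: the hypotheses of the mixing theorem -/
theorem af_fam_pr {N k m : ℕ} [NeZero m] {Φ : QN N → SL(2, ℝ) → ℂ} (hΦ : KF k Φ)
    (hmN : m.Coprime N) : JOM.Fam (N * m ^ 2) (QQ N m) (AF m Φ) where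
  triv g hg j := qq_triv_pr g hg j
  meas j := by
    have h0 : Continuous fun z : ℍ => gg z 0 :=
      hk_continuous_gg.comp (continuous_id.prodMk continuous_const)
    have h1 : Continuous fun z : ℍ => Φ (hQ N m j.1.1 * j.2) (hR m j.1.1 * gg z 0) :=
      (hΦ.cts _).comp (continuous_const.mul h0)
    have h2 : Continuous fun z : ℍ => conj (Φ j.2 (gg z 0)) :=
      Complex.continuous_conj.comp ((hΦ.cts _).comp h0)
    exact (h1.mul h2).measurable
  bdd j z := by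
    rw [AF, norm_mul, RCLike.norm_conj]
    exact mul_le_one₀ (hΦ.bdd _ _) (norm_nonneg _) (hΦ.bdd _ _)
  equi g j z := af_equi_pr hΦ hmN g j z

theorem qq_triv : type_of% @qq_triv_pr := @qq_triv_pr
theorem af_equi : type_of% @af_equi_pr := @af_equi_pr
theorem af_fam : type_of% @af_fam_pr := @af_fam_pr

end Pool.Agent.JO
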