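import Pool.Agent.Lib_helper68.JOH.Defs
import Pool.Agent.Lib_helper68.JOF.MIX
import Pool.Agent.Lib_helper32.JO.Stmt
import Pool.Agent.Lib_helper68.JOHF.TRV
import Pool.Agent.Lib_helper68.JOHF.RAD
import Pool.Agent.Lib_helper68.JOHF.AVG

/-! Block MBD: one Hecke operator. -/

set_option autoImplicit false

namespace Pool.Agent.JO

open Complex MeasureTheory Filter Topology ModularGroup
open UpperHalfPlane hiding I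
open scoped MatrixGroups Modular ComplexConjugate ENNReal

theorem mbd_card (N m : ℕ) [NeZero N] (hm : 0 < m) :
    (Fintype.card (QQ N m) : ℝ) ≤ 8 * (m : ℝ) ^ 6 * Fintype.card (QN N) := by
  have h1 : Fintype.card (QQ N m) = (HM (m ^ 2)).card * Fintype.card (QN N) := by
    show Fintype.card (↥(HM (m ^ 2)) × QN N) = _
    rw [Fintype.card_prod, Fintype.card_coe]
  have h2 : (HM (m ^ 2)).card ≤ (m ^ 2 + 1) * ((m ^ 2 + 1) * (m ^ 2 + 1)) := by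
    refine (Finset.card_filter_le _ _).trans ?_
    rw [Finset.card_product, Finset.card_product, Finset.card_range]
  have h3 : ((HM (m ^ 2)).card : ℝ) ≤ 8 * (m : ℝ) ^ 6 := by
    have hm1 : (1 : ℝ) ≤ m := by exact_mod_cast hm
    have h4 : (m : ℝ) ^ 2 + 1 ≤ 2 * (m : ℝ) ^ 2 := by nlinarith
    calc ((HM (m ^ 2)).card : ℝ) ≤ ((m ^ 2 + 1) * ((m ^ 2 + 1) * (m ^ 2 + 1)) : ℕ) := by
          exact_mod_cast h2
      _ = ((m : ℝ) ^ 2 + 1) ^ 3 := by push_cast; ring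
      _ ≤ (2 * (m : ℝ) ^ 2) ^ 3 := by gcongr
      _ = _ := by ring
  rw [h1]
  push_cast
  gcongr

theorem one_op_pr {N : ℕ} [NeZero N] {β : ℝ → ℝ} {Λ κ : ℝ} (hβ : JOM.Tst β Λ κ) :
    ∃ C δ : ℝ, 0 < C ∧ 0 < δ ∧ ∀ (k m : ℕ) (Φ : QN N → SL(2, ℝ) → ℂ) (ν : ℕ → ℂ) (X : ℝ), 0 < m →
      KF k Φ → m.Coprime N → (∀ d ∈ m.divisors, PEig d Φ (ν d)) → 1 ≤ X →
      ‖∫ w : ℍ, (β (Real.cosh (dist UpperHalfPlane.I w) / X) : ℂ) *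
        ip (Tm m (Psi Φ w)) (Psi Φ w)‖ ≤
      C * (X / m * ∑ d ∈ m.divisors, ‖ν d‖ ^ 2 + (m : ℝ) ^ C * X ^ (1 - δ)) := by
  obtain ⟨C₀, δ, hC₀, hδ, hmix⟩ := JOM.mixing hβ
  obtain ⟨C₁, hC₁, havg⟩ := avg_bound (N := N)
  obtain ⟨c, hc⟩ : ∃ c : ℝ, c = Real.pi ^ 2 * JOM.kk 1 * (∫ t in (0 : ℝ)..κ, β t) := ⟨_, rfl⟩
  obtain ⟨q, hq⟩ : ∃ q : ℝ, q = Fintype.card (QN N) := ⟨_, rfl⟩
  have hq0 : 0 ≤ q := by rw [hq]; positivity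
  have hpi := Real.pi_pos
  have hNC : 0 ≤ (N : ℝ) ^ C₀ := by positivity
  refine ⟨2 * Real.pi * (|c| * C₁) + 2 * Real.pi * (8 * C₀ * q * (N : ℝ) ^ C₀) + (6 + 2 * C₀), δ,
    by positivity, hδ, ?_⟩
  intro k m Φ ν X hm hΦ hmN hν hX
  obtain ⟨C, hC⟩ : ∃ C, C = 2 * Real.pi * (|c| * C₁) + 2 * Real.pi * (8 * C₀ * q * (N : ℝ) ^ C₀) +
    (6 + 2 * C₀) := ⟨_, rfl⟩
  rw [← hC]
  haveI : NeZero m := ⟨hm.ne'⟩
  have hm1 : (1 : ℝ) ≤ m := by exact_mod_cast hm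
  have hm0 : (0 : ℝ) < m := by linarith
  have hX0 : 0 < X := by linarith
  have hfam := af_fam hΦ hmN
  have hN : 0 < N * m ^ 2 := Nat.mul_pos (Nat.pos_of_ne_zero (NeZero.ne N)) (pow_pos hm 2)
  have h1 := hmix (N * m ^ 2) (QQ N m) (AF m Φ) (AF m Φ) X hN hfam hfam hX
  have h2 := havg k m Φ ν hΦ hmN hν
  rw [rad_avg hΦ hmN hβ hX, norm_mul]
  obtain ⟨U, hU⟩ : ∃ U : ℂ, U = ∑ j : QQ N m, ∫ z in 𝒟ᵒ, AF m Φ j z *
    conj (∫ w : ℍ, (β (Real.cosh (dist z w) / X) : ℂ) * AF m Φ j w) := ⟨_, rfl⟩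
  obtain ⟨V, hV⟩ : ∃ V : ℂ, V = ∑ j : QQ N m, (∫ z in 𝒟ᵒ, AF m Φ j z) *
    conj (JOM.oavg (AF m Φ) j) := ⟨_, rfl⟩
  rw [← hU] at h1 ⊢
  rw [← hV] at h1 h2
  obtain ⟨Sg, hSg⟩ : ∃ Sg : ℝ, Sg = ∑ d ∈ m.divisors, ‖ν d‖ ^ 2 := ⟨_, rfl⟩
  rw [← hSg] at h2 ⊢
  have hSg0 : 0 ≤ Sg := by rw [hSg]; positivity
  have hfac : ‖(2 * Real.pi / m : ℂ)‖ = 2 * Real.pi / m := by
    rw [norm_div, norm_mul, Complex.norm_real, Complex.norm_natCast, Complex.norm_ofNat,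
      Real.norm_of_nonneg hpi.le]
  rw [hfac]
  have hcard := mbd_card N m hm
  rw [← hq] at hcard
  have hXδ : 0 < X ^ (1 - δ) := by positivity
  have hUb : ‖U‖ ≤ |c| * X * (C₁ * Sg) +
      C₀ * (8 * (m : ℝ) ^ 6 * q) * ((N : ℝ) ^ C₀ * (m : ℝ) ^ (2 * C₀)) * X ^ (1 - δ) := by
    have e1 : ‖U‖ ≤ ‖U - ((Real.pi ^ 2 * JOM.kk 1 * (∫ t in (0 : ℝ)..κ, β t) * X : ℝ) : ℂ) * V‖ +
        ‖((Real.pi ^ 2 * JOM.kk 1 * (∫ t in (0 : ℝ)..κ, β t) * X : ℝ) : ℂ) * V‖ := by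
      have := norm_add_le (U - ((Real.pi ^ 2 * JOM.kk 1 * (∫ t in (0 : ℝ)..κ, β t) * X : ℝ) : ℂ) * V)
        (((Real.pi ^ 2 * JOM.kk 1 * (∫ t in (0 : ℝ)..κ, β t) * X : ℝ) : ℂ) * V)
      rwa [sub_add_cancel] at this
    have e2 : ‖((Real.pi ^ 2 * JOM.kk 1 * (∫ t in (0 : ℝ)..κ, β t) * X : ℝ) : ℂ) * V‖ ≤
        |c| * X * (C₁ * Sg) := by
      rw [norm_mul, Complex.norm_real, Real.norm_eq_abs, ← hc, abs_mul, abs_of_pos hX0]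
      gcongr
    have e3 : (((N * m ^ 2 : ℕ) : ℝ)) ^ C₀ = (N : ℝ) ^ C₀ * (m : ℝ) ^ (2 * C₀) := by
      push_cast
      rw [Real.mul_rpow (by positivity) (by positivity)]
      congr 1
      rw [← Real.rpow_natCast (m : ℝ) 2, ← Real.rpow_mul hm0.le]
      norm_num
    have e4 : C₀ * (Fintype.card (QQ N m) : ℝ) * (((N * m ^ 2 : ℕ) : ℝ)) ^ C₀ * X ^ (1 - δ) ≤
        C₀ * (8 * (m : ℝ) ^ 6 * q) * ((N : ℝ) ^ C₀ * (m : ℝ) ^ (2 * C₀)) * X ^ (1 - δ) := by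
      rw [e3]
      gcongr
    calc ‖U‖ ≤ _ := e1
      _ ≤ C₀ * (Fintype.card (QQ N m) : ℝ) * (((N * m ^ 2 : ℕ) : ℝ)) ^ C₀ * X ^ (1 - δ) +
          |c| * X * (C₁ * Sg) := add_le_add h1 e2
      _ ≤ _ := by rw [add_comm]; gcongr
  have hpow : (m : ℝ) ^ 6 * (m : ℝ) ^ (2 * C₀) ≤ (m : ℝ) ^ C := by
    rw [← Real.rpow_natCast (m : ℝ) 6, ← Real.rpow_add hm0]
    apply Real.rpow_le_rpow_of_exponent_le hm1
    rw [hC]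
    push_cast
    have : 0 ≤ 2 * Real.pi * (|c| * C₁) + 2 * Real.pi * (8 * C₀ * q * (N : ℝ) ^ C₀) := by positivity
    linarith
  have k1 : 2 * Real.pi / m * (|c| * X * (C₁ * Sg)) = 2 * Real.pi * (|c| * C₁) * (X / m * Sg) := by
    field_simp
  have k2 : 2 * Real.pi / m * (C₀ * (8 * (m : ℝ) ^ 6 * q) * ((N : ℝ) ^ C₀ * (m : ℝ) ^ (2 * C₀)) *
      X ^ (1 - δ)) ≤ 2 * Real.pi * (8 * C₀ * q * (N : ℝ) ^ C₀) * ((m : ℝ) ^ C * X ^ (1 - δ)) := by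
    have k3 : 2 * Real.pi / m ≤ 2 * Real.pi := div_le_self (by positivity) hm1
    calc _ ≤ 2 * Real.pi * (C₀ * (8 * (m : ℝ) ^ 6 * q) * ((N : ℝ) ^ C₀ * (m : ℝ) ^ (2 * C₀)) *
          X ^ (1 - δ)) := by gcongr
      _ = 2 * Real.pi * (8 * C₀ * q * (N : ℝ) ^ C₀) *
          (((m : ℝ) ^ 6 * (m : ℝ) ^ (2 * C₀)) * X ^ (1 - δ)) := by ring
      _ ≤ _ := by gcongr
  have hA : 0 ≤ X / m * Sg := by positivity
  have hB : 0 ≤ (m : ℝ) ^ C * X ^ (1 - δ) := by positivity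
  calc 2 * Real.pi / m * ‖U‖ ≤ 2 * Real.pi / m * (|c| * X * (C₁ * Sg) +
        C₀ * (8 * (m : ℝ) ^ 6 * q) * ((N : ℝ) ^ C₀ * (m : ℝ) ^ (2 * C₀)) * X ^ (1 - δ)) := by gcongr
    _ ≤ 2 * Real.pi * (|c| * C₁) * (X / m * Sg) +
        2 * Real.pi * (8 * C₀ * q * (N : ℝ) ^ C₀) * ((m : ℝ) ^ C * X ^ (1 - δ)) := by
        rw [mul_add, k1]; gcongr
    _ ≤ C * (X / m * Sg) + C * ((m : ℝ) ^ C * X ^ (1 - δ)) := by
        have c1 : 2 * Real.pi * (|c| * C₁) ≤ C := by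
          rw [hC]
          have : 0 ≤ 2 * Real.pi * (8 * C₀ * q * (N : ℝ) ^ C₀) + (6 + 2 * C₀) := by positivity
          linarith
        have c2 : 2 * Real.pi * (8 * C₀ * q * (N : ℝ) ^ C₀) ≤ C := by
          rw [hC]
          have : 0 ≤ 2 * Real.pi * (|c| * C₁) + (6 + 2 * C₀) := by positivity
          linarith
        exact add_le_add (mul_le_mul_of_nonneg_right c1 hA) (mul_le_mul_of_nonneg_right c2 hB)
    _ = _ := by ring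

theorem one_op : type_of% @one_op_pr := @one_op_pr

end Pool.Agent.JO
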