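import Pool.Agent.Lib_helper68.JOH.Defs
import Pool.Agent.Lib_helper68.JOF.MIX
import Pool.Agent.Lib_helper32.JO.Stmt
import Pool.Agent.Lib_helper68.JOHF.BFM
import Pool.Agent.Lib_helper68.GL2.RSA

/-! Project JO, part H, block SAD (helper44): the Hecke operators are self-adjoint. -/

set_option autoImplicit false

namespace Pool.Agent.JO

open Complex MeasureTheory Filter Topology ModularGroup
open UpperHalfPlane hiding I
open scoped MatrixGroups Modular ComplexConjugate ENNReal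

/-! ### the coordinates -/

theorem sad_fix (g : SL(2, ℝ)) (h : g • UpperHalfPlane.I = UpperHalfPlane.I) :
    ∃ a : ℝ, g = kK a := by
  have h1 := hk_smul_coe g UpperHalfPlane.I
  have hne := hkj_ne g UpperHalfPlane.I
  rw [h, eq_div_iff hne, hkj, UpperHalfPlane.coe_I] at h1
  have hre := congrArg Complex.re h1
  have him := congrArg Complex.im h1
  simp only [Complex.mul_re, Complex.mul_im, Complex.add_re, Complex.add_im, Complex.I_re,
    Complex.I_im, Complex.ofReal_re, Complex.ofReal_im] at hre him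
  have e1 : g 0 1 = -g 1 0 := by linarith
  have e2 : g 0 0 = g 1 1 := by linarith
  have hdet : g 0 0 * g 1 1 - g 0 1 * g 1 0 = 1 := by
    have := g.2
    rw [Matrix.det_fin_two] at this
    exact this
  have hn : g 0 0 ^ 2 + g 0 1 ^ 2 = 1 := by
    rw [e1] at hdet ⊢
    rw [← e2] at hdet
    linarith
  set w : ℂ := ((g 0 0 : ℝ) : ℂ) + ((g 0 1 : ℝ) : ℂ) * I with hw
  have hwre : w.re = g 0 0 := by simp [hw]
  have hwim : w.im = g 0 1 := by simp [hw]
  have hnorm : ‖w‖ = 1 := by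
    have : ‖w‖ ^ 2 = 1 := by
      rw [← Complex.normSq_eq_norm_sq, Complex.normSq_apply, hwre, hwim]
      linarith
    nlinarith [norm_nonneg w]
  have hw0 : w ≠ 0 := by
    intro h0
    rw [h0, norm_zero] at hnorm
    exact zero_ne_one hnorm
  have hc : Real.cos (Complex.arg w) = g 0 0 := by
    rw [Complex.cos_arg hw0, hnorm, hwre, div_one]
  have hs : Real.sin (Complex.arg w) = g 0 1 := by
    rw [Complex.sin_arg, hnorm, hwim, div_one]
  refine ⟨Complex.arg w, ?_⟩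
  ext i j
  fin_cases i <;> fin_cases j
  · exact hc.symm
  · exact hs.symm
  · change g 1 0 = -Real.sin (Complex.arg w)
    rw [hs, e1, neg_neg]
  · change g 1 1 = Real.cos (Complex.arg w)
    rw [hc, e2]

theorem sad_kK (a b : ℝ) : kK a * kK b = kK (a + b) := by
  ext i j
  rw [Matrix.SpecialLinearGroup.coe_mul, Matrix.mul_apply, Fin.sum_univ_two]
  fin_cases i <;> fin_cases j
  · change Real.cos a * Real.cos b + Real.sin a * -Real.sin b = Real.cos (a + b)
    rw [Real.cos_add]; ring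
  · change Real.cos a * Real.sin b + Real.sin a * Real.cos b = Real.sin (a + b)
    rw [Real.sin_add]; ring
  · change -Real.sin a * Real.cos b + Real.cos a * -Real.sin b = -Real.sin (a + b)
    rw [Real.sin_add]; ring
  · change -Real.sin a * Real.sin b + Real.cos a * Real.cos b = Real.cos (a + b)
    rw [Real.cos_add]; ring

theorem sad_kK0 : kK 0 = 1 := by
  ext i j
  fin_cases i <;> fin_cases j
  · change Real.cos 0 = 1
    exact Real.cos_zero
  · change Real.sin 0 = 0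
    exact Real.sin_zero
  · change -Real.sin 0 = 0
    rw [Real.sin_zero, neg_zero]
  · change Real.cos 0 = 1
    exact Real.cos_zero

theorem sad_mul (g : SL(2, ℝ)) (z : ℍ) : ∃ b : ℝ, ∀ a : ℝ, g * gg z a = gg (g • z) (a + b) := by
  have h : ((g * gg z 0)⁻¹ * gg (g • z) 0) • UpperHalfPlane.I = UpperHalfPlane.I := by
    rw [mul_smul, gg_smul_I, mul_inv_rev, mul_smul, inv_smul_smul, inv_smul_eq_iff, gg_smul_I]
  obtain ⟨b, hb⟩ := sad_fix _ h
  refine ⟨-b, fun a => ?_⟩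
  have h1 : gg (g • z) 0 = g * gg z 0 * kK b := by rw [← hb, mul_inv_cancel_left]
  rw [gg_eq_mul_kK z a, gg_eq_mul_kK (g • z) (a + -b), h1, mul_assoc (g * gg z 0), sad_kK,
    show b + (a + -b) = a by ring, mul_assoc]

theorem sad_per (z : ℍ) (a : ℝ) : gg z (a + 2 * Real.pi) = gg z a := by
  apply Subtype.ext
  simp only [gg, Real.cos_add_two_pi, Real.sin_add_two_pi]

/-! ### the measure on the group -/

local instance sad_ms : MeasurableSpace SL(2, ℝ) := borel _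

local instance sad_bs : BorelSpace SL(2, ℝ) := ⟨rfl⟩

noncomputable def sad_nu : Measure (ℍ × ℝ) :=
  (volume : Measure ℍ).prod (volume.restrict (Set.Ioc 0 (2 * Real.pi)))

noncomputable def sad_mu : Measure SL(2, ℝ) := sad_nu.map (fun p => gg p.1 p.2)

theorem sad_gg_meas : Measurable (fun p : ℍ × ℝ => gg p.1 p.2) := hk_continuous_gg.measurable

theorem sad_left_meas (h : SL(2, ℝ)) : Measurable (fun g : SL(2, ℝ) => h * g) :=
  (continuous_const.mul continuous_id).measurable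

theorem sad_shift (f : ℝ → ℝ≥0∞) (hf : Function.Periodic f (2 * Real.pi)) (hfm : Measurable f)
    (b : ℝ) : ∫⁻ a in Set.Ioc 0 (2 * Real.pi), f (a + b) =
      ∫⁻ a in Set.Ioc 0 (2 * Real.pi), f a := by
  have h1 : ∫⁻ a in Set.Ioc 0 (2 * Real.pi), f (a + b) =
      ∫⁻ a in Set.Ioc b (b + 2 * Real.pi), f a := by
    have h2 := (measurePreserving_add_right (volume : Measure ℝ) b).setLIntegral_comp_preimage
      (s := Set.Ioc b (b + 2 * Real.pi)) measurableSet_Ioc hfm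
    rw [← h2]
    congr 2
    ext a
    simp only [Set.mem_Ioc, Set.mem_preimage]
    constructor <;> rintro ⟨h3, h4⟩ <;> constructor <;> linarith
  rw [h1]
  have h5 := isAddFundamentalDomain_Ioc Real.two_pi_pos b (volume : Measure ℝ)
  have h6 := isAddFundamentalDomain_Ioc Real.two_pi_pos 0 (volume : Measure ℝ)
  rw [zero_add] at h6
  refine h5.setLIntegral_eq h6 f ?_
  intro g x
  exact hf.map_vadd_zmultiples g x

/-- the measure of a set through the angle integral -/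
noncomputable def sad_L (E : Set SL(2, ℝ)) (z : ℍ) : ℝ≥0∞ :=
  ∫⁻ a in Set.Ioc 0 (2 * Real.pi), E.indicator (fun _ => (1 : ℝ≥0∞)) (gg z a)

theorem sad_ind_meas {E : Set SL(2, ℝ)} (hE : MeasurableSet E) :
    Measurable (fun p : ℍ × ℝ => E.indicator (fun _ => (1 : ℝ≥0∞)) (gg p.1 p.2)) :=
  (measurable_const.indicator hE).comp sad_gg_meas

theorem sad_L_meas {E : Set SL(2, ℝ)} (hE : MeasurableSet E) : Measurable (sad_L E) :=
  (sad_ind_meas hE).lintegral_prod_right'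

theorem sad_apply {E : Set SL(2, ℝ)} (hE : MeasurableSet E) : sad_mu E = ∫⁻ z : ℍ, sad_L E z := by
  have h1 : sad_mu E = ∫⁻ p : ℍ × ℝ, E.indicator (fun _ => (1 : ℝ≥0∞)) (gg p.1 p.2) ∂sad_nu := by
    rw [← lintegral_map (measurable_const.indicator hE) sad_gg_meas, lintegral_indicator hE,
      lintegral_const, one_mul, Measure.restrict_apply_univ]
    rfl
  rw [h1, sad_nu, lintegral_prod _ (sad_ind_meas hE).aemeasurable]
  rfl

theorem sad_inv (h : SL(2, ℝ)) : MeasurePreserving (fun g => h * g) sad_mu sad_mu := by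
  refine ⟨sad_left_meas h, Measure.ext fun E hE => ?_⟩
  rw [Measure.map_apply (sad_left_meas h) hE, sad_apply (sad_left_meas h hE), sad_apply hE]
  have h1 : ∀ z : ℍ, sad_L ((fun g => h * g) ⁻¹' E) z = sad_L E (h • z) := by
    intro z
    obtain ⟨b, hb⟩ := sad_mul h z
    have hper : Function.Periodic (fun a : ℝ => E.indicator (fun _ => (1 : ℝ≥0∞)) (gg (h • z) a))
        (2 * Real.pi) := by
      intro a
      simp only [sad_per]
    have hq : Measurable fun a : ℝ => gg (h • z) a := by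
      have h0 : Continuous fun a : ℝ => gg (h • z) a :=
        hk_continuous_gg.comp (continuous_const.prodMk continuous_id)
      exact h0.measurable
    have hm : Measurable (fun a : ℝ => E.indicator (fun _ => (1 : ℝ≥0∞)) (gg (h • z) a)) :=
      (measurable_const.indicator hE).comp hq
    have h3 := sad_shift _ hper hm b
    rw [sad_L, sad_L, ← h3]
    refine lintegral_congr fun a => ?_
    rw [← hb a]
    rfl
  simp only [h1]
  have h2 := measurePreserving_smul (h : GL (Fin 2) ℝ) (volume : Measure ℍ)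
  exact h2.lintegral_comp (sad_L_meas hE)

/-- the fundamental domain in the group -/
def sad_S : Set SL(2, ℝ) := {g | g • UpperHalfPlane.I ∈ (𝒟ᵒ : Set ℍ)}

theorem sad_S_meas : MeasurableSet sad_S := by
  have h : Continuous fun g : SL(2, ℝ) => g • UpperHalfPlane.I :=
    continuous_id.smul continuous_const
  exact (isOpen_fdo.preimage h).measurableSet

theorem sad_preim : (fun p : ℍ × ℝ => gg p.1 p.2) ⁻¹' sad_S = (𝒟ᵒ : Set ℍ) ×ˢ Set.univ := by
  ext p
  simp only [sad_S, Set.mem_preimage, Set.mem_ofPred_eq, gg_smul_I, Set.mem_prod, Set.mem_univ,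
    and_true]

theorem sad_muG : muG = sad_nu.restrict ((𝒟ᵒ : Set ℍ) ×ˢ Set.univ) := by
  rw [muG, sad_nu, ← Measure.prod_restrict, Measure.restrict_univ]

theorem sad_S_fin : sad_mu sad_S < ⊤ := by
  have h := muG_lt_top
  rw [sad_muG, Measure.restrict_apply_univ, ← sad_preim] at h
  rw [sad_mu, Measure.map_apply sad_gg_meas sad_S_meas]
  exact h

theorem sad_int (K : SL(2, ℝ) → ℂ) (hK : Measurable K) :
    ∫ p : ℍ × ℝ, K (gg p.1 p.2) ∂muG = ∫ g in sad_S, K g ∂sad_mu := by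
  rw [sad_mu, setIntegral_map sad_S_meas hK.aestronglyMeasurable sad_gg_meas.aemeasurable,
    sad_preim, ← sad_muG]

/-- the indicator function -/
noncomputable def sad_b (g : SL(2, ℝ)) : ℝ≥0∞ := sad_S.indicator (fun _ => 1) g

theorem sad_b_meas : Measurable sad_b := measurable_const.indicator sad_S_meas

theorem sad_count : ∀ᵐ g ∂sad_mu, ∑' γ : SL(2, ℤ), sad_b (toR γ * g) = 2 := by
  have : Countable SL(2, ℤ) := GL2.RSA_countable
  have hm : Measurable fun g : SL(2, ℝ) => ∑' γ : SL(2, ℤ), sad_b (toR γ * g) :=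
    Measurable.tsum fun γ => sad_b_meas.comp (sad_left_meas _)
  rw [sad_mu, ae_map_iff sad_gg_meas.aemeasurable (measurableSet_eq_fun hm measurable_const)]
  have h1 := (Measure.quasiMeasurePreserving_fst (μ := (volume : Measure ℍ))
    (ν := (volume.restrict (Set.Ioc 0 (2 * Real.pi)) : Measure ℝ))).ae GL2.RSA_count_ae
  filter_upwards [h1] with p hp
  rw [← hp]
  refine tsum_congr fun γ => ?_
  have h2 : (toR γ * gg p.1 p.2) • UpperHalfPlane.I = γ • p.1 := by
    rw [mul_smul, gg_smul_I, hk_toR_smul]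
  by_cases h3 : γ • p.1 ∈ (𝒟ᵒ : Set ℍ)
  · rw [Set.indicator_of_mem h3, sad_b, Set.indicator_of_mem]
    rw [sad_S, Set.mem_ofPred_eq, h2]
    exact h3
  · rw [Set.indicator_of_notMem h3, sad_b, Set.indicator_of_notMem]
    rw [sad_S, Set.mem_ofPred_eq, h2]
    exact h3

theorem sad_count' (h : SL(2, ℝ)) :
    ∀ᵐ g ∂sad_mu, ∑' γ : SL(2, ℤ), sad_b (toR γ * (h * g)) = 2 :=
  (sad_inv h).quasiMeasurePreserving.ae sad_count

/-! ### summation -/

theorem sad_sum {ι κ : Type} [Fintype ι] (b : ι → κ → ℝ≥0∞)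
    (hb : ∀ i, ∑' k, b i k = 2) (c : ι → ℂ) :
    ∑' y : ι × κ, (((b y.1 y.2).toReal : ℝ) : ℂ) * c y.1 = 2 * ∑ i, c i := by
  classical
  have hfin : ∑' y : ι × κ, b y.1 y.2 ≠ ⊤ := by
    rw [ENNReal.tsum_prod' (f := fun y : ι × κ => b y.1 y.2)]
    simp only [hb, tsum_fintype, Finset.sum_const, nsmul_eq_mul]
    exact ENNReal.mul_ne_top (ENNReal.natCast_ne_top _) (by simp)
  have hs1 : Summable fun y : ι × κ => (b y.1 y.2).toReal := ENNReal.summable_toReal hfin
  have hs : Summable fun y : ι × κ => (((b y.1 y.2).toReal : ℝ) : ℂ) * c y.1 := by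
    refine Summable.of_norm_bounded (g := fun y : ι × κ => (b y.1 y.2).toReal * ∑ i, ‖c i‖)
      (hs1.mul_right _) fun y => ?_
    rw [norm_mul, Complex.norm_real, Real.norm_of_nonneg ENNReal.toReal_nonneg]
    exact mul_le_mul_of_nonneg_left
      (Finset.single_le_sum (f := fun i => ‖c i‖) (fun i _ => norm_nonneg _) (Finset.mem_univ _))
      ENNReal.toReal_nonneg
  rw [hs.tsum_prod, tsum_fintype, Finset.mul_sum]
  refine Finset.sum_congr rfl fun i _ => ?_
  dsimp only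
  rw [tsum_mul_right, ← Complex.ofReal_tsum, ← ENNReal.tsum_toReal_eq, hb i]
  · simp
  · intro k hk
    have h1 : b i k ≤ 2 := by rw [← hb i]; exact ENNReal.le_tsum k
    rw [hk] at h1
    exact absurd h1 (by simp)

theorem sad_claim {ι : Type} [Fintype ι] (h : ι → SL(2, ℝ)) (H : ι → SL(2, ℝ) → ℂ)
    (hH : ∀ i, Measurable (H i)) (B : ℝ) (hB : ∀ i g, ‖H i g‖ ≤ B) :
    ∑' y : ι × SL(2, ℤ), ∫ g in sad_S, (((sad_b (toR y.2 * (h y.1 * g))).toReal : ℝ) : ℂ) *
        H y.1 g ∂sad_mu = 2 * ∑ i, ∫ g in sad_S, H i g ∂sad_mu := by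
  have : Countable SL(2, ℤ) := GL2.RSA_countable
  have : IsFiniteMeasure (sad_mu.restrict sad_S) :=
    ⟨by rw [Measure.restrict_apply_univ]; exact sad_S_fin⟩
  have hbm : ∀ y : ι × SL(2, ℤ), Measurable fun g : SL(2, ℝ) => sad_b (toR y.2 * (h y.1 * g)) :=
    fun y => sad_b_meas.comp ((sad_left_meas _).comp (sad_left_meas _))
  have hae : ∀ᵐ g ∂(sad_mu.restrict sad_S), ∀ i : ι,
      ∑' γ : SL(2, ℤ), sad_b (toR γ * (h i * g)) = 2 := by
    rw [ae_all_iff]
    intro i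
    exact ae_restrict_of_ae (sad_count' (h i))
  rw [← integral_tsum]
  · have h1 : ∀ᵐ g ∂(sad_mu.restrict sad_S), ∑' y : ι × SL(2, ℤ),
        (((sad_b (toR y.2 * (h y.1 * g))).toReal : ℝ) : ℂ) * H y.1 g = 2 * ∑ i, H i g := by
      filter_upwards [hae] with g hg
      exact sad_sum (fun i γ => sad_b (toR γ * (h i * g))) hg (fun i => H i g)
    rw [integral_congr_ae h1, integral_const_mul, integral_finsetSum]
    intro i _
    exact Integrable.of_bound (hH i).aestronglyMeasurable B (ae_of_all _ (hB i))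
  · intro y
    have hm : Measurable fun g : SL(2, ℝ) =>
        (((sad_b (toR y.2 * (h y.1 * g))).toReal : ℝ) : ℂ) * H y.1 g :=
      (Complex.measurable_ofReal.comp (hbm y).ennreal_toReal).mul (hH y.1)
    exact hm.aestronglyMeasurable
  · have hle : ∀ (y : ι × SL(2, ℤ)) (g : SL(2, ℝ)),
        ‖(((sad_b (toR y.2 * (h y.1 * g))).toReal : ℝ) : ℂ) * H y.1 g‖ₑ ≤
          ENNReal.ofReal B * sad_b (toR y.2 * (h y.1 * g)) := by
      intro y g
      rw [enorm_mul, mul_comm]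
      refine mul_le_mul' ?_ ?_
      · rw [← ofReal_norm]
        exact ENNReal.ofReal_le_ofReal (hB _ _)
      · rw [← ofReal_norm, Complex.norm_real, Real.norm_of_nonneg ENNReal.toReal_nonneg]
        exact ENNReal.ofReal_toReal_le
    have h2 : ∑' y : ι × SL(2, ℤ), ∫⁻ g in sad_S,
        ‖(((sad_b (toR y.2 * (h y.1 * g))).toReal : ℝ) : ℂ) * H y.1 g‖ₑ ∂sad_mu ≤
        ENNReal.ofReal B * (Fintype.card ι * (2 * sad_mu sad_S)) := by
      calc ∑' y : ι × SL(2, ℤ), ∫⁻ g in sad_S,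
          ‖(((sad_b (toR y.2 * (h y.1 * g))).toReal : ℝ) : ℂ) * H y.1 g‖ₑ ∂sad_mu
          ≤ ∑' y : ι × SL(2, ℤ), ∫⁻ g in sad_S,
            ENNReal.ofReal B * sad_b (toR y.2 * (h y.1 * g)) ∂sad_mu :=
            ENNReal.tsum_le_tsum fun y => lintegral_mono fun g => hle y g
        _ = ENNReal.ofReal B * ∑' y : ι × SL(2, ℤ), ∫⁻ g in sad_S,
            sad_b (toR y.2 * (h y.1 * g)) ∂sad_mu := by
            rw [← ENNReal.tsum_mul_left]
            refine tsum_congr fun y => ?_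
            rw [lintegral_const_mul _ (hbm y)]
        _ = ENNReal.ofReal B * ∑ i : ι, ∫⁻ g in sad_S,
            ∑' γ : SL(2, ℤ), sad_b (toR γ * (h i * g)) ∂sad_mu := by
            congr 1
            rw [ENNReal.tsum_prod' (f := fun y : ι × SL(2, ℤ) => ∫⁻ g in sad_S,
              sad_b (toR y.2 * (h y.1 * g)) ∂sad_mu), tsum_fintype]
            refine Finset.sum_congr rfl fun i _ => ?_
            rw [lintegral_tsum fun γ => (hbm (i, γ)).aemeasurable]
        _ = ENNReal.ofReal B * ∑ i : ι, (2 * sad_mu sad_S) := by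
            congr 1
            refine Finset.sum_congr rfl fun i _ => ?_
            have h3 : ∀ᵐ g ∂(sad_mu.restrict sad_S),
                ∑' γ : SL(2, ℤ), sad_b (toR γ * (h i * g)) = 2 := by
              filter_upwards [hae] with g hg
              exact hg i
            rw [lintegral_congr_ae h3, lintegral_const, Measure.restrict_apply_univ]
        _ = _ := by
            rw [Finset.sum_const, Finset.card_univ, nsmul_eq_mul]
    refine ne_top_of_le_ne_top ?_ h2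
    have h4 := sad_S_fin.ne
    exact ENNReal.mul_ne_top ENNReal.ofReal_ne_top
      (ENNReal.mul_ne_top (ENNReal.natCast_ne_top _) (ENNReal.mul_ne_top (by simp) h4))

/-! ### the involution -/

/-- the matrix `γ δ` -/
def sad_M (m : ℕ) (x : ↥(HM (m ^ 2)) × SL(2, ℤ)) : Matrix (Fin 2) (Fin 2) ℤ :=
  (x.2 : Matrix (Fin 2) (Fin 2) ℤ) * hkd x.1.1

theorem sad_M_det {m : ℕ} (hm : 0 < m) (x : ↥(HM (m ^ 2)) × SL(2, ℤ)) :
    (sad_M m x).det = (m ^ 2 : ℕ) := by
  rw [sad_M, Matrix.det_mul, Matrix.SpecialLinearGroup.det_coe, one_mul,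
    hh_det (pow_pos hm 2) x.1.2]

theorem sad_M_inj {m : ℕ} (hm : 0 < m) {x y : ↥(HM (m ^ 2)) × SL(2, ℤ)}
    (h : sad_M m x = sad_M m y) : x = y := by
  have h1 : hkd x.1.1 = ((x.2⁻¹ * y.2 : SL(2, ℤ)) : Matrix (Fin 2) (Fin 2) ℤ) * hkd y.1.1 := by
    rw [Matrix.SpecialLinearGroup.coe_mul, Matrix.mul_assoc]
    change _ = _ * sad_M m y
    rw [← h, sad_M, ← Matrix.mul_assoc, ← Matrix.SpecialLinearGroup.coe_mul, inv_mul_cancel,
      Matrix.SpecialLinearGroup.coe_one, Matrix.one_mul]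
  have h2 : x.1.1 = y.1.1 := hk_unique (pow_pos hm 2) x.1.2 y.1.2 _ h1
  have h3 : x.1 = y.1 := Subtype.ext h2
  have hdet : (hkd y.1.1).det ≠ 0 := by
    rw [hh_det (pow_pos hm 2) y.1.2]
    exact_mod_cast (pow_pos hm 2).ne'
  have h4 : (x.2 : Matrix (Fin 2) (Fin 2) ℤ) = (y.2 : Matrix (Fin 2) (Fin 2) ℤ) := by
    have h5 : (x.2 : Matrix (Fin 2) (Fin 2) ℤ) * hkd y.1.1 =
        (y.2 : Matrix (Fin 2) (Fin 2) ℤ) * hkd y.1.1 := by
      rw [← h2]
      change sad_M m x = _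
      rw [h, sad_M, h2]
    have h6 := congrArg (fun M => M * (hkd y.1.1).adjugate) h5
    simp only [Matrix.mul_assoc, Matrix.mul_adjugate, Matrix.mul_smul, Matrix.mul_one] at h6
    exact smul_right_injective _ hdet h6
  exact Prod.ext h3 (Subtype.ext h4)

theorem sad_adj {m : ℕ} (hm : 0 < m) (x : ↥(HM (m ^ 2)) × SL(2, ℤ)) :
    ∃ y : ↥(HM (m ^ 2)) × SL(2, ℤ), sad_M m y = (sad_M m x).adjugate := by
  obtain ⟨γ, t, ht, h⟩ := hk_exists (pow_pos hm 2) (sad_M m x).adjugate (by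
    rw [Matrix.det_adjugate, Fintype.card_fin, pow_one, sad_M_det hm])
  exact ⟨(⟨t, ht⟩, γ), h.symm⟩

/-- the involution -/
noncomputable def sad_iv {m : ℕ} (hm : 0 < m) (x : ↥(HM (m ^ 2)) × SL(2, ℤ)) :
    ↥(HM (m ^ 2)) × SL(2, ℤ) := (sad_adj hm x).choose

theorem sad_iv_spec {m : ℕ} (hm : 0 < m) (x : ↥(HM (m ^ 2)) × SL(2, ℤ)) :
    sad_M m (sad_iv hm x) = (sad_M m x).adjugate := (sad_adj hm x).choose_spec

theorem sad_iv_iv {m : ℕ} (hm : 0 < m) (x : ↥(HM (m ^ 2)) × SL(2, ℤ)) :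
    sad_iv hm (sad_iv hm x) = x := by
  apply sad_M_inj hm
  rw [sad_iv_spec, sad_iv_spec, Matrix.adjugate_fin_two, Matrix.adjugate_fin_two]
  ext i j
  fin_cases i <;> fin_cases j <;> simp

/-- the real matrix -/
noncomputable def sad_R (m : ℕ) (x : ↥(HM (m ^ 2)) × SL(2, ℤ)) : SL(2, ℝ) :=
  toR x.2 * hR m x.1.1

/-- the matrix modulo `N` -/
noncomputable def sad_Q (N m : ℕ) (x : ↥(HM (m ^ 2)) × SL(2, ℤ)) : QN N :=
  red N x.2 * hQ N m x.1.1

theorem sad_R_coe {m : ℕ} (hm : 0 < m) (x : ↥(HM (m ^ 2)) × SL(2, ℤ)) :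
    (sad_R m x : Matrix (Fin 2) (Fin 2) ℝ) = (m : ℝ)⁻¹ • (sad_M m x).map (Int.castRingHom ℝ) := by
  rw [sad_R, Matrix.SpecialLinearGroup.coe_mul, hk_hR_coe hm x.1.2, Matrix.mul_smul, sad_M,
    Matrix.map_mul]
  rfl

theorem sad_Q_coe {N m : ℕ} (hm : 0 < m) (hmN : m.Coprime N) (x : ↥(HM (m ^ 2)) × SL(2, ℤ)) :
    (sad_Q N m x : Matrix (Fin 2) (Fin 2) (ZMod N)) =
      (m : ZMod N)⁻¹ • (sad_M m x).map (Int.castRingHom (ZMod N)) := by
  rw [sad_Q, Matrix.SpecialLinearGroup.coe_mul, hk_hQ_coe hm hmN x.1.2, Matrix.mul_smul, sad_M,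
    Matrix.map_mul]
  rfl

theorem sad_inv_gen {R : Type} [CommRing R] (c : R) (M : Matrix (Fin 2) (Fin 2) ℤ)
    (A B : Matrix.SpecialLinearGroup (Fin 2) R)
    (hA : (A : Matrix (Fin 2) (Fin 2) R) = c • M.map (Int.castRingHom R))
    (hB : (B : Matrix (Fin 2) (Fin 2) R) = c • M.adjugate.map (Int.castRingHom R)) :
    B = A⁻¹ := by
  apply Subtype.ext
  rw [Matrix.SpecialLinearGroup.coe_inv, hA, Matrix.adjugate_smul, Fintype.card_fin, pow_one, hB]
  congr 1
  exact RingHom.map_adjugate (Int.castRingHom R) M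

theorem sad_R_iv {m : ℕ} (hm : 0 < m) (x : ↥(HM (m ^ 2)) × SL(2, ℤ)) :
    sad_R m (sad_iv hm x) = (sad_R m x)⁻¹ :=
  sad_inv_gen _ (sad_M m x) _ _ (sad_R_coe hm x) (by rw [sad_R_coe hm, sad_iv_spec])

theorem sad_Q_iv {N m : ℕ} (hm : 0 < m) (hmN : m.Coprime N) (x : ↥(HM (m ^ 2)) × SL(2, ℤ)) :
    sad_Q N m (sad_iv hm x) = (sad_Q N m x)⁻¹ :=
  sad_inv_gen _ (sad_M m x) _ _ (sad_Q_coe hm hmN x) (by rw [sad_Q_coe hm hmN, sad_iv_spec])

/-- the involution on the full index set -/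
noncomputable def sad_tau {N m : ℕ} (hm : 0 < m) (y : (QN N × ↥(HM (m ^ 2))) × SL(2, ℤ)) :
    (QN N × ↥(HM (m ^ 2))) × SL(2, ℤ) :=
  ((sad_Q N m (y.1.2, y.2) * y.1.1, (sad_iv hm (y.1.2, y.2)).1), (sad_iv hm (y.1.2, y.2)).2)

theorem sad_tau_tau {N m : ℕ} (hm : 0 < m) (hmN : m.Coprime N) :
    Function.Involutive (sad_tau (N := N) hm) := by
  intro y
  have h1 : sad_iv hm ((sad_tau hm y).1.2, (sad_tau hm y).2) = (y.1.2, y.2) :=
    sad_iv_iv hm (y.1.2, y.2)
  have h2 : sad_Q N m ((sad_tau hm y).1.2, (sad_tau hm y).2) = (sad_Q N m (y.1.2, y.2))⁻¹ :=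
    sad_Q_iv hm hmN (y.1.2, y.2)
  have e : sad_tau hm (sad_tau hm y) = ((sad_Q N m ((sad_tau hm y).1.2, (sad_tau hm y).2) *
      (sad_tau hm y).1.1, (sad_iv hm ((sad_tau hm y).1.2, (sad_tau hm y).2)).1),
      (sad_iv hm ((sad_tau hm y).1.2, (sad_tau hm y).2)).2) := rfl
  rw [e, h1, h2]
  have e2 : (sad_tau hm y).1.1 = sad_Q N m (y.1.2, y.2) * y.1.1 := rfl
  rw [e2, inv_mul_cancel_left]

/-! ### the substitution -/

theorem sad_set (K : SL(2, ℝ) → ℂ) :
    ∫ g in sad_S, K g ∂sad_mu = ∫ g, (((sad_b g).toReal : ℝ) : ℂ) * K g ∂sad_mu := by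
  rw [← integral_indicator sad_S_meas]
  congr 1
  ext g
  by_cases h : g ∈ sad_S
  · rw [Set.indicator_of_mem h, sad_b, Set.indicator_of_mem h]
    simp
  · rw [Set.indicator_of_notMem h, sad_b, Set.indicator_of_notMem h]
    simp

theorem sad_subst (A : SL(2, ℝ)) (K : SL(2, ℝ) → ℂ) :
    ∫ g, K (A * g) ∂sad_mu = ∫ g, K g ∂sad_mu :=
  (sad_inv A).integral_comp (Homeomorph.mulLeft A).measurableEmbedding K

theorem sad_term {N m : ℕ} (hm : 0 < m) (hmN : m.Coprime N)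
    {F G : QN N → SL(2, ℝ) → ℂ} (hF : Fam F) (hG : Fam G)
    (y : (QN N × ↥(HM (m ^ 2))) × SL(2, ℤ)) :
    ∫ g in sad_S, (((sad_b (toR y.2 * (hR m y.1.2.1 * g))).toReal : ℝ) : ℂ) *
        (F (hQ N m y.1.2.1 * y.1.1) (hR m y.1.2.1 * g) * conj (G y.1.1 g)) ∂sad_mu =
      ∫ g in sad_S, (((sad_b (toR (sad_tau hm y).2 *
        (hR m (sad_tau hm y).1.2.1 * g))).toReal : ℝ) : ℂ) *
        (F (sad_tau hm y).1.1 g * conj (G (hQ N m (sad_tau hm y).1.2.1 * (sad_tau hm y).1.1)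
          (hR m (sad_tau hm y).1.2.1 * g))) ∂sad_mu := by
  set x : ↥(HM (m ^ 2)) × SL(2, ℤ) := (y.1.2, y.2) with hx
  set A := sad_R m x with hA
  set q := sad_Q N m x with hq
  have hR' : sad_R m (sad_iv hm x) = A⁻¹ := sad_R_iv hm x
  have hQ' : sad_Q N m (sad_iv hm x) = q⁻¹ := sad_Q_iv hm hmN x
  have e1 : (sad_tau hm y).2 = (sad_iv hm x).2 := rfl
  have e2 : (sad_tau hm y).1.2 = (sad_iv hm x).1 := rfl
  have e3 : (sad_tau hm y).1.1 = q * y.1.1 := rfl
  rw [e1, e2, e3, sad_set, sad_set]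
  have hL : ∀ g, (((sad_b g).toReal : ℝ) : ℂ) * ((((sad_b (toR y.2 *
        (hR m y.1.2.1 * g))).toReal : ℝ) : ℂ) *
        (F (hQ N m y.1.2.1 * y.1.1) (hR m y.1.2.1 * g) * conj (G y.1.1 g))) =
      (fun g => (((sad_b (A⁻¹ * g)).toReal : ℝ) : ℂ) * ((((sad_b g).toReal : ℝ) : ℂ) *
        (F (q * y.1.1) g * conj (G y.1.1 (A⁻¹ * g))))) (A * g) := by
    intro g
    have h1 : toR y.2 * (hR m y.1.2.1 * g) = A * g := by rw [← mul_assoc]; rfl
    have h2 : F (hQ N m y.1.2.1 * y.1.1) (hR m y.1.2.1 * g) = F (q * y.1.1) (A * g) := by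
      rw [← hF y.2 (hQ N m y.1.2.1 * y.1.1) (hR m y.1.2.1 * g), h1, ← mul_assoc]
      rfl
    simp only [inv_mul_cancel_left]
    rw [h1, h2]
  have hRr : ∀ g, (((sad_b g).toReal : ℝ) : ℂ) * ((((sad_b (toR (sad_iv hm x).2 *
        (hR m (sad_iv hm x).1.1 * g))).toReal : ℝ) : ℂ) *
        (F (q * y.1.1) g * conj (G (hQ N m (sad_iv hm x).1.1 * (q * y.1.1))
          (hR m (sad_iv hm x).1.1 * g)))) =
      (fun g => (((sad_b (A⁻¹ * g)).toReal : ℝ) : ℂ) * ((((sad_b g).toReal : ℝ) : ℂ) *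
        (F (q * y.1.1) g * conj (G y.1.1 (A⁻¹ * g))))) g := by
    intro g
    have h1 : toR (sad_iv hm x).2 * (hR m (sad_iv hm x).1.1 * g) = A⁻¹ * g := by
      rw [← mul_assoc, ← hR']; rfl
    have h2 : G (hQ N m (sad_iv hm x).1.1 * (q * y.1.1)) (hR m (sad_iv hm x).1.1 * g) =
        G y.1.1 (A⁻¹ * g) := by
      rw [← hG (sad_iv hm x).2 (hQ N m (sad_iv hm x).1.1 * (q * y.1.1))
        (hR m (sad_iv hm x).1.1 * g), h1, ← mul_assoc]
      have h3 : red N (sad_iv hm x).2 * hQ N m (sad_iv hm x).1.1 = q⁻¹ := hQ'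
      rw [h3, inv_mul_cancel_left]
    rw [h1, h2]
    ring
  rw [integral_congr_ae (ae_of_all _ hL), integral_congr_ae (ae_of_all _ hRr)]
  exact sad_subst A (fun g => (((sad_b (A⁻¹ * g)).toReal : ℝ) : ℂ) *
    ((((sad_b g).toReal : ℝ) : ℂ) * (F (q * y.1.1) g * conj (G y.1.1 (A⁻¹ * g)))))

/-! ### the theorem -/

theorem sad_ip {N : ℕ} [NeZero N] {F G : QN N → SL(2, ℝ) → ℂ} (hF : ∀ s, Continuous (F s))
    (hG : ∀ s, Continuous (G s)) :
    ip F G = ∑ s : QN N, ∫ g in sad_S, F s g * conj (G s g) ∂sad_mu := by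
  rw [ip]
  refine Finset.sum_congr rfl fun s _ => ?_
  have h : Continuous fun g => F s g * conj (G s g) :=
    (hF s).mul (Complex.continuous_conj.comp (hG s))
  exact sad_int (fun g => F s g * conj (G s g)) h.measurable

/-- block SAD: the Hecke operators are self-adjoint -/
theorem Tm_selfadj_pr {N m : ℕ} [NeZero N] (hm : 0 < m) (hmN : m.Coprime N)
    {F G : QN N → SL(2, ℝ) → ℂ} (hF : BF F) (hG : BF G) : ip (Tm m F) G = ip F (Tm m G) := by
  obtain ⟨B₁, hB₁⟩ := hF.bdd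
  obtain ⟨B₂, hB₂⟩ := hG.bdd
  have hB₁0 : 0 ≤ B₁ := (norm_nonneg _).trans (hB₁ 1 1)
  set H₁ : QN N × ↥(HM (m ^ 2)) → SL(2, ℝ) → ℂ := fun i g =>
    F (hQ N m i.2.1 * i.1) (hR m i.2.1 * g) * conj (G i.1 g) with hH₁
  set H₂ : QN N × ↥(HM (m ^ 2)) → SL(2, ℝ) → ℂ := fun i g =>
    F i.1 g * conj (G (hQ N m i.2.1 * i.1) (hR m i.2.1 * g)) with hH₂
  have m₁ : ∀ i, Measurable (H₁ i) := fun i =>
    (((hF.cts _).comp (continuous_const.mul continuous_id)).mul
      (Complex.continuous_conj.comp (hG.cts _))).measurable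
  have m₂ : ∀ i, Measurable (H₂ i) := fun i =>
    ((hF.cts _).mul (Complex.continuous_conj.comp
      ((hG.cts _).comp (continuous_const.mul continuous_id)))).measurable
  have b₁ : ∀ i g, ‖H₁ i g‖ ≤ B₁ * B₂ := by
    intro i g
    rw [hH₁]
    dsimp only
    rw [norm_mul, RCLike.norm_conj]
    exact mul_le_mul (hB₁ _ _) (hB₂ _ _) (norm_nonneg _) hB₁0
  have b₂ : ∀ i g, ‖H₂ i g‖ ≤ B₁ * B₂ := by
    intro i g
    rw [hH₂]
    dsimp only
    rw [norm_mul, RCLike.norm_conj]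
    exact mul_le_mul (hB₁ _ _) (hB₂ _ _) (norm_nonneg _) hB₁0
  have c₁ := sad_claim (fun i : QN N × ↥(HM (m ^ 2)) => hR m i.2.1) H₁ m₁ _ b₁
  have c₂ := sad_claim (fun i : QN N × ↥(HM (m ^ 2)) => hR m i.2.1) H₂ m₂ _ b₂
  have hkey : ∑ i, ∫ g in sad_S, H₁ i g ∂sad_mu = ∑ i, ∫ g in sad_S, H₂ i g ∂sad_mu := by
    have h : (2 : ℂ) * ∑ i, ∫ g in sad_S, H₁ i g ∂sad_mu =
        2 * ∑ i, ∫ g in sad_S, H₂ i g ∂sad_mu := by
      rw [← c₁, ← c₂]
      have e := Equiv.tsum_eq (Function.Involutive.toPerm _ (sad_tau_tau (N := N) hm hmN))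
        (fun y : (QN N × ↥(HM (m ^ 2))) × SL(2, ℤ) => ∫ g in sad_S,
          (((sad_b (toR y.2 * (hR m y.1.2.1 * g))).toReal : ℝ) : ℂ) * H₂ y.1 g ∂sad_mu)
      rw [← e]
      refine tsum_congr fun y => ?_
      exact sad_term hm hmN hF.fam hG.fam y
    exact mul_left_cancel₀ two_ne_zero h
  have : IsFiniteMeasure (sad_mu.restrict sad_S) :=
    ⟨by rw [Measure.restrict_apply_univ]; exact sad_S_fin⟩
  have hL : ip (Tm m F) G = (m : ℂ)⁻¹ * ∑ i, ∫ g in sad_S, H₁ i g ∂sad_mu := by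
    rw [sad_ip (bf_Tm hm hmN hF).cts hG.cts, Fintype.sum_prod_type, Finset.mul_sum]
    refine Finset.sum_congr rfl fun s _ => ?_
    rw [← integral_finsetSum, ← integral_const_mul]
    · refine integral_congr_ae (ae_of_all _ fun g => ?_)
      dsimp only
      rw [Tm, ← Finset.sum_coe_sort, mul_assoc, Finset.sum_mul]
    · intro t _
      exact Integrable.of_bound (m₁ (s, t)).aestronglyMeasurable _ (ae_of_all _ (b₁ (s, t)))
  have hR : ip F (Tm m G) = (m : ℂ)⁻¹ * ∑ i, ∫ g in sad_S, H₂ i g ∂sad_mu := by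
    rw [sad_ip hF.cts (bf_Tm hm hmN hG).cts, Fintype.sum_prod_type, Finset.mul_sum]
    refine Finset.sum_congr rfl fun s _ => ?_
    rw [← integral_finsetSum, ← integral_const_mul]
    · refine integral_congr_ae (ae_of_all _ fun g => ?_)
      dsimp only
      rw [Tm, ← Finset.sum_coe_sort, map_mul, map_sum, map_inv₀, Complex.conj_natCast,
        Finset.mul_sum, Finset.mul_sum, Finset.mul_sum]
      refine Finset.sum_congr rfl fun t _ => ?_
      rw [hH₂]
      dsimp only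
      ring
    · intro t _
      exact Integrable.of_bound (m₂ (s, t)).aestronglyMeasurable _ (ae_of_all _ (b₂ (s, t)))
  rw [hL, hR, hkey]

theorem Tm_selfadj : type_of% @Tm_selfadj_pr := @Tm_selfadj_pr

end Pool.Agent.JO
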