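import Pool.Agent.Lib_helper68.JOH.Defs
import Pool.Agent.Lib_helper68.JOF.MIX
import Pool.Agent.Lib_helper32.JO.Stmt
import Pool.Agent.Lib_helper68.JOHF.BFM
import Pool.Agent.Lib_helper68.JOHF.SAD
import Pool.Agent.Lib_helper68.JOHF.HE1
import Pool.Agent.Lib_helper68.JOHF.HE2

/-! Project JO, part H, block SQR: the amplified square. -/

set_option autoImplicit false

namespace Pool.Agent.JO

open Complex MeasureTheory Filter Topology ModularGroup
open UpperHalfPlane hiding I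
open scoped MatrixGroups Modular ComplexConjugate ENNReal

theorem sqr_sum_left {N : ℕ} [NeZero N] {ι : Type} (S : Finset ι) {F : ι → QN N → SL(2, ℝ) → ℂ}
    {G : QN N → SL(2, ℝ) → ℂ} (hF : ∀ i ∈ S, BF (F i)) (hG : BF G) :
    ip (fun s g => ∑ i ∈ S, F i s g) G = ∑ i ∈ S, ip (F i) G := by
  rw [ip]
  have h1 : ∀ s : QN N, ∫ p : ℍ × ℝ, (∑ i ∈ S, F i s (gg p.1 p.2)) * conj (G s (gg p.1 p.2)) ∂muG =
      ∑ i ∈ S, ∫ p : ℍ × ℝ, F i s (gg p.1 p.2) * conj (G s (gg p.1 p.2)) ∂muG := by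
    intro s
    rw [← integral_finsetSum S fun i hi => bf_int (hF i hi) hG s]
    congr 1
    funext p
    rw [Finset.sum_mul]
  simp_rw [h1]
  rw [Finset.sum_comm]
  rfl

theorem sqr_sum_right {N : ℕ} [NeZero N] {ι : Type} (S : Finset ι) {F : QN N → SL(2, ℝ) → ℂ}
    {G : ι → QN N → SL(2, ℝ) → ℂ} (hF : BF F) (hG : ∀ i ∈ S, BF (G i)) :
    ip F (fun s g => ∑ i ∈ S, G i s g) = ∑ i ∈ S, ip F (G i) := by
  rw [ip]
  have h1 : ∀ s : QN N, ∫ p : ℍ × ℝ, F s (gg p.1 p.2) * conj (∑ i ∈ S, G i s (gg p.1 p.2)) ∂muG =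
      ∑ i ∈ S, ∫ p : ℍ × ℝ, F s (gg p.1 p.2) * conj (G i s (gg p.1 p.2)) ∂muG := by
    intro s
    rw [← integral_finsetSum S fun i hi => bf_int hF (hG i hi) s]
    congr 1
    funext p
    rw [map_sum, Finset.mul_sum]
  simp_rw [h1]
  rw [Finset.sum_comm]
  rfl

theorem sqr_add_left {N : ℕ} [NeZero N] {F₁ F₂ G : QN N → SL(2, ℝ) → ℂ} (h₁ : BF F₁) (h₂ : BF F₂)
    (hG : BF G) : ip (fun s g => F₁ s g + F₂ s g) G = ip F₁ G + ip F₂ G := by
  have h := sqr_sum_left (N := N) (Finset.univ : Finset (Fin 2)) (F := ![F₁, F₂]) (G := G) (by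
    intro i _
    fin_cases i
    · exact h₁
    · exact h₂) hG
  simp only [Fin.sum_univ_two, Matrix.cons_val_zero, Matrix.cons_val_one] at h
  exact h

theorem sqr_one {N : ℕ} (F : QN N → SL(2, ℝ) → ℂ) : Tm 1 F = F := by
  have hs : HM (1 ^ 2) = {(1, 0, 1)} := by
    ext t
    obtain ⟨a, b, d⟩ := t
    rw [hk_mem_HM (by norm_num), Finset.mem_singleton]
    constructor
    · rintro ⟨h1, h2⟩
      dsimp only at h1 h2
      rw [one_pow] at h1
      have ha := Nat.eq_one_of_mul_eq_one_right h1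
      have hd := Nat.eq_one_of_mul_eq_one_left h1
      subst ha
      subst hd
      have hb : b = 0 := by omega
      rw [hb]
    · intro h
      rw [Prod.mk.injEq, Prod.mk.injEq] at h
      obtain ⟨rfl, rfl, rfl⟩ := h
      simp
  have ht : ((1, 0, 1) : ℕ × ℕ × ℕ) ∈ HM (1 ^ 2) := by
    rw [hk_mem_HM (by norm_num)]
    simp
  have e1 : hQ N 1 (1, 0, 1) = 1 := by
    apply Subtype.ext
    rw [hk_hQ_coe one_pos (Nat.coprime_one_left N) ht]
    ext i j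
    have h2 : ((1 : ℕ) : ZMod N)⁻¹ = 1 := by
      have := hk_unit (Nat.coprime_one_left N)
      rw [Nat.cast_one] at this ⊢
      rwa [one_mul] at this
    rw [h2]
    fin_cases i <;> fin_cases j <;> simp [hkd]
  have e2 : hR 1 (1, 0, 1) = 1 := by
    apply Subtype.ext
    rw [hk_hR_coe one_pos ht]
    ext i j
    fin_cases i <;> fin_cases j <;> simp [hkd]
  funext s g
  rw [Tm, hs, Finset.sum_singleton, e1, e2, one_mul, one_mul, Nat.cast_one, inv_one, one_mul]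

/-- block SQR: the amplified square -/
theorem amp_sq_pr {N k : ℕ} [NeZero N] {Φ : QN N → SL(2, ℝ) → ℂ} (hΦ : KF k Φ) (PP : Finset ℕ)
    (hPP : ∀ p ∈ PP, p.Prime ∧ ¬ p ∣ N) (w : ℍ) :
    ip (fun s g => ∑ p ∈ PP, Tm p (Psi Φ w) s g) (fun s g => ∑ p ∈ PP, Tm p (Psi Φ w) s g) =
      ∑ p ∈ PP, ∑ q ∈ PP, if p = q then
        ip (Tm (p ^ 2) (Psi Φ w)) (Psi Φ w) + ip (Tm p (Psi Φ w)) (Psi Φ w) +
          ip (Tm 1 (Psi Φ w)) (Psi Φ w)
      else ip (Tm (p * q) (Psi Φ w)) (Psi Φ w) := by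
  have hΨ : BF (Psi Φ w) := bf_Psi hΦ w
  have hc : ∀ p ∈ PP, p.Coprime N := fun p hp =>
    (Nat.Prime.coprime_iff_not_dvd (hPP p hp).1).2 (hPP p hp).2
  have hT : ∀ p ∈ PP, BF (Tm p (Psi Φ w)) := fun p hp => bf_Tm (hPP p hp).1.pos (hc p hp) hΨ
  rw [sqr_sum_left PP hT (bf_sum PP hT)]
  refine Finset.sum_congr rfl fun p hp => ?_
  rw [sqr_sum_right PP (hT p hp) hT]
  refine Finset.sum_congr rfl fun q hq => ?_
  have h1 : ip (Tm p (Psi Φ w)) (Tm q (Psi Φ w)) = ip (Tm q (Tm p (Psi Φ w))) (Psi Φ w) :=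
    (Tm_selfadj (hPP q hq).1.pos (hc q hq) (hT p hp) hΨ).symm
  rw [h1]
  by_cases hpq : p = q
  · subst hpq
    rw [if_pos rfl]
    have h2 : Tm p (Tm p (Psi Φ w)) = fun s g =>
        (Tm (p ^ 2) (Psi Φ w) s g + Tm p (Psi Φ w) s g) + Psi Φ w s g := by
      funext s g
      exact Tm_Tm_eq (hPP p hp).1 (hPP p hp).2 hΨ.fam s g
    have h3 : BF (Tm (p ^ 2) (Psi Φ w)) :=
      bf_Tm (pow_pos (hPP p hp).1.pos 2) (Nat.Coprime.pow_left 2 (hc p hp)) hΨ
    have h4 : BF (fun s g => Tm (p ^ 2) (Psi Φ w) s g + Tm p (Psi Φ w) s g) := by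
      have h5 := bf_sum (N := N) (Finset.univ : Finset (Fin 2))
        (F := ![Tm (p ^ 2) (Psi Φ w), Tm p (Psi Φ w)]) (by
          intro i _
          fin_cases i
          · exact h3
          · exact hT p hp)
      simp only [Fin.sum_univ_two, Matrix.cons_val_zero, Matrix.cons_val_one] at h5
      exact h5
    rw [h2, sqr_add_left h4 hΨ hΨ, sqr_add_left h3 (hT p hp) hΨ, sqr_one]
  · rw [if_neg hpq]
    have h2 : Tm q (Tm p (Psi Φ w)) = Tm (p * q) (Psi Φ w) := by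
      funext s g
      rw [Tm_Tm_ne (hPP q hq).1 (hPP p hp).1 (Ne.symm hpq) (hPP q hq).2 (hPP p hp).2 hΨ.fam,
        mul_comm q p]
    rw [h2]

theorem amp_sq : type_of% @amp_sq_pr := @amp_sq_pr

end Pool.Agent.JO
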