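import Pool.Agent.Lib_helper68.JOH.Defs
import Pool.Agent.Lib_helper68.JOF.MIX
import Pool.Agent.Lib_helper32.JO.Stmt
import Pool.Agent.Lib_helper68.JOHF.MBD
import Pool.Agent.Lib_helper68.JOHF.EIG
import Pool.Agent.Lib_helper68.JOHF.SQR
import Pool.Agent.Lib_helper68.JOHF.BFM
import Pool.Agent.Lib_helper68.JOHF.SAD
import Pool.Agent.Lib_helper68.JOHF.HE1
import Pool.Agent.Lib_helper68.JOHF.HE2
import Pool.Agent.Lib_helper68.JOHF.DEC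
import Pool.Agent.Lib_helper68.JOHF.TRV
import Pool.Agent.Lib_helper68.JOHF.TRA
import Pool.Agent.Lib_helper68.JOHF.RAD
import Pool.Agent.Lib_helper68.JOHF.AVG

/-! Block FIN: the amplified mean square. -/

set_option autoImplicit false

namespace Pool.Agent.JO

open Complex MeasureTheory Filter Topology ModularGroup
open UpperHalfPlane hiding I
open scoped MatrixGroups Modular ComplexConjugate ENNReal

theorem fin_Tm_smul {N : ℕ} (m : ℕ) (c : ℂ) (F : QN N → SL(2, ℝ) → ℂ) (s : QN N) (g : SL(2, ℝ)) :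
    Tm m (fun s g => c * F s g) s g = c * Tm m F s g := by
  unfold Tm
  rw [← Finset.mul_sum]
  ring

theorem fin_nG_smul {N : ℕ} [NeZero N] (c : ℂ) (F : QN N → SL(2, ℝ) → ℂ) :
    nG (fun s g => c * F s g) = ENNReal.ofReal (‖c‖ ^ 2) * nG F := by
  unfold nG
  rw [Finset.mul_sum]
  refine Finset.sum_congr rfl fun s _ => ?_
  rw [← lintegral_const_mul' _ _ ENNReal.ofReal_ne_top]
  refine lintegral_congr fun p => ?_
  rw [norm_mul, mul_pow, ENNReal.ofReal_mul (by positivity)]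

theorem fin_coprime {N p : ℕ} (hp : p.Prime) (h : ¬ p ∣ N) : p.Coprime N :=
  (Nat.Prime.coprime_iff_not_dvd hp).mpr h

/-- numerical bounds of the eigenvalues -/
theorem fin_mu {a r : ℝ} (ha : 1 ≤ a) (hr : 1 ≤ r) {μ : ℂ} (h : ‖μ‖ ≤ 2 * a) :
    ‖μ - 1 / (r : ℂ)‖ ≤ 3 * a ∧ ‖μ ^ 2 - μ - 1 - μ / (r : ℂ)‖ ≤ 9 * a ^ 2 := by
  have hr0 : 0 < r := by linarith
  have h1 : ‖(1 : ℂ) / (r : ℂ)‖ ≤ 1 := by
    rw [norm_div, norm_one, Complex.norm_real, Real.norm_of_nonneg hr0.le, div_le_one hr0]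
    exact hr
  have h2 : ‖μ / (r : ℂ)‖ ≤ ‖μ‖ := by
    rw [norm_div, Complex.norm_real, Real.norm_of_nonneg hr0.le]
    exact div_le_self (norm_nonneg _) hr
  constructor
  · calc ‖μ - 1 / (r : ℂ)‖ ≤ ‖μ‖ + ‖(1 : ℂ) / (r : ℂ)‖ := norm_sub_le _ _
      _ ≤ 3 * a := by linarith
  · have h3 : ‖μ ^ 2‖ ≤ 4 * a ^ 2 := by
      rw [norm_pow]
      calc ‖μ‖ ^ 2 ≤ (2 * a) ^ 2 := by gcongr
        _ = _ := by ring
    calc ‖μ ^ 2 - μ - 1 - μ / (r : ℂ)‖ ≤ ‖μ ^ 2 - μ - 1‖ + ‖μ / (r : ℂ)‖ := norm_sub_le _ _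
      _ ≤ ‖μ ^ 2 - μ‖ + ‖(1 : ℂ)‖ + ‖μ / (r : ℂ)‖ := by gcongr; exact norm_sub_le _ _
      _ ≤ ‖μ ^ 2‖ + ‖μ‖ + ‖(1 : ℂ)‖ + ‖μ / (r : ℂ)‖ := by gcongr; exact norm_sub_le _ _
      _ ≤ 4 * a ^ 2 + 2 * a + 1 + 2 * a := by
          rw [norm_one]; linarith
      _ ≤ 9 * a ^ 2 := by nlinarith

section eig

variable {N k : ℕ} [NeZero N] {Φ : QN N → SL(2, ℝ) → ℂ}

/-- the operator `T_1` -/
theorem fin_nu_one : ∀ d ∈ (1 : ℕ).divisors, PEig d Φ ((fun _ : ℕ => (1 : ℂ)) d) := by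
  intro d hd
  rw [Nat.divisors_one, Finset.mem_singleton] at hd
  subst hd
  exact peig_one Φ

theorem fin_nu_p {p : ℕ} (hp : p.Prime) (hpN : ¬ p ∣ N) (hF : Fam Φ) {μ : ℂ}
    (h : ∀ s g, Tm p Φ s g = μ * Φ s g) {a : ℝ} (ha : 1 ≤ a) (hμ : ‖μ‖ ≤ 2 * a) :
    ∃ ν : ℕ → ℂ, (∀ d ∈ p.divisors, PEig d Φ (ν d)) ∧
      ∑ d ∈ p.divisors, ‖ν d‖ ^ 2 ≤ 10 * a ^ 2 := by
  have hp1 : (1 : ℝ) ≤ p := by exact_mod_cast hp.one_lt.le
  obtain ⟨b1, -⟩ := fin_mu ha hp1 hμ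
  push_cast at b1
  refine ⟨fun d => if d = 1 then 1 else μ - 1 / p, ?_, ?_⟩
  · intro d hd
    rw [Nat.Prime.divisors hp, Finset.mem_insert, Finset.mem_singleton] at hd
    rcases hd with rfl | rfl
    · beta_reduce; rw [if_pos rfl]; exact peig_one Φ
    · beta_reduce; rw [if_neg hp.one_lt.ne']; exact peig_p hp hpN hF h
  · rw [Nat.Prime.divisors hp, Finset.sum_pair hp.one_lt.ne]
    beta_reduce
    rw [if_pos rfl, if_neg hp.one_lt.ne']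
    have h2 : ‖μ - 1 / (p : ℂ)‖ ^ 2 ≤ (3 * a) ^ 2 := by gcongr
    rw [norm_one]
    nlinarith

theorem fin_nu_pp {p : ℕ} (hp : p.Prime) (hpN : ¬ p ∣ N) (hF : Fam Φ) {μ : ℂ}
    (h : ∀ s g, Tm p Φ s g = μ * Φ s g) {a : ℝ} (ha : 1 ≤ a) (hμ : ‖μ‖ ≤ 2 * a) :
    ∃ ν : ℕ → ℂ, (∀ d ∈ (p ^ 2).divisors, PEig d Φ (ν d)) ∧
      ∑ d ∈ (p ^ 2).divisors, ‖ν d‖ ^ 2 ≤ 91 * a ^ 4 := by
  have hp1 : (1 : ℝ) ≤ p := by exact_mod_cast hp.one_lt.le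
  obtain ⟨b1, b2⟩ := fin_mu ha hp1 hμ
  push_cast at b1 b2
  have hpp : p ^ 2 ≠ p := by
    intro h3
    have := hp.one_lt
    nlinarith
  have hp21 : p ^ 2 ≠ 1 := by
    intro h3
    have := hp.one_lt
    nlinarith
  have hdiv : (p ^ 2).divisors = {1, p, p ^ 2} := by
    rw [Nat.divisors_prime_pow hp]
    ext d
    simp only [Finset.mem_map, Finset.mem_range, Function.Embedding.coeFn_mk, Finset.mem_insert,
      Finset.mem_singleton]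
    constructor
    · rintro ⟨i, hi, rfl⟩
      interval_cases i
      · left; rfl
      · right; left; exact pow_one p
      · right; right; rfl
    · rintro (rfl | rfl | rfl)
      · exact ⟨0, by norm_num, pow_zero p⟩
      · exact ⟨1, by norm_num, pow_one _⟩
      · exact ⟨2, by norm_num, rfl⟩
  refine ⟨fun d => if d = 1 then 1 else if d = p then μ - 1 / p else μ ^ 2 - μ - 1 - μ / p, ?_, ?_⟩
  · intro d hd
    rw [hdiv, Finset.mem_insert, Finset.mem_insert, Finset.mem_singleton] at hd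
    rcases hd with rfl | rfl | rfl
    · beta_reduce; rw [if_pos rfl]; exact peig_one Φ
    · beta_reduce; rw [if_neg hp.one_lt.ne', if_pos rfl]; exact peig_p hp hpN hF h
    · beta_reduce; rw [if_neg hp21, if_neg hpp]; exact peig_pp hp hpN hF h
  · rw [hdiv, Finset.sum_insert (by
      simp only [Finset.mem_insert, Finset.mem_singleton, not_or]
      exact ⟨hp.one_lt.ne, hp21.symm⟩), Finset.sum_pair hpp.symm]
    beta_reduce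
    rw [if_pos rfl, if_neg hp.one_lt.ne', if_pos rfl, if_neg hp21, if_neg hpp]
    have h2 : ‖μ - 1 / (p : ℂ)‖ ^ 2 ≤ (3 * a) ^ 2 := by gcongr
    have h3 : ‖μ ^ 2 - μ - 1 - μ / (p : ℂ)‖ ^ 2 ≤ (9 * a ^ 2) ^ 2 := by gcongr
    have h4 : (1 : ℝ) ≤ a ^ 4 := one_le_pow₀ ha
    have h5 : a ^ 2 ≤ a ^ 4 := pow_le_pow_right₀ ha (by norm_num)
    rw [norm_one]
    calc (1 : ℝ) ^ 2 + (‖μ - 1 / (p : ℂ)‖ ^ 2 + ‖μ ^ 2 - μ - 1 - μ / (p : ℂ)‖ ^ 2) ≤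
        1 + ((3 * a) ^ 2 + (9 * a ^ 2) ^ 2) := by rw [one_pow]; gcongr
      _ = 1 + 9 * a ^ 2 + 81 * a ^ 4 := by ring
      _ ≤ _ := by linarith

theorem fin_nu_pq {p q : ℕ} (hp : p.Prime) (hq : q.Prime) (hpq : p ≠ q) (hpN : ¬ p ∣ N)
    (hqN : ¬ q ∣ N) (hF : Fam Φ) {μ μ' : ℂ}
    (h : ∀ s g, Tm p Φ s g = μ * Φ s g) (h' : ∀ s g, Tm q Φ s g = μ' * Φ s g)
    {a b : ℝ} (ha : 1 ≤ a) (hμ : ‖μ‖ ≤ 2 * a) (hb : 1 ≤ b) (hμ' : ‖μ'‖ ≤ 2 * b) :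
    ∃ ν : ℕ → ℂ, (∀ d ∈ (p * q).divisors, PEig d Φ (ν d)) ∧
      ∑ d ∈ (p * q).divisors, ‖ν d‖ ^ 2 ≤ 100 * (a ^ 2 * b ^ 2) := by
  have hp1 : (1 : ℝ) ≤ p := by exact_mod_cast hp.one_lt.le
  have hq1 : (1 : ℝ) ≤ q := by exact_mod_cast hq.one_lt.le
  obtain ⟨b1, -⟩ := fin_mu ha hp1 hμ
  obtain ⟨b2, -⟩ := fin_mu hb hq1 hμ'
  push_cast at b1 b2
  have n1 : p ≠ 1 := hp.one_lt.ne'
  have n2 : q ≠ 1 := hq.one_lt.ne'
  have n3 : p * q ≠ 1 := by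
    intro h3
    exact n1 (Nat.eq_one_of_mul_eq_one_right h3)
  have n4 : p * q ≠ p := by
    intro h3
    exact n2 (Nat.eq_of_mul_eq_mul_left hp.pos (by rw [h3, mul_one]))
  have n5 : p * q ≠ q := by
    intro h3
    exact n1 (Nat.eq_of_mul_eq_mul_right hq.pos (by rw [h3, one_mul]))
  have hdiv : (p * q).divisors = {1, p, q, p * q} := by
    ext d
    rw [Nat.mem_divisors]
    simp only [Finset.mem_insert, Finset.mem_singleton]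
    constructor
    · rintro ⟨hd, -⟩
      obtain ⟨x, y, hx, hy, rfl⟩ := (Nat.dvd_mul).mp hd
      rcases (Nat.dvd_prime hp).mp hx with rfl | rfl <;> rcases (Nat.dvd_prime hq).mp hy with rfl | rfl
      · left; rfl
      · right; right; left; exact one_mul _
      · right; left; exact mul_one _
      · right; right; right; rfl
    · have h0 : p * q ≠ 0 := Nat.mul_ne_zero hp.ne_zero hq.ne_zero
      rintro (rfl | rfl | rfl | rfl)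
      · exact ⟨one_dvd _, h0⟩
      · exact ⟨Dvd.intro _ rfl, h0⟩
      · exact ⟨Dvd.intro_left _ rfl, h0⟩
      · exact ⟨dvd_rfl, h0⟩
  refine ⟨fun d => if d = 1 then 1 else if d = p then μ - 1 / p else if d = q then μ' - 1 / q else
    (μ - 1 / p) * (μ' - 1 / q), ?_, ?_⟩
  · intro d hd
    rw [hdiv, Finset.mem_insert, Finset.mem_insert, Finset.mem_insert, Finset.mem_singleton] at hd
    rcases hd with rfl | rfl | rfl | rfl
    · beta_reduce; rw [if_pos rfl]; exact peig_one Φ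
    · beta_reduce; rw [if_neg n1, if_pos rfl]; exact peig_p hp hpN hF h
    · beta_reduce; rw [if_neg n2, if_neg (Ne.symm hpq), if_pos rfl]; exact peig_p hq hqN hF h'
    · beta_reduce; rw [if_neg n3, if_neg n4, if_neg n5]; exact peig_pq hp hq hpq hpN hqN hF h h'
  · rw [hdiv, Finset.sum_insert (by
      simp only [Finset.mem_insert, Finset.mem_singleton, not_or]
      exact ⟨n1.symm, n2.symm, n3.symm⟩), Finset.sum_insert (by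
      simp only [Finset.mem_insert, Finset.mem_singleton, not_or]
      exact ⟨hpq, n4.symm⟩), Finset.sum_pair n5.symm]
    beta_reduce
    rw [if_pos rfl, if_neg n1, if_pos rfl,
      if_neg n2, if_neg (Ne.symm hpq), if_pos rfl, if_neg n3, if_neg n4, if_neg n5]
    have h2 : ‖μ - 1 / (p : ℂ)‖ ^ 2 ≤ (3 * a) ^ 2 := by gcongr
    have h3 : ‖μ' - 1 / (q : ℂ)‖ ^ 2 ≤ (3 * b) ^ 2 := by gcongr
    have h4 : ‖(μ - 1 / (p : ℂ)) * (μ' - 1 / (q : ℂ))‖ ^ 2 ≤ (3 * a) ^ 2 * (3 * b) ^ 2 := by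
      rw [norm_mul, mul_pow]; gcongr
    have ha2 : 1 ≤ a ^ 2 := one_le_pow₀ ha
    have hb2 : 1 ≤ b ^ 2 := one_le_pow₀ hb
    have e1 : a ^ 2 ≤ a ^ 2 * b ^ 2 := le_mul_of_one_le_right (by positivity) hb2
    have e2 : b ^ 2 ≤ a ^ 2 * b ^ 2 := le_mul_of_one_le_left (by positivity) ha2
    have e3 : 1 ≤ a ^ 2 * b ^ 2 := ha2.trans e1
    rw [norm_one]
    calc (1 : ℝ) ^ 2 + (‖μ - 1 / (p : ℂ)‖ ^ 2 + (‖μ' - 1 / (q : ℂ)‖ ^ 2 +
          ‖(μ - 1 / (p : ℂ)) * (μ' - 1 / (q : ℂ))‖ ^ 2)) ≤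
        1 + ((3 * a) ^ 2 + ((3 * b) ^ 2 + (3 * a) ^ 2 * (3 * b) ^ 2)) := by rw [one_pow]; gcongr
      _ = 1 + 9 * a ^ 2 + 9 * b ^ 2 + 81 * (a ^ 2 * b ^ 2) := by ring
      _ ≤ _ := by linarith

end eig

/-- `ν`-sums over `m` -/
theorem fin_quarter {p P : ℝ} (hP : 1 ≤ P) (hp : P ≤ p) :
    1 ≤ p ^ (1 / 4 : ℝ) ∧ (p ^ (1 / 4 : ℝ)) ^ 4 = p ∧ (p ^ (1 / 4 : ℝ)) ^ 2 = √p := by
  have hp1 : 1 ≤ p := hP.trans hp
  have hp0 : 0 ≤ p := by linarith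
  refine ⟨Real.one_le_rpow hp1 (by norm_num), ?_, ?_⟩
  · rw [← Real.rpow_natCast, ← Real.rpow_mul hp0]; norm_num
  · rw [← Real.rpow_natCast, ← Real.rpow_mul hp0, Real.sqrt_eq_rpow]; norm_num

/-- the average over `w` of one operator, all cases -/
theorem fin_terms {N : ℕ} [NeZero N] {β : ℝ → ℝ} {Λ κ : ℝ} (hβ : JOM.Tst β Λ κ) :
    ∃ C δ : ℝ, 0 < C ∧ 0 < δ ∧ ∀ (k : ℕ) (Φ : QN N → SL(2, ℝ) → ℂ) (μ : ℕ → ℂ) (P X : ℝ),
      KF k Φ → 1 ≤ X → 1 ≤ P →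
      (∀ (p q : ℕ), p.Prime → q.Prime → ¬ p ∣ N → ¬ q ∣ N → P ≤ p → (p : ℝ) ≤ 2 * P → P ≤ q →
        (q : ℝ) ≤ 2 * P → (∀ s g, Tm p Φ s g = μ p * Φ s g) → (∀ s g, Tm q Φ s g = μ q * Φ s g) →
        ‖μ p‖ ≤ 2 * (p : ℝ) ^ (1 / 4 : ℝ) → ‖μ q‖ ≤ 2 * (q : ℝ) ^ (1 / 4 : ℝ) →
        (p ≠ q → ‖∫ w : ℍ, (β (Real.cosh (dist UpperHalfPlane.I w) / X) : ℂ) *
          ip (Tm (p * q) (Psi Φ w)) (Psi Φ w)‖ ≤ C * (X * 100 / P + (4 * P ^ 2) ^ C * X ^ (1 - δ))) ∧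
        ‖∫ w : ℍ, (β (Real.cosh (dist UpperHalfPlane.I w) / X) : ℂ) *
          ip (Tm (p ^ 2) (Psi Φ w)) (Psi Φ w)‖ ≤ C * (X * 91 + (4 * P ^ 2) ^ C * X ^ (1 - δ)) ∧
        ‖∫ w : ℍ, (β (Real.cosh (dist UpperHalfPlane.I w) / X) : ℂ) *
          ip (Tm p (Psi Φ w)) (Psi Φ w)‖ ≤ C * (X * 10 + (4 * P ^ 2) ^ C * X ^ (1 - δ)) ∧
        ‖∫ w : ℍ, (β (Real.cosh (dist UpperHalfPlane.I w) / X) : ℂ) *
          ip (Tm 1 (Psi Φ w)) (Psi Φ w)‖ ≤ C * (X * 1 + (4 * P ^ 2) ^ C * X ^ (1 - δ))) := by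
  obtain ⟨C, δ, hC, hδ, h1⟩ := one_op (N := N) hβ
  refine ⟨C, δ, hC, hδ, ?_⟩
  intro k Φ μ P X hΦ hX hP p q hp hq hpN hqN hPp hp2 hPq hq2 hTp hTq hμp hμq
  have hX0 : 0 < X := by linarith
  have hP0 : 0 < P := by linarith
  have hp0 : (0 : ℝ) < p := by linarith
  have hq0 : (0 : ℝ) < q := by linarith
  have hXδ : 0 ≤ X ^ (1 - δ) := by positivity
  obtain ⟨a1, a2, a3⟩ := fin_quarter hP hPp
  obtain ⟨b1, b2, b3⟩ := fin_quarter hP hPq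
  have hpow : ∀ m : ℕ, 0 < m → (m : ℝ) ≤ 4 * P ^ 2 →
      (m : ℝ) ^ C * X ^ (1 - δ) ≤ (4 * P ^ 2) ^ C * X ^ (1 - δ) := by
    intro m hm hm2
    gcongr
  refine ⟨?_, ?_, ?_, ?_⟩
  · intro hpq
    obtain ⟨ν, hν1, hν2⟩ := fin_nu_pq (N := N) hp hq hpq hpN hqN hΦ.fam hTp hTq a1 hμp b1 hμq
    have hm : 0 < p * q := Nat.mul_pos hp.pos hq.pos
    have := h1 k (p * q) Φ ν X hm hΦ
      (Nat.Coprime.mul_left (fin_coprime hp hpN) (fin_coprime hq hqN)) hν1 hX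
    refine this.trans ?_
    have e1 : X / ((p * q : ℕ) : ℝ) * ∑ d ∈ (p * q).divisors, ‖ν d‖ ^ 2 ≤ X * 100 / P := by
      have e2 : ∑ d ∈ (p * q).divisors, ‖ν d‖ ^ 2 ≤ 100 * (√p * √q) := by
        rw [← a3, ← b3]; exact hν2
      have e3 : P ≤ √p * √q := by
        rw [← Real.sqrt_mul hp0.le]
        apply Real.le_sqrt_of_sq_le
        nlinarith
      have e4 : (√p * √q) * (√p * √q) = p * q := by
        rw [mul_mul_mul_comm, Real.mul_self_sqrt hp0.le, Real.mul_self_sqrt hq0.le]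
      have hs : 0 < √p * √q := by positivity
      push_cast
      calc X / ((p : ℝ) * q) * ∑ d ∈ (p * q).divisors, ‖ν d‖ ^ 2 ≤
          X / ((p : ℝ) * q) * (100 * (√p * √q)) := by gcongr
        _ = X * 100 / (√p * √q) := by
            rw [← e4]; field_simp
        _ ≤ X * 100 / P := by gcongr
    have e5 := hpow (p * q) hm (by push_cast; nlinarith)
    gcongr
  · obtain ⟨ν, hν1, hν2⟩ := fin_nu_pp (N := N) hp hpN hΦ.fam hTp a1 hμp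
    have hm : 0 < p ^ 2 := pow_pos hp.pos 2
    have := h1 k (p ^ 2) Φ ν X hm hΦ (Nat.Coprime.pow_left 2 (fin_coprime hp hpN)) hν1 hX
    refine this.trans ?_
    have e1 : X / ((p ^ 2 : ℕ) : ℝ) * ∑ d ∈ (p ^ 2).divisors, ‖ν d‖ ^ 2 ≤ X * 91 := by
      rw [a2] at hν2
      push_cast
      calc X / ((p : ℝ) ^ 2) * ∑ d ∈ (p ^ 2).divisors, ‖ν d‖ ^ 2 ≤
          X / ((p : ℝ) ^ 2) * (91 * p) := by gcongr
        _ = X * 91 / p := by field_simp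
        _ ≤ X * 91 := div_le_self (by positivity) (hP.trans hPp)
    have e5 := hpow (p ^ 2) hm (by push_cast; nlinarith)
    gcongr
  · obtain ⟨ν, hν1, hν2⟩ := fin_nu_p (N := N) hp hpN hΦ.fam hTp a1 hμp
    have := h1 k p Φ ν X hp.pos hΦ (fin_coprime hp hpN) hν1 hX
    refine this.trans ?_
    have e1 : X / (p : ℝ) * ∑ d ∈ p.divisors, ‖ν d‖ ^ 2 ≤ X * 10 := by
      have e2 : ((p : ℝ) ^ (1 / 4 : ℝ)) ^ 2 ≤ p := by
        rw [a3]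
        exact (Real.sqrt_le_left hp0.le).mpr (by nlinarith)
      calc X / (p : ℝ) * ∑ d ∈ p.divisors, ‖ν d‖ ^ 2 ≤ X / (p : ℝ) * (10 * p) := by
            gcongr
            exact hν2.trans (by linarith)
        _ = X * 10 := by field_simp
    have e5 := hpow p hp.pos (by nlinarith)
    gcongr
  · have := h1 k 1 Φ (fun _ => 1) X one_pos hΦ (Nat.coprime_one_left N) fin_nu_one hX
    refine this.trans ?_
    have e1 : X / ((1 : ℕ) : ℝ) * ∑ d ∈ (1 : ℕ).divisors, ‖((fun _ : ℕ => (1 : ℂ)) d)‖ ^ 2 ≤ X * 1 := by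
      rw [Nat.divisors_one, Finset.sum_singleton]
      simp
    have e5 := hpow 1 one_pos (by push_cast; nlinarith)
    gcongr

end Pool.Agent.JO
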