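import Pool.Agent.Lib_helper68.JOH.Defs
import Pool.Agent.Lib_helper68.JOF.MIX
import Pool.Agent.Lib_helper32.JO.Stmt
import Pool.Agent.Lib_helper68.JOHF.FIN

/-! Block FIN, part B: the amplified mean square. -/

set_option autoImplicit false

namespace Pool.Agent.JO

open Complex MeasureTheory Filter Topology ModularGroup
open UpperHalfPlane hiding I
open scoped MatrixGroups Modular ComplexConjugate ENNReal

/-- the integrand as a function of `w` -/
theorem finb_int {N k : ℕ} [NeZero N] {Φ : QN N → SL(2, ℝ) → ℂ} (hΦ : KF k Φ) {β : ℝ → ℝ} {Λ κ : ℝ}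
    (hβ : JOM.Tst β Λ κ) {X : ℝ} (hX : 1 ≤ X) {m : ℕ} (hm : 0 < m) (hmN : m.Coprime N) :
    Integrable (fun w : ℍ => (β (Real.cosh (dist UpperHalfPlane.I w) / X) : ℂ) *
      ip (Tm m (Psi Φ w)) (Psi Φ w)) := by
  obtain ⟨C, hC, h1⟩ := JOM.kernel_int hβ
  obtain ⟨h2, -⟩ := h1 X UpperHalfPlane.I hX
  obtain ⟨h3, B, h4⟩ := meas_w hΦ hm hmN
  exact h2.ofReal.mul_bdd (c := B) h3.aestronglyMeasurable (Eventually.of_forall h4)

/-- the amplified square, averaged over `w` -/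
theorem fin_avg {N k : ℕ} [NeZero N] {Φ : QN N → SL(2, ℝ) → ℂ} (hΦ : KF k Φ) {β : ℝ → ℝ} {Λ κ : ℝ}
    (hβ : JOM.Tst β Λ κ) (hβ0 : ∀ t, 0 ≤ β t) {X : ℝ} (hX : 1 ≤ X) (PP : Finset ℕ)
    (hPP : ∀ p ∈ PP, p.Prime ∧ ¬ p ∣ N) :
    ∫⁻ w : ℍ, ENNReal.ofReal (β (Real.cosh (dist UpperHalfPlane.I w) / X)) *
        nG (N := N) (fun s g => ∑ p ∈ PP, Tm p (Psi Φ w) s g) ≤
      ENNReal.ofReal (∑ p ∈ PP, ∑ q ∈ PP, if p = q then
        ‖∫ w : ℍ, (β (Real.cosh (dist UpperHalfPlane.I w) / X) : ℂ) *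
          ip (Tm (p ^ 2) (Psi Φ w)) (Psi Φ w)‖ +
        ‖∫ w : ℍ, (β (Real.cosh (dist UpperHalfPlane.I w) / X) : ℂ) *
          ip (Tm p (Psi Φ w)) (Psi Φ w)‖ +
        ‖∫ w : ℍ, (β (Real.cosh (dist UpperHalfPlane.I w) / X) : ℂ) *
          ip (Tm 1 (Psi Φ w)) (Psi Φ w)‖
      else ‖∫ w : ℍ, (β (Real.cosh (dist UpperHalfPlane.I w) / X) : ℂ) *
          ip (Tm (p * q) (Psi Φ w)) (Psi Φ w)‖) := by
  have hBF : ∀ w, BF (N := N) (fun s g => ∑ p ∈ PP, Tm p (Psi Φ w) s g) := fun w =>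
    bf_sum PP fun p hp => bf_Tm (hPP p hp).1.pos (fin_coprime (hPP p hp).1 (hPP p hp).2)
      (bf_Psi hΦ w)
  set G : ℍ → ℂ := fun w => ip (fun s g => ∑ p ∈ PP, Tm p (Psi Φ w) s g)
    (fun s g => ∑ p ∈ PP, Tm p (Psi Φ w) s g) with hG
  set b : ℍ → ℝ := fun w => β (Real.cosh (dist UpperHalfPlane.I w) / X) with hb
  have hG0 : ∀ w, 0 ≤ (G w).re := fun w => (nG_eq (hBF w)).2
  have hb0 : ∀ w, 0 ≤ b w := fun w => hβ0 _
  -- integrability of the pieces
  have hint : ∀ m : ℕ, 0 < m → m.Coprime N →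
      Integrable (fun w : ℍ => (b w : ℂ) * ip (Tm m (Psi Φ w)) (Psi Φ w)) :=
    fun m hm hmN => finb_int hΦ hβ hX hm hmN
  have hcp : ∀ p ∈ PP, p.Coprime N := fun p hp => fin_coprime (hPP p hp).1 (hPP p hp).2
  set T : ℕ → ℕ → ℍ → ℂ := fun p q w => if p = q then
        (b w : ℂ) * ip (Tm (p ^ 2) (Psi Φ w)) (Psi Φ w) + (b w : ℂ) * ip (Tm p (Psi Φ w)) (Psi Φ w) +
          (b w : ℂ) * ip (Tm 1 (Psi Φ w)) (Psi Φ w)
      else (b w : ℂ) * ip (Tm (p * q) (Psi Φ w)) (Psi Φ w) with hT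
  have hbG : ∀ w, (b w : ℂ) * G w = ∑ p ∈ PP, ∑ q ∈ PP, T p q w := by
    intro w
    simp only [hG]
    rw [amp_sq hΦ PP hPP w, Finset.mul_sum]
    refine Finset.sum_congr rfl fun p _ => ?_
    rw [Finset.mul_sum]
    refine Finset.sum_congr rfl fun q _ => ?_
    simp only [hT]
    split_ifs
    · ring
    · rfl
  have hTint : ∀ p ∈ PP, ∀ q ∈ PP, Integrable (T p q) := by
    intro p hp q hq
    simp only [hT]
    by_cases h : p = q
    · simp only [if_pos h]
      exact ((hint _ (pow_pos (hPP p hp).1.pos 2) (Nat.Coprime.pow_left 2 (hcp p hp))).add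
        (hint _ (hPP p hp).1.pos (hcp p hp))).add (hint 1 one_pos (Nat.coprime_one_left N))
    · simp only [if_neg h]
      exact hint _ (Nat.mul_pos (hPP p hp).1.pos (hPP q hq).1.pos)
        (Nat.Coprime.mul_left (hcp p hp) (hcp q hq))
  have hbGint : Integrable (fun w => (b w : ℂ) * G w) := by
    have : (fun w => (b w : ℂ) * G w) = fun w => ∑ p ∈ PP, ∑ q ∈ PP, T p q w := funext hbG
    rw [this]
    exact integrable_finsetSum _ fun p hp => integrable_finsetSum _ fun q hq => hTint p hp q hq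
  have hre : ∀ w, ((b w : ℂ) * G w).re = b w * (G w).re := fun w => Complex.re_ofReal_mul _ _
  have hreint : Integrable (fun w => b w * (G w).re) := by
    have := hbGint.re
    refine this.congr (Eventually.of_forall fun w => ?_)
    exact hre w
  have h1 : ∫⁻ w : ℍ, ENNReal.ofReal (β (Real.cosh (dist UpperHalfPlane.I w) / X)) *
        nG (N := N) (fun s g => ∑ p ∈ PP, Tm p (Psi Φ w) s g) =
      ENNReal.ofReal (∫ w, b w * (G w).re) := by
    rw [ofReal_integral_eq_lintegral_ofReal hreint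
      (Eventually.of_forall fun w => mul_nonneg (hb0 w) (hG0 w))]
    refine lintegral_congr fun w => ?_
    rw [(nG_eq (hBF w)).1, ENNReal.ofReal_mul (hb0 w)]
  rw [h1]
  apply ENNReal.ofReal_le_ofReal
  have h2 : ∫ w, b w * (G w).re = (∫ w, (b w : ℂ) * G w).re := by
    have := integral_re hbGint
    rw [← RCLike.re_eq_complex_re, ← this]
    exact integral_congr_ae (Eventually.of_forall fun w => (hre w).symm)
  rw [h2]
  refine (Complex.re_le_norm _).trans ?_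
  simp_rw [hbG]
  rw [integral_finsetSum _ fun p hp => integrable_finsetSum _ fun q hq => hTint p hp q hq]
  refine (norm_sum_le _ _).trans (Finset.sum_le_sum fun p hp => ?_)
  rw [integral_finsetSum _ fun q hq => hTint p hp q hq]
  refine (norm_sum_le _ _).trans (Finset.sum_le_sum fun q hq => ?_)
  simp only [hT]
  by_cases h : p = q
  · simp only [if_pos h]
    have i1 := hint _ (pow_pos (hPP p hp).1.pos 2) (Nat.Coprime.pow_left 2 (hcp p hp))
    have i2 := hint _ (hPP p hp).1.pos (hcp p hp)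
    have i3 := hint 1 one_pos (Nat.coprime_one_left N)
    have e1 := integral_add (i1.add i2) i3
    have e2 := integral_add i1 i2
    have e3 := e1.trans (congrArg (fun z : ℂ => z + ∫ w, (b w : ℂ) * ip (Tm 1 (Psi Φ w)) (Psi Φ w)) e2)
    refine le_trans (le_of_eq (congrArg norm e3)) ?_
    exact (norm_add_le _ _).trans (add_le_add (norm_add_le _ _) le_rfl)
  · simp only [if_neg h]
    exact le_rfl

/-- the number of primes -/
theorem fin_card {P : ℝ} (hP : 1 ≤ P) (PP : Finset ℕ) (h : ∀ p ∈ PP, p.Prime ∧ (p : ℝ) ≤ 2 * P) :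
    (PP.card : ℝ) ≤ 2 * P := by
  have hsub : PP ⊆ Finset.Icc 1 ⌊2 * P⌋₊ := by
    intro p hp
    rw [Finset.mem_Icc]
    exact ⟨(h p hp).1.pos, Nat.le_floor (h p hp).2⟩
  have h1 := Finset.card_le_card hsub
  rw [Nat.card_Icc, Nat.add_sub_cancel] at h1
  calc (PP.card : ℝ) ≤ ((⌊2 * P⌋₊ : ℕ) : ℝ) := by exact_mod_cast h1
    _ ≤ 2 * P := Nat.floor_le (by linarith)

theorem box_H_pr {N : ℕ} [NeZero N] {χ : DirichletCharacter ℂ N} {k : ℕ} {lam : ℕ → ℂ}
    {u : ℍ → ℂ} (hu : WForm N χ k lam u) {β : ℝ → ℝ} {Λ κ : ℝ} (hβ : JOM.Tst β Λ κ)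
    (hβ0 : ∀ t, 0 ≤ β t) : BoxH N k lam u β := by
  obtain ⟨B₀, hB₀⟩ := liftK_bdd (N := N) hu
  obtain ⟨B, hB1, hB⟩ : ∃ B : ℝ, 0 < B ∧ ∀ (s : QN N) (g : SL(2, ℝ)), ‖liftK k u s g‖ ≤ B := by
    refine ⟨max B₀ 1, lt_of_lt_of_le one_pos (le_max_right _ _), fun s g =>
      (hB₀ s g).trans (le_max_left _ _)⟩
  have hBC : (B : ℂ) ≠ 0 := by exact_mod_cast hB1.ne'
  obtain ⟨Φ, hΦd⟩ : ∃ Φ : QN N → SL(2, ℝ) → ℂ, ∀ s g, Φ s g = (B : ℂ)⁻¹ * liftK k u s g :=
    ⟨_, fun _ _ => rfl⟩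
  have hΦe : Φ = fun s g => (B : ℂ)⁻¹ * liftK k u s g := by
    funext s g; exact hΦd s g
  have hΦ : KF k Φ := by
    refine ⟨?_, ?_, ?_, ?_⟩
    · intro γ s g
      rw [hΦd, hΦd, fam_liftK hu]
    · intro s
      rw [hΦe]
      exact continuous_const.mul (continuous_liftK' hu s)
    · intro s g
      rw [hΦd, norm_mul, norm_inv, Complex.norm_real, Real.norm_of_nonneg hB1.le,
        inv_mul_le_iff₀ hB1, mul_one]
      exact hB s g
    · intro s g a
      rw [hΦd, hΦd, liftK_kK]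
      ring
  have hPsi : ∀ w : ℍ, PsiF (N := N) k u w = fun s g => ((B : ℂ) ^ 2) * Psi Φ w s g := by
    intro w
    funext s g
    unfold PsiF Psi
    rw [hΦd, hΦd, map_mul, map_inv₀, Complex.conj_ofReal]
    field_simp
  obtain ⟨μ, hμd⟩ : ∃ μ : ℕ → ℂ, ∀ p, μ p = conj (χ (p : ZMod N)) * lam p ^ 2 - 1 :=
    ⟨_, fun _ => rfl⟩
  have hTμ : ∀ p : ℕ, p.Prime → ¬ p ∣ N → ∀ s g, Tm p Φ s g = μ p * Φ s g := by
    intro p hp hpN s g
    rw [hΦe, fin_Tm_smul, Tm_liftK hu p hp hpN, hμd]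
    ring
  have hμb : ∀ p : ℕ, p.Prime → ‖lam p‖ ≤ (p : ℝ) ^ (1 / 8 : ℝ) →
      ‖μ p‖ ≤ 2 * (p : ℝ) ^ (1 / 4 : ℝ) := by
    intro p hp hl
    have hp1 : (1 : ℝ) ≤ p := by exact_mod_cast hp.one_lt.le
    have hp0 : (0 : ℝ) < p := by linarith
    have h1 : 1 ≤ (p : ℝ) ^ (1 / 4 : ℝ) := Real.one_le_rpow hp1 (by norm_num)
    have h2 : ‖conj (χ (p : ZMod N)) * lam p ^ 2‖ ≤ (p : ℝ) ^ (1 / 4 : ℝ) := by
      rw [norm_mul, norm_pow, RCLike.norm_conj]
      have h3 : ‖χ (p : ZMod N)‖ ≤ 1 := DirichletCharacter.norm_le_one χ _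
      have h4 : ((p : ℝ) ^ (1 / 8 : ℝ)) ^ 2 = (p : ℝ) ^ (1 / 4 : ℝ) := by
        rw [← Real.rpow_natCast, ← Real.rpow_mul hp0.le]; norm_num
      calc ‖χ (p : ZMod N)‖ * ‖lam p‖ ^ 2 ≤ 1 * ((p : ℝ) ^ (1 / 8 : ℝ)) ^ 2 := by gcongr
        _ = _ := by rw [one_mul, h4]
    rw [hμd]
    calc ‖conj (χ (p : ZMod N)) * lam p ^ 2 - 1‖ ≤ ‖conj (χ (p : ZMod N)) * lam p ^ 2‖ + ‖(1 : ℂ)‖ :=
          norm_sub_le _ _
      _ ≤ _ := by rw [norm_one]; linarith
  obtain ⟨C, δ, hC, hδ, hterms⟩ := fin_terms (N := N) hβ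
  obtain ⟨Ck, hCk, hker⟩ := JOM.kernel_int hβ
  -- the trivial bound for the norm of `Ψ`
  obtain ⟨V, hV0, hV⟩ : ∃ V : ℝ, 0 ≤ V ∧ ∀ w : ℍ, nG (Psi Φ w) ≤ ENNReal.ofReal V := by
    refine ⟨Fintype.card (QN N) * (muG Set.univ).toReal, by positivity, fun w => ?_⟩
    unfold nG
    have h1 : ∀ s : QN N, ∫⁻ p : ℍ × ℝ, ENNReal.ofReal (‖Psi Φ w s (gg p.1 p.2)‖ ^ 2) ∂muG ≤
        muG Set.univ := by
      intro s
      calc ∫⁻ p : ℍ × ℝ, ENNReal.ofReal (‖Psi Φ w s (gg p.1 p.2)‖ ^ 2) ∂muG ≤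
          ∫⁻ _ : ℍ × ℝ, 1 ∂muG := by
            refine lintegral_mono fun p => ?_
            rw [← ENNReal.ofReal_one]
            apply ENNReal.ofReal_le_ofReal
            have : ‖Psi Φ w s (gg p.1 p.2)‖ ≤ 1 := by
              unfold Psi
              rw [norm_mul, RCLike.norm_conj]
              exact mul_le_one₀ (hΦ.bdd _ _) (norm_nonneg _) (hΦ.bdd _ _)
            exact pow_le_one₀ (norm_nonneg _) this
        _ = muG Set.univ := by rw [lintegral_const, one_mul]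
    refine (Finset.sum_le_sum fun s _ => h1 s).trans ?_
    rw [Finset.sum_const, Finset.card_univ, nsmul_eq_mul, ENNReal.ofReal_mul (by positivity),
      ENNReal.ofReal_natCast, ENNReal.ofReal_toReal muG_lt_top.ne]
  obtain ⟨D, hD⟩ : ∃ D : ℝ, D = (B ^ 2) ^ 2 * (C * (604 + 10 * 4 ^ C) + V * Ck) := ⟨_, rfl⟩
  have hnn : ‖((B : ℂ) ^ 2)‖ ^ 2 = (B ^ 2) ^ 2 := by
    rw [norm_pow, Complex.norm_real, Real.norm_of_nonneg hB1.le]
  refine ⟨D, δ / (2 * C + 2), by positivity, ?_, ?_⟩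
  · intro X P hX hP hPX PP hPP
    have hX0 : 0 < X := by linarith
    have hP0 : 0 < P := by linarith
    have hXδ : 0 ≤ X ^ (1 - δ) := by positivity
    have hfun : ∀ w : ℍ, (fun (s : QN N) (g : SL(2, ℝ)) => ∑ p ∈ PP, Tm p (PsiF k u w) s g) =
        fun s g => ((B : ℂ) ^ 2) * ∑ p ∈ PP, Tm p (Psi Φ w) s g := by
      intro w
      funext s g
      rw [Finset.mul_sum]
      refine Finset.sum_congr rfl fun p _ => ?_
      rw [hPsi w, fin_Tm_smul]
    have hstep : ∫⁻ w : ℍ, ENNReal.ofReal (β (Real.cosh (dist UpperHalfPlane.I w) / X)) *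
          nG (N := N) (fun s g => ∑ p ∈ PP, Tm p (PsiF k u w) s g) =
        ENNReal.ofReal ((B ^ 2) ^ 2) *
          ∫⁻ w : ℍ, ENNReal.ofReal (β (Real.cosh (dist UpperHalfPlane.I w) / X)) *
            nG (N := N) (fun s g => ∑ p ∈ PP, Tm p (Psi Φ w) s g) := by
      rw [← lintegral_const_mul' _ _ ENNReal.ofReal_ne_top]
      refine lintegral_congr fun w => ?_
      rw [hfun w, fin_nG_smul, hnn]
      ring
    rw [hstep]
    have hPP' : ∀ p ∈ PP, p.Prime ∧ ¬ p ∣ N := fun p hp => ⟨(hPP p hp).1, (hPP p hp).2.2.2.1⟩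
    have havg := fin_avg hΦ hβ hβ0 hX PP hPP'
    obtain ⟨E, hE⟩ : ∃ E : ℝ, E = (4 * P ^ 2) ^ C * X ^ (1 - δ) := ⟨_, rfl⟩
    have hE0 : 0 ≤ E := by rw [hE]; positivity
    have hcard := fin_card hP PP fun p hp => ⟨(hPP p hp).1, (hPP p hp).2.2.1⟩
    have hPE : P ^ 2 * E ≤ 4 ^ C * (P * X) := by
      have e1 : (4 * P ^ 2) ^ C = 4 ^ C * P ^ (2 * C) := by
        rw [Real.mul_rpow (by norm_num) (by positivity), ← Real.rpow_natCast P 2,
          ← Real.rpow_mul hP0.le]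
        norm_num
      have e2 : P ^ 2 * P ^ (2 * C) = P ^ (2 * C + 2) := by
        rw [← Real.rpow_natCast P 2, ← Real.rpow_add hP0]
        congr 1; push_cast; ring
      have e3 : P ^ (2 * C + 2) ≤ X ^ δ := by
        calc P ^ (2 * C + 2) ≤ (X ^ (δ / (2 * C + 2))) ^ (2 * C + 2) := by gcongr
          _ = X ^ δ := by
              rw [← Real.rpow_mul hX0.le]
              congr 1
              field_simp
      have e4 : X ^ δ * X ^ (1 - δ) = X := by
        rw [← Real.rpow_add hX0]; norm_num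
      calc P ^ 2 * E = 4 ^ C * ((P ^ 2 * P ^ (2 * C)) * X ^ (1 - δ)) := by rw [hE, e1]; ring
        _ ≤ 4 ^ C * (X ^ δ * X ^ (1 - δ)) := by rw [e2]; gcongr
        _ = 4 ^ C * X := by rw [e4]
        _ ≤ 4 ^ C * (P * X) := by
            gcongr
            exact le_mul_of_one_le_left hX0.le hP
    have hsum : (∑ p ∈ PP, ∑ q ∈ PP, if p = q then
        ‖∫ w : ℍ, (β (Real.cosh (dist UpperHalfPlane.I w) / X) : ℂ) *
          ip (Tm (p ^ 2) (Psi Φ w)) (Psi Φ w)‖ +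
        ‖∫ w : ℍ, (β (Real.cosh (dist UpperHalfPlane.I w) / X) : ℂ) *
          ip (Tm p (Psi Φ w)) (Psi Φ w)‖ +
        ‖∫ w : ℍ, (β (Real.cosh (dist UpperHalfPlane.I w) / X) : ℂ) *
          ip (Tm 1 (Psi Φ w)) (Psi Φ w)‖
      else ‖∫ w : ℍ, (β (Real.cosh (dist UpperHalfPlane.I w) / X) : ℂ) *
          ip (Tm (p * q) (Psi Φ w)) (Psi Φ w)‖) ≤ C * (604 + 10 * 4 ^ C) * (P * X) := by
      have hone : ∀ p ∈ PP, ∀ q ∈ PP, (if p = q then
          ‖∫ w : ℍ, (β (Real.cosh (dist UpperHalfPlane.I w) / X) : ℂ) *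
            ip (Tm (p ^ 2) (Psi Φ w)) (Psi Φ w)‖ +
          ‖∫ w : ℍ, (β (Real.cosh (dist UpperHalfPlane.I w) / X) : ℂ) *
            ip (Tm p (Psi Φ w)) (Psi Φ w)‖ +
          ‖∫ w : ℍ, (β (Real.cosh (dist UpperHalfPlane.I w) / X) : ℂ) *
            ip (Tm 1 (Psi Φ w)) (Psi Φ w)‖
        else ‖∫ w : ℍ, (β (Real.cosh (dist UpperHalfPlane.I w) / X) : ℂ) *
            ip (Tm (p * q) (Psi Φ w)) (Psi Φ w)‖) ≤
          (if p = q then C * (X * 102 + 3 * E) else 0) + C * (X * 100 / P + E) := by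
        intro p hp q hq
        obtain ⟨p1, p2, p3, p4, p5⟩ := hPP p hp
        obtain ⟨q1, q2, q3, q4, q5⟩ := hPP q hq
        obtain ⟨t1, t2, t3, t4⟩ := hterms k Φ μ P X hΦ hX hP p q p1 q1 p4 q4 p2 p3 q2 q3
          (hTμ p p1 p4) (hTμ q q1 q4) (hμb p p1 p5) (hμb q q1 q5)
        rw [← hE] at t1 t2 t3 t4
        have hnn2 : 0 ≤ C * (X * 100 / P + E) := by positivity
        by_cases h : p = q
        · rw [if_pos h, if_pos h]
          have := add_le_add (add_le_add t2 t3) t4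
          calc _ ≤ _ := this
            _ = C * (X * 102 + 3 * E) := by ring
            _ ≤ _ := le_add_of_nonneg_right hnn2
        · rw [if_neg h, if_neg h, zero_add]
          exact t1 h
      refine (Finset.sum_le_sum fun p hp => Finset.sum_le_sum fun q hq => hone p hp q hq).trans ?_
      have hs1 : ∑ p ∈ PP, ∑ q ∈ PP, ((if p = q then C * (X * 102 + 3 * E) else 0) +
          C * (X * 100 / P + E)) = PP.card * (C * (X * 102 + 3 * E)) +
            PP.card * (PP.card * (C * (X * 100 / P + E))) := by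
        have : ∀ p ∈ PP, ∑ q ∈ PP, ((if p = q then C * (X * 102 + 3 * E) else 0) +
            C * (X * 100 / P + E)) = C * (X * 102 + 3 * E) + PP.card * (C * (X * 100 / P + E)) := by
          intro p hp
          rw [Finset.sum_add_distrib, Finset.sum_ite_eq, if_pos hp, Finset.sum_const,
            nsmul_eq_mul]
        rw [Finset.sum_congr rfl this, Finset.sum_add_distrib, Finset.sum_const, Finset.sum_const,
          nsmul_eq_mul, nsmul_eq_mul]
      rw [hs1]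
      have hc0 : (0 : ℝ) ≤ PP.card := by positivity
      have n1 : 0 ≤ C * (X * 102 + 3 * E) := by positivity
      have n2 : 0 ≤ C * (X * 100 / P + E) := by positivity
      have hEP : P * E ≤ P ^ 2 * E := by
        have : P ≤ P ^ 2 := le_self_pow₀ hP (by norm_num)
        gcongr
      calc (PP.card : ℝ) * (C * (X * 102 + 3 * E)) +
            PP.card * (PP.card * (C * (X * 100 / P + E))) ≤
          2 * P * (C * (X * 102 + 3 * E)) + 2 * P * (2 * P * (C * (X * 100 / P + E))) := by gcongr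
        _ = C * (604 * (P * X) + 6 * (P * E) + 4 * (P ^ 2 * E)) := by
            field_simp
            ring
        _ ≤ C * (604 * (P * X) + 6 * (4 ^ C * (P * X)) + 4 * (4 ^ C * (P * X))) := by
            have := hEP.trans hPE
            gcongr
        _ = _ := by ring
    calc ENNReal.ofReal ((B ^ 2) ^ 2) *
          ∫⁻ w : ℍ, ENNReal.ofReal (β (Real.cosh (dist UpperHalfPlane.I w) / X)) *
            nG (N := N) (fun s g => ∑ p ∈ PP, Tm p (Psi Φ w) s g) ≤
        ENNReal.ofReal ((B ^ 2) ^ 2) * ENNReal.ofReal (C * (604 + 10 * 4 ^ C) * (P * X)) := by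
          gcongr
          exact havg.trans (ENNReal.ofReal_le_ofReal hsum)
      _ = ENNReal.ofReal ((B ^ 2) ^ 2 * (C * (604 + 10 * 4 ^ C) * (P * X))) := by
          rw [← ENNReal.ofReal_mul (by positivity)]
      _ ≤ _ := by
          apply ENNReal.ofReal_le_ofReal
          have hPP32 : P ≤ P ^ (3 / 2 : ℝ) := by
            conv_lhs => rw [← Real.rpow_one P]
            exact Real.rpow_le_rpow_of_exponent_le hP (by norm_num)
          have hVC : 0 ≤ V * Ck := by positivity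
          calc (B ^ 2) ^ 2 * (C * (604 + 10 * 4 ^ C) * (P * X)) =
              (B ^ 2) ^ 2 * (C * (604 + 10 * 4 ^ C)) * (P * X) := by ring
            _ ≤ D * (P ^ (3 / 2 : ℝ) * X) := by
                rw [hD]
                gcongr
                linarith
            _ = _ := by ring
  · intro X hX
    have hX0 : 0 < X := by linarith
    obtain ⟨hk1, hk2⟩ := hker X UpperHalfPlane.I hX
    have hstep : ∀ w : ℍ, nG (N := N) (PsiF k u w) ≤ ENNReal.ofReal ((B ^ 2) ^ 2 * V) := by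
      intro w
      rw [hPsi w, fin_nG_smul, hnn, ENNReal.ofReal_mul (by positivity)]
      gcongr
      exact hV w
    calc ∫⁻ w : ℍ, ENNReal.ofReal (β (Real.cosh (dist UpperHalfPlane.I w) / X)) *
          nG (N := N) (PsiF k u w) ≤
        ∫⁻ w : ℍ, ENNReal.ofReal (β (Real.cosh (dist UpperHalfPlane.I w) / X)) *
          ENNReal.ofReal ((B ^ 2) ^ 2 * V) := by
          refine lintegral_mono fun w => ?_
          gcongr
          exact hstep w
      _ = ENNReal.ofReal (∫ w : ℍ, β (Real.cosh (dist UpperHalfPlane.I w) / X)) *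
          ENNReal.ofReal ((B ^ 2) ^ 2 * V) := by
          rw [lintegral_mul_const' _ _ ENNReal.ofReal_ne_top,
            ofReal_integral_eq_lintegral_ofReal hk1 (Eventually.of_forall fun w => hβ0 _)]
      _ ≤ ENNReal.ofReal (Ck * X) * ENNReal.ofReal ((B ^ 2) ^ 2 * V) := by
          gcongr
          refine le_trans (le_of_eq ?_) hk2
          refine integral_congr_ae (Eventually.of_forall fun w => ?_)
          exact (abs_of_nonneg (hβ0 _)).symm
      _ = ENNReal.ofReal ((B ^ 2) ^ 2 * (V * Ck) * X) := by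
          rw [← ENNReal.ofReal_mul (by positivity)]
          congr 1; ring
      _ ≤ _ := by
          apply ENNReal.ofReal_le_ofReal
          rw [hD]
          have : 0 ≤ C * (604 + 10 * 4 ^ C) := by positivity
          gcongr
          linarith

theorem box_H : type_of% @box_H_pr := @box_H_pr

end Pool.Agent.JO
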